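import Pool.Agent.Run7.h343.NF.Ar

/-!
Bounds for the archimedean factors, all exponents.
-/

set_option autoImplicit false

open Complex MeasureTheory Set

namespace Run7.h343.NG

open Run7.h343.NF

/-- the bound for the archimedean factor with exponent `a` -/
def ArP (a C : ℝ) : Prop := ∀ v : ℝ, ∃ σ : ℝ, Real.sqrt (1 + σ ^ 2) ≤ 2 + 2 * |v| ∧
    ‖(1 + σ * I : ℂ) ^ (a + v * I : ℂ)‖ * ‖Gamma (a + v * I)‖⁻¹ ≤ C * Real.sqrt (1 + σ ^ 2)

lemma arp_lt {a : ℝ} (h0 : 0 < a) (h1 : a < 1) : ∃ C, 0 < C ∧ ArP a C := by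
  have hΓ : 0 < Real.Gamma (1 - a) := Real.Gamma_pos_of_pos (by linarith)
  have hπ := Real.pi_pos
  exact ⟨Real.Gamma (1 - a) * Real.exp 1 / Real.pi, by positivity, fun v => arch h0 h1 v⟩

lemma exists_sig (v : ℝ) : ∃ σ : ℝ, Real.sqrt (1 + σ ^ 2) ≤ 2 + 2 * |v| ∧
    Real.pi * |v| - 1 ≤ 2 * (v * Real.arctan σ) := by
  obtain ⟨σ, hσ1, hσ2⟩ : ∃ σ : ℝ, |σ| = 1 + 2 * |v| ∧ Real.pi * |v| - 1 ≤ 2 * (v * Real.arctan σ) := by
    have hx : 0 < 1 + 2 * |v| := by positivity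
    have h1 := arctan_lower hx
    have h2 : |v| * (1 / (1 + 2 * |v|)) ≤ 1 / 2 := by
      rw [mul_one_div, div_le_iff₀ hx]
      linarith
    have h3 : |v| * (Real.pi / 2 - 1 / (1 + 2 * |v|)) ≤ |v| * Real.arctan (1 + 2 * |v|) :=
      mul_le_mul_of_nonneg_left h1 (abs_nonneg _)
    rcases le_total 0 v with hv | hv
    · refine ⟨1 + 2 * |v|, abs_of_pos hx, ?_⟩
      rw [abs_of_nonneg hv] at *
      nlinarith
    · refine ⟨-(1 + 2 * |v|), by rw [abs_neg, abs_of_pos hx], ?_⟩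
      rw [Real.arctan_neg]
      rw [abs_of_nonpos hv] at *
      nlinarith
  refine ⟨σ, ?_, hσ2⟩
  rw [Real.sqrt_le_left (by positivity), ← sq_abs σ, hσ1]
  nlinarith [abs_nonneg v]

lemma sinh_bd (y : ℝ) : |Real.sinh y| ≤ |y| * Real.exp |y| := by
  rw [Real.abs_sinh, Real.sinh_eq]
  obtain ⟨x, hx⟩ : ∃ x, x = |y| := ⟨_, rfl⟩
  have hx0 : 0 ≤ x := by rw [hx]; exact abs_nonneg _
  rw [← hx]
  have h1 : 1 - 2 * x ≤ Real.exp (-(2 * x)) := by
    have := Real.add_one_le_exp (-(2 * x))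
    linarith
  have h2 : Real.exp (-x) = Real.exp x * Real.exp (-(2 * x)) := by
    rw [← Real.exp_add]
    congr 1
    ring
  have h3 := Real.exp_pos x
  rw [h2]
  nlinarith

lemma inv_Gamma_one (v : ℝ) : ‖Gamma (1 + v * I)‖⁻¹ ≤ Real.exp (Real.pi * |v| / 2) := by
  by_cases hv : v = 0
  · rw [hv]
    simp
  have hπ := Real.pi_pos
  have hvI : (v * I : ℂ) ≠ 0 := mul_ne_zero (by exact_mod_cast hv) I_ne_zero
  have h1 := Complex.Gamma_mul_Gamma_one_sub (v * I)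
  have h2 := Complex.Gamma_add_one (v * I) hvI
  have h3 : Gamma (1 - v * I) = (starRingEnd ℂ) (Gamma (1 + v * I)) := by
    rw [← Complex.Gamma_conj]
    congr 1
    simp [sub_eq_add_neg]
  have h4 : ‖Gamma (1 - v * I)‖ = ‖Gamma (1 + v * I)‖ := by
    rw [h3, RCLike.norm_conj]
  have h5 : ‖Gamma (1 + v * I)‖ ^ 2 = |v| * (Real.pi / ‖Complex.sin (Real.pi * (v * I))‖) := by
    have h6 := congrArg norm h1
    rw [norm_mul, norm_div, h4, Complex.norm_real, Real.norm_of_nonneg hπ.le] at h6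
    have h7 : ‖Gamma (1 + v * I)‖ = |v| * ‖Gamma (v * I)‖ := by
      rw [add_comm, h2, norm_mul, norm_mul, Complex.norm_I, mul_one, Complex.norm_real, Real.norm_eq_abs]
    rw [← h6, sq]
    nth_rewrite 1 [h7]
    ring
  have h6 : ‖Complex.sin (Real.pi * (v * I))‖ = |Real.sinh (Real.pi * v)| := by
    rw [← mul_assoc, ← Complex.ofReal_mul, Complex.sin_mul_I, norm_mul, Complex.norm_I, mul_one,
      ← Complex.ofReal_sinh, Complex.norm_real, Real.norm_eq_abs]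
  have h7 := sinh_bd (Real.pi * v)
  rw [abs_mul, abs_of_pos hπ] at h7
  have hv0 : 0 < |v| := abs_pos.2 hv
  have h8 : 0 < |Real.sinh (Real.pi * v)| := by
    rw [abs_pos, Ne, Real.sinh_eq_zero]
    exact mul_ne_zero hπ.ne' hv
  have hG0 : 0 < ‖Gamma (1 + v * I)‖ := by
    rw [norm_pos_iff]
    exact Gamma_ne_zero_of_re_pos (by simp)
  rw [h6] at h5
  refine le_of_pow_le_pow_left₀ (n := 2) (by norm_num) (Real.exp_pos _).le ?_
  rw [inv_pow, h5, ← Real.exp_nat_mul, mul_inv, inv_div]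
  have e1 : ((2 : ℕ) : ℝ) * (Real.pi * |v| / 2) = Real.pi * |v| := by push_cast; ring
  rw [e1, ← mul_div_assoc, div_le_iff₀ hπ]
  calc |v|⁻¹ * |Real.sinh (Real.pi * v)| ≤ |v|⁻¹ * (Real.pi * |v| * Real.exp (Real.pi * |v|)) :=
        mul_le_mul_of_nonneg_left h7 (by positivity)
    _ = _ := by field_simp

lemma arp_one : ∃ C, 0 < C ∧ ArP 1 C := by
  refine ⟨Real.exp (1 / 2), Real.exp_pos _, fun v => ?_⟩
  obtain ⟨σ, h1, h2⟩ := exists_sig v
  refine ⟨σ, h1, ?_⟩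
  obtain ⟨z, hz⟩ : ∃ z : ℂ, z = ((1 : ℝ) : ℂ) + v * I := ⟨_, rfl⟩
  have hzre : z.re = 1 := by rw [hz]; simp
  have hzim : z.im = v := by rw [hz]; simp
  rw [← hz, norm_cpow_one_add, hzre, hzim, Real.rpow_one]
  have h3 := inv_Gamma_one v
  have h4 : (1 + v * I : ℂ) = z := by rw [hz]; simp
  rw [h4] at h3
  have hr := Real.sqrt_nonneg (1 + σ ^ 2)
  calc Real.sqrt (1 + σ ^ 2) * Real.exp (-(Real.arctan σ * v)) * ‖Gamma z‖⁻¹ ≤
        Real.sqrt (1 + σ ^ 2) * Real.exp (-(Real.arctan σ * v)) * Real.exp (Real.pi * |v| / 2) := by gcongr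
    _ = Real.sqrt (1 + σ ^ 2) * Real.exp (-(Real.arctan σ * v) + Real.pi * |v| / 2) := by
        rw [Real.exp_add]; ring
    _ ≤ Real.sqrt (1 + σ ^ 2) * Real.exp (1 / 2) := by
        refine mul_le_mul_of_nonneg_left (Real.exp_le_exp.2 ?_) hr
        linarith
    _ = _ := mul_comm _ _

lemma arp_succ {a C : ℝ} (h0 : 0 < a) (hC : 0 < C) (h : ArP a C) :
    ∃ C', 0 < C' ∧ ArP (a + 1) C' := by
  refine ⟨C * (2 / a + 2), by positivity, fun v => ?_⟩
  obtain ⟨σ, h1, h2⟩ := h v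
  refine ⟨σ, h1, ?_⟩
  obtain ⟨z, hz⟩ : ∃ z : ℂ, z = (a : ℂ) + v * I := ⟨_, rfl⟩
  have hzre : z.re = a := by rw [hz]; simp
  have hzim : z.im = v := by rw [hz]; simp
  have hz0 : z ≠ 0 := by
    intro h
    rw [h, zero_re] at hzre
    exact h0.ne hzre
  have e1 : ((a + 1 : ℝ) : ℂ) + v * I = z + 1 := by
    rw [hz]
    push_cast
    ring
  have hne : (1 + σ * I : ℂ) ≠ 0 := by
    intro h
    have := congrArg Complex.re h
    simp at this
  have hn : ‖(1 + σ * I : ℂ)‖ = Real.sqrt (1 + σ ^ 2) := by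
    rw [Complex.norm_def, Complex.normSq_apply]
    congr 1
    simp
    ring
  rw [← hz] at h2
  rw [e1, Complex.cpow_add _ _ hne, Complex.cpow_one, Complex.Gamma_add_one z hz0, norm_mul, norm_mul, mul_inv, hn]
  have hr := Real.sqrt_nonneg (1 + σ ^ 2)
  have hzn : 0 < ‖z‖ := norm_pos_iff.2 hz0
  have h3 : Real.sqrt (1 + σ ^ 2) * ‖z‖⁻¹ ≤ 2 / a + 2 := by
    rw [← div_eq_mul_inv, div_le_iff₀ hzn]
    have h4 : a ≤ ‖z‖ := by
      have := Complex.abs_re_le_norm z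
      rw [hzre, abs_of_pos h0] at this
      exact this
    have h5 : |v| ≤ ‖z‖ := by
      have := Complex.abs_im_le_norm z
      rw [hzim] at this
      exact this
    have h6 : 2 ≤ 2 / a * ‖z‖ := by
      rw [div_mul_eq_mul_div, le_div_iff₀ h0]
      linarith
    linarith
  calc ‖(1 + σ * I : ℂ) ^ z‖ * Real.sqrt (1 + σ ^ 2) * (‖z‖⁻¹ * ‖Gamma z‖⁻¹) =
        (‖(1 + σ * I : ℂ) ^ z‖ * ‖Gamma z‖⁻¹) * (Real.sqrt (1 + σ ^ 2) * ‖z‖⁻¹) := by ring
    _ ≤ (C * Real.sqrt (1 + σ ^ 2)) * (2 / a + 2) := by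
        refine mul_le_mul h2 h3 (by positivity) (by positivity)
    _ = _ := by ring

/-- **the archimedean factor** for all exponents -/
theorem arp_all {a : ℝ} (h0 : 0 < a) : ∃ C, 0 < C ∧ ArP a C := by
  have key : ∀ n : ℕ, ∀ a : ℝ, 0 < a → a ≤ n + 1 → ∃ C, 0 < C ∧ ArP a C := by
    intro n
    induction n with
    | zero =>
      intro a h0 h1
      rw [Nat.cast_zero, zero_add] at h1
      rcases h1.lt_or_eq with h | h
      · exact arp_lt h0 h
      · rw [h]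
        exact arp_one
    | succ n ih =>
      intro a h0 h1
      rcases lt_trichotomy a 1 with h | h | h
      · exact arp_lt h0 h
      · rw [h]
        exact arp_one
      · push_cast at h1
        obtain ⟨C, hC, hA⟩ := ih (a - 1) (by linarith) (by linarith)
        have := arp_succ (by linarith : (0 : ℝ) < a - 1) hC hA
        rw [sub_add_cancel] at this
        exact this
  obtain ⟨n, hn⟩ := exists_nat_gt a
  exact key n a h0 (by linarith)

/-- the constant -/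
noncomputable def Ca (a : ℝ) : ℝ := if h : 0 < a then Classical.choose (arp_all h) else 1

lemma Ca_pos (a : ℝ) : 0 < Ca a := by
  unfold Ca
  split_ifs with h
  · exact (Classical.choose_spec (arp_all h)).1
  · exact one_pos

lemma Ca_arp {a : ℝ} (h : 0 < a) : ArP a (Ca a) := by
  unfold Ca
  rw [dif_pos h]
  exact (Classical.choose_spec (arp_all h)).2

end Run7.h343.NG
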