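import Pool.Agent.Run7.h343.NF.Ch

/-!
Hecke characters: the part at an unramified prime ideal of degree one.
-/

set_option autoImplicit false
set_option linter.unusedSectionVars false

open NumberField Finset Complex

namespace Run7.h343.NG

open Run7.h343.NF

attribute [local instance] decEm

variable {K : Type} [Field K] [NumberField K]

/-- the angular part of the archimedean factor -/
noncomputable def an (κ : InfinitePlace K → ℤ) (x : K) : ℂ :=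
  ∏ w : InfinitePlace K, (w.embedding x / ((w x : ℝ) : ℂ)) ^ (κ w)

/-- the archimedean factor -/
noncomputable def ap (κ : InfinitePlace K → ℤ) (τ : InfinitePlace K → ℝ) (x : K) : ℂ := kp τ x * an κ x

/-- a unitary Hecke character modulo `𝔪 𝔭 ^ ν`, with exact exponent `ν` at `𝔭`, of type `κ`, `τ` -/
structure HK (𝔪 𝔭 : Ideal (𝓞 K)) (ν : ℕ) (κ : InfinitePlace K → ℤ) (τ : InfinitePlace K → ℝ)
    (ψ : Ideal (𝓞 K) →*₀ ℂ) : Prop where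
  norm_one : ∀ 𝔞 : Ideal (𝓞 K), 𝔞 ⊔ 𝔪 = ⊤ → ¬ 𝔞 ≤ 𝔭 → ‖ψ 𝔞‖ = 1
  zero : ∀ 𝔞 : Ideal (𝓞 K), 𝔞 ≤ 𝔭 → ψ 𝔞 = 0
  zero' : ∀ 𝔞 : Ideal (𝓞 K), 𝔞 ⊔ 𝔪 ≠ ⊤ → ψ 𝔞 = 0
  prin : ∀ x : 𝓞 K, x ≠ 0 → x - 1 ∈ 𝔪 * 𝔭 ^ ν → ψ (Ideal.span {x}) = ap κ τ (x : K)
  exact : ∃ x : 𝓞 K, x ∉ 𝔭 ∧ x - 1 ∈ 𝔪 * 𝔭 ^ (ν - 1) ∧ ψ (Ideal.span {x}) ≠ ap κ τ (x : K)

lemma an_mul (κ : InfinitePlace K → ℤ) (x y : K) : an κ (x * y) = an κ x * an κ y := by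
  unfold an
  rw [← prod_mul_distrib]
  refine prod_congr rfl fun w _ => ?_
  rw [← mul_zpow]
  congr 1
  rw [map_mul, map_mul, ofReal_mul, mul_div_mul_comm]

lemma an_norm (κ : InfinitePlace K → ℤ) {x : K} (hx : x ≠ 0) : ‖an κ x‖ = 1 := by
  unfold an
  rw [norm_prod]
  refine prod_eq_one fun w _ => ?_
  have h1 : (0 : ℝ) < w x := by rw [InfinitePlace.pos_iff]; exact hx
  rw [norm_zpow, norm_div, InfinitePlace.norm_embedding_eq, Complex.norm_real, Real.norm_of_nonneg h1.le,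
    div_self h1.ne', one_zpow]

lemma ap_mul (κ : InfinitePlace K → ℤ) (τ : InfinitePlace K → ℝ) (x y : K) : ap κ τ (x * y) = ap κ τ x * ap κ τ y := by
  unfold ap
  rw [kp_mul, an_mul]
  ring

lemma ap_norm (κ : InfinitePlace K → ℤ) (τ : InfinitePlace K → ℝ) {x : K} (hx : x ≠ 0) : ‖ap κ τ x‖ = 1 := by
  unfold ap
  rw [norm_mul, kp_norm τ hx, an_norm κ hx, one_mul]

lemma ap_ne (κ : InfinitePlace K → ℤ) (τ : InfinitePlace K → ℝ) {x : K} (hx : x ≠ 0) : ap κ τ x ≠ 0 := by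
  intro h
  have := ap_norm κ τ hx
  rw [h, norm_zero] at this
  exact zero_ne_one this

/-- the finite part -/
noncomputable def Xf (κ : InfinitePlace K → ℤ) (τ : InfinitePlace K → ℝ) (ψ : Ideal (𝓞 K) →*₀ ℂ) (x : 𝓞 K) : ℂ :=
  ψ (Ideal.span {x}) * (ap κ τ (x : K))⁻¹

variable {p : ℕ} {𝔪 𝔭 : Ideal (𝓞 K)} {ν : ℕ} {κ : InfinitePlace K → ℤ} {τ : InfinitePlace K → ℝ}
  {ψ : Ideal (𝓞 K) →*₀ ℂ}

lemma Xf_mul (x y : 𝓞 K) : Xf κ τ ψ (x * y) = Xf κ τ ψ x * Xf κ τ ψ y := by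
  unfold Xf
  have e1 : (((x * y : 𝓞 K)) : K) = (x : K) * (y : K) := map_mul _ _ _
  rw [← Ideal.span_singleton_mul_span_singleton, map_mul, e1, ap_mul, mul_inv]
  ring

lemma Xf_z : Xf κ τ ψ 0 = 0 := by
  unfold Xf
  have : Ideal.span {(0 : 𝓞 K)} = ⊥ := by simp
  rw [this]
  have h : ψ (⊥ : Ideal (𝓞 K)) = 0 := map_zero ψ
  rw [h, zero_mul]

lemma HK.norm_le (h : HK 𝔪 𝔭 ν κ τ ψ) (𝔞 : Ideal (𝓞 K)) : ‖ψ 𝔞‖ ≤ 1 := by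
  by_cases h1 : 𝔞 ≤ 𝔭
  · rw [h.zero _ h1, norm_zero]
    exact zero_le_one
  · by_cases h2 : 𝔞 ⊔ 𝔪 = ⊤
    · exact (h.norm_one _ h2 h1).le
    · rw [h.zero' _ h2, norm_zero]
      exact zero_le_one

lemma HK.Xf_zero (h : HK 𝔪 𝔭 ν κ τ ψ) {x : 𝓞 K} (hx : x ∈ 𝔭) : Xf κ τ ψ x = 0 := by
  unfold Xf
  rw [h.zero _ ((Ideal.span_singleton_le_iff_mem _).2 hx), zero_mul]

lemma HK.Xf_zero' (h : HK 𝔪 𝔭 ν κ τ ψ) {x : 𝓞 K} (hx : Ideal.span {x} ⊔ 𝔪 ≠ ⊤) : Xf κ τ ψ x = 0 := by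
  unfold Xf
  rw [h.zero' _ hx, zero_mul]

lemma HK.Xf_le (h : HK 𝔪 𝔭 ν κ τ ψ) (x : 𝓞 K) : ‖Xf κ τ ψ x‖ ≤ 1 := by
  by_cases hx : x = 0
  · rw [hx, Xf_z, norm_zero]
    exact zero_le_one
  · unfold Xf
    rw [norm_mul, norm_inv, ap_norm κ τ (by exact_mod_cast hx), inv_one, mul_one]
    exact h.norm_le _

lemma HK.Xf_norm (h : HK 𝔪 𝔭 ν κ τ ψ) {x : 𝓞 K} (hx : x ∉ 𝔭) (hx2 : Ideal.span {x} ⊔ 𝔪 = ⊤) : ‖Xf κ τ ψ x‖ = 1 := by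
  have hx0 : (x : K) ≠ 0 := by
    intro h0
    have : x = 0 := by exact_mod_cast h0
    rw [this] at hx
    exact hx 𝔭.zero_mem
  unfold Xf
  rw [norm_mul, norm_inv, ap_norm κ τ hx0, h.norm_one _ hx2 (fun h1 => hx ((Ideal.span_singleton_le_iff_mem _).1 h1))]
  norm_num

lemma HK.Xf_one (h : HK 𝔪 𝔭 ν κ τ ψ) {x : 𝓞 K} (hx0 : x ≠ 0) (hx : x - 1 ∈ 𝔪 * 𝔭 ^ ν) : Xf κ τ ψ x = 1 := by
  unfold Xf
  rw [h.prin x hx0 hx]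
  exact mul_inv_cancel₀ (ap_ne κ τ (by exact_mod_cast hx0))

lemma sup_congr {I : Ideal (𝓞 K)} {x y : 𝓞 K} (hxy : x - y ∈ I) : Ideal.span {x} ⊔ I = Ideal.span {y} ⊔ I := by
  have key : ∀ a b : 𝓞 K, a - b ∈ I → Ideal.span {a} ⊔ I ≤ Ideal.span {b} ⊔ I := by
    intro a b hab
    refine sup_le ?_ le_sup_right
    rw [Ideal.span_singleton_le_iff_mem]
    have : a = b + (a - b) := by ring
    rw [this]
    exact Ideal.add_mem _ (Ideal.mem_sup_left (Ideal.mem_span_singleton_self b)) (Ideal.mem_sup_right hab)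
  refine le_antisymm (key x y hxy) (key y x ?_)
  have : y - x = -(x - y) := by ring
  rw [this]
  exact I.neg_mem hxy

/-- the finite part depends on the residue only -/
lemma HK.Xf_congr (h : HK 𝔪 𝔭 ν κ τ ψ) (hP : P1 p 𝔭) (hν : 1 ≤ ν) {x y : 𝓞 K} (hxy : x - y ∈ 𝔪 * 𝔭 ^ ν) :
    Xf κ τ ψ x = Xf κ τ ψ y := by
  have hle : 𝔭 ^ ν ≤ 𝔭 := Ideal.pow_le_self (by omega)
  have hn1 : 𝔪 * 𝔭 ^ ν ≤ 𝔪 := Ideal.mul_le_left
  have hn2 : 𝔪 * 𝔭 ^ ν ≤ 𝔭 ^ ν := Ideal.mul_le_right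
  by_cases hx : x ∈ 𝔭
  · have hy : y ∈ 𝔭 := by
      have := 𝔭.sub_mem hx (hle (hn2 hxy))
      rwa [sub_sub_cancel] at this
    rw [h.Xf_zero hx, h.Xf_zero hy]
  have hsup := sup_congr (hn1 hxy)
  by_cases hxm : Ideal.span {x} ⊔ 𝔪 = ⊤
  swap
  · rw [h.Xf_zero' hxm, h.Xf_zero' (by rwa [← hsup])]
  -- an inverse of `x`
  have hcop : Ideal.span {x} ⊔ 𝔪 * 𝔭 ^ ν = ⊤ := by
    have h1 : IsCoprime (Ideal.span {x}) 𝔪 := by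
      rw [Ideal.isCoprime_iff_sup_eq]
      exact hxm
    have h2 : IsCoprime (Ideal.span {x}) 𝔭 := by
      rw [Ideal.isCoprime_iff_sup_eq, Ideal.eq_top_iff_one]
      obtain ⟨z, i, hi, hz⟩ := hP.isMax.exists_inv hx
      rw [← hz]
      exact Ideal.add_mem _ (Ideal.mem_sup_left (Ideal.mul_mem_left _ _ (Ideal.mem_span_singleton_self x)))
        (Ideal.mem_sup_right hi)
    rw [← Ideal.isCoprime_iff_sup_eq]
    exact h1.mul_right h2.pow_right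
  obtain ⟨a, ha, b, hb, hab⟩ := Submodule.mem_sup.1 ((Ideal.eq_top_iff_one _).1 hcop)
  obtain ⟨v, rfl⟩ := Ideal.mem_span_singleton'.1 ha
  have h1x : v * x - 1 ∈ 𝔪 * 𝔭 ^ ν := by
    have e1 : v * x - 1 = -b := by linear_combination hab
    rw [e1]
    exact Ideal.neg_mem_iff _ |>.2 hb
  have h1y : v * y - 1 ∈ 𝔪 * 𝔭 ^ ν := by
    have e1 : v * y - 1 = (v * x - 1) - v * (x - y) := by ring
    rw [e1]
    exact Ideal.sub_mem _ h1x (Ideal.mul_mem_left _ _ hxy)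
  have hne : ∀ z : 𝓞 K, z - 1 ∈ 𝔪 * 𝔭 ^ ν → z ≠ 0 := by
    intro z hz h0
    rw [h0, zero_sub] at hz
    apply hP.isPrime.ne_top
    rw [Ideal.eq_top_iff_one]
    have := hle (hn2 hz)
    rwa [neg_mem_iff] at this
  have ex := h.Xf_one (hne _ h1x) h1x
  have ey := h.Xf_one (hne _ h1y) h1y
  rw [Xf_mul] at ex ey
  have hv0 : Xf κ τ ψ v ≠ 0 := by
    intro h0
    rw [h0, zero_mul] at ex
    exact zero_ne_one ex
  exact mul_left_cancel₀ hv0 (ex.trans ey.symm)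

/-- the idempotent -/
structure Idm (𝔪 𝔭 : Ideal (𝓞 K)) (ν : ℕ) (e : 𝓞 K) : Prop where
  mem : e ∈ 𝔭 ^ ν
  one : 1 - e ∈ 𝔪

lemma exists_idm (hP : P1 p 𝔭) (hm : ¬ 𝔪 ≤ 𝔭) (ν : ℕ) : ∃ e : 𝓞 K, Idm 𝔪 𝔭 ν e := by
  obtain ⟨x, hxm, hxp⟩ := Set.not_subset.1 hm
  have h2 : IsCoprime 𝔪 (𝔭 ^ ν) := by
    apply IsCoprime.pow_right
    rw [Ideal.isCoprime_iff_sup_eq, Ideal.eq_top_iff_one]
    obtain ⟨z, i, hi, hz⟩ := hP.isMax.exists_inv (x := x) hxp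
    rw [← hz]
    exact Ideal.add_mem _ (Ideal.mem_sup_left (Ideal.mul_mem_left _ _ hxm)) (Ideal.mem_sup_right hi)
  rw [Ideal.isCoprime_iff_sup_eq] at h2
  obtain ⟨a, ha, b, hb, hab⟩ := Submodule.mem_sup.1 ((Ideal.eq_top_iff_one _).1 h2)
  refine ⟨b, hb, ?_⟩
  have : 1 - b = a := by linear_combination -hab
  rw [this]
  exact ha

/-- the part prime to `𝔭` -/
noncomputable def Xm (κ : InfinitePlace K → ℤ) (τ : InfinitePlace K → ℝ) (ψ : Ideal (𝓞 K) →*₀ ℂ) (e x : 𝓞 K) : ℂ :=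
  Xf κ τ ψ (x * e + (1 - e))

/-- the part at `𝔭` -/
noncomputable def Xp (κ : InfinitePlace K → ℤ) (τ : InfinitePlace K → ℝ) (ψ : Ideal (𝓞 K) →*₀ ℂ) (e x : 𝓞 K) : ℂ :=
  Xf κ τ ψ (x * (1 - e) + e)

variable {e : 𝓞 K}

lemma Idm.u (he : Idm 𝔪 𝔭 ν e) : e * (1 - e) ∈ 𝔪 * 𝔭 ^ ν := by
  rw [mul_comm e (1 - e)]
  exact Ideal.mul_mem_mul he.one he.mem

lemma HK.Xm_Xp (h : HK 𝔪 𝔭 ν κ τ ψ) (hP : P1 p 𝔭) (hν : 1 ≤ ν) (he : Idm 𝔪 𝔭 ν e) (x : 𝓞 K) :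
    Xf κ τ ψ x = Xm κ τ ψ e x * Xp κ τ ψ e x := by
  unfold Xm Xp
  rw [← Xf_mul]
  refine (h.Xf_congr hP hν ?_).symm
  have e1 : (x * e + (1 - e)) * (x * (1 - e) + e) - x = (x - 1) ^ 2 * (e * (1 - e)) := by ring
  rw [e1]
  exact Ideal.mul_mem_left _ _ he.u

lemma HK.Xp_mul (h : HK 𝔪 𝔭 ν κ τ ψ) (hP : P1 p 𝔭) (hν : 1 ≤ ν) (he : Idm 𝔪 𝔭 ν e) (x y : 𝓞 K) :
    Xp κ τ ψ e (x * y) = Xp κ τ ψ e x * Xp κ τ ψ e y := by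
  unfold Xp
  rw [← Xf_mul]
  refine h.Xf_congr hP hν ?_
  have e1 : x * y * (1 - e) + e - (x * (1 - e) + e) * (y * (1 - e) + e) =
      (x * y - x - y + 1) * (e * (1 - e)) := by ring
  rw [e1]
  exact Ideal.mul_mem_left _ _ he.u

lemma HK.Xp_congr (h : HK 𝔪 𝔭 ν κ τ ψ) (hP : P1 p 𝔭) (hν : 1 ≤ ν) (he : Idm 𝔪 𝔭 ν e) {x y : 𝓞 K}
    (hxy : x - y ∈ 𝔭 ^ ν) : Xp κ τ ψ e x = Xp κ τ ψ e y := by
  unfold Xp
  refine h.Xf_congr hP hν ?_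
  have e1 : x * (1 - e) + e - (y * (1 - e) + e) = (1 - e) * (x - y) := by ring
  rw [e1]
  exact Ideal.mul_mem_mul he.one hxy

lemma HK.Xm_congr (h : HK 𝔪 𝔭 ν κ τ ψ) (hP : P1 p 𝔭) (hν : 1 ≤ ν) (he : Idm 𝔪 𝔭 ν e) {x y : 𝓞 K}
    (hxy : x - y ∈ 𝔪) : Xm κ τ ψ e x = Xm κ τ ψ e y := by
  unfold Xm
  refine h.Xf_congr hP hν ?_
  have e1 : x * e + (1 - e) - (y * e + (1 - e)) = (x - y) * e := by ring
  rw [e1]
  exact Ideal.mul_mem_mul hxy he.mem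

lemma HK.Xp_zero (h : HK 𝔪 𝔭 ν κ τ ψ) (hν : 1 ≤ ν) (he : Idm 𝔪 𝔭 ν e) {x : 𝓞 K} (hx : x ∈ 𝔭) : Xp κ τ ψ e x = 0 := by
  unfold Xp
  refine h.Xf_zero ?_
  have hle : 𝔭 ^ ν ≤ 𝔭 := Ideal.pow_le_self (by omega)
  exact 𝔭.add_mem (𝔭.mul_mem_right _ hx) (hle he.mem)

lemma HK.Xp_norm (h : HK 𝔪 𝔭 ν κ τ ψ) (hν : 1 ≤ ν) (he : Idm 𝔪 𝔭 ν e) {x : 𝓞 K} (hx : x ∉ 𝔭) :
    ‖Xp κ τ ψ e x‖ = 1 := by
  have hle : 𝔭 ^ ν ≤ 𝔭 := Ideal.pow_le_self (by omega)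
  unfold Xp
  refine h.Xf_norm ?_ ?_
  · intro h1
    apply hx
    have e1 : x = (x * (1 - e) + e) + (x - 1) * e := by ring
    rw [e1]
    exact 𝔭.add_mem h1 (𝔭.mul_mem_left _ (hle he.mem))
  · have h1 : x * (1 - e) + e - 1 ∈ 𝔪 := by
      have e1 : x * (1 - e) + e - 1 = (x - 1) * (1 - e) := by ring
      rw [e1]
      exact 𝔪.mul_mem_left _ he.one
    rw [sup_congr h1, Ideal.span_singleton_one, top_sup_eq]

lemma HK.Xp_one (h : HK 𝔪 𝔭 ν κ τ ψ) : Xp κ τ ψ e 1 = 1 := by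
  unfold Xp
  have e1 : (1 : 𝓞 K) * (1 - e) + e = 1 := by ring
  rw [e1]
  exact h.Xf_one one_ne_zero (by simp)

lemma HK.Xm_le (h : HK 𝔪 𝔭 ν κ τ ψ) (x : 𝓞 K) : ‖Xm κ τ ψ e x‖ ≤ 1 := h.Xf_le _

lemma HK.Xp_int (h : HK 𝔪 𝔭 ν κ τ ψ) (hP : P1 p 𝔭) (hν : 1 ≤ ν) (he : Idm 𝔪 𝔭 ν e) {m n : ℤ}
    (hmn : (p : ℤ) ^ ν ∣ m - n) : Xp κ τ ψ e (m : 𝓞 K) = Xp κ τ ψ e (n : 𝓞 K) := by
  refine h.Xp_congr hP hν he ?_
  rw [int_sub, hP.int_mem_pow]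
  exact hmn

/-- **the Dirichlet character** -/
theorem HK.exists_chi (h : HK 𝔪 𝔭 ν κ τ ψ) (hP : P1 p 𝔭) (hν : 1 ≤ ν) (he : Idm 𝔪 𝔭 ν e) :
    ∃ χ : DirichletCharacter ℂ (p ^ ν), χ.IsPrimitive ∧ ∀ n : ℤ, χ (n : ZMod (p ^ ν)) = Xp κ τ ψ e (n : 𝓞 K) := by
  haveI : NeZero (p ^ ν) := ⟨pow_ne_zero _ hP.hp.ne_zero⟩
  have hval : ∀ a : ZMod (p ^ ν), ∀ n : ℤ, (n : ZMod (p ^ ν)) = a →
      Xp κ τ ψ e (n : 𝓞 K) = Xp κ τ ψ e ((a.val : ℤ) : 𝓞 K) := by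
    intro a n hn
    refine h.Xp_int hP hν he ?_
    have h1 : (((a.val : ℤ)) : ZMod (p ^ ν)) = (n : ZMod (p ^ ν)) := by rw [hn]; simp
    rw [ZMod.intCast_eq_intCast_iff] at h1
    have h2 := Int.modEq_iff_dvd.1 h1
    exact_mod_cast h2
  have hone : Xp κ τ ψ e (1 : 𝓞 K) = 1 := h.Xp_one
  obtain ⟨χ, hχ⟩ : ∃ χ : DirichletCharacter ℂ (p ^ ν), ∀ a, χ a = Xp κ τ ψ e ((a.val : ℤ) : 𝓞 K) := by
    refine ⟨{ toFun := fun a => Xp κ τ ψ e ((a.val : ℤ) : 𝓞 K), map_one' := ?_, map_mul' := ?_, map_nonunit' := ?_ },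
      fun a => rfl⟩
    · rw [← hval 1 1 (by simp)]
      simpa using hone
    · intro a b
      rw [← h.Xp_mul hP hν he, ← hval (a * b) ((a.val : ℤ) * (b.val : ℤ)) (by simp)]
      congr 1
      push_cast
      rfl
    · intro a ha
      refine h.Xp_zero hν he ?_
      rw [hP.int_mem]
      by_contra hd
      apply ha
      have h1 : Nat.Coprime a.val (p ^ ν) := by
        apply Nat.Coprime.pow_right
        rw [Nat.coprime_comm, Nat.Prime.coprime_iff_not_dvd hP.hp]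
        exact_mod_cast hd
      have h2 := (ZMod.isUnit_iff_coprime a.val (p ^ ν)).2 h1
      simpa using h2
  have hχn : ∀ n : ℤ, χ (n : ZMod (p ^ ν)) = Xp κ τ ψ e (n : 𝓞 K) := fun n => by
    rw [hχ, hval _ n rfl]
  refine ⟨χ, ?_, hχn⟩
  obtain ⟨x, hxp, hx1, hxψ⟩ := h.exact
  obtain ⟨n, hn⟩ := hP.exists_int ν x
  have hm1 : 𝔪 * 𝔭 ^ (ν - 1) ≤ 𝔪 := Ideal.mul_le_left
  have hm2 : 𝔪 * 𝔭 ^ (ν - 1) ≤ 𝔭 ^ (ν - 1) := Ideal.mul_le_right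
  have hXx : Xp κ τ ψ e x = Xf κ τ ψ x := by
    unfold Xp
    refine h.Xf_congr hP hν ?_
    have e1 : x * (1 - e) + e - x = -((x - 1) * e) := by ring
    rw [e1, Ideal.neg_mem_iff]
    exact Ideal.mul_mem_mul (hm1 hx1) he.mem
  have hXn : Xp κ τ ψ e (n : 𝓞 K) ≠ 1 := by
    rw [← h.Xp_congr hP hν he hn, hXx]
    intro h1
    apply hxψ
    unfold Xf at h1
    have hx0 : (x : K) ≠ 0 := by
      intro h0
      have : x = 0 := by exact_mod_cast h0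
      rw [this] at hxp
      exact hxp 𝔭.zero_mem
    exact (mul_inv_eq_one₀ (ap_ne κ τ hx0)).1 h1
  have hle : 𝔭 ^ ν ≤ 𝔭 := Ideal.pow_le_self (by omega)
  have hle' : 𝔭 ^ ν ≤ 𝔭 ^ (ν - 1) := Ideal.pow_le_pow_right (Nat.sub_le _ _)
  have hnp : ¬ (p : ℤ) ∣ n := by
    rw [← hP.int_mem]
    intro h1
    apply hxp
    have h2 := 𝔭.add_mem (hle hn) h1
    rwa [sub_add_cancel] at h2
  have hn1 : (p : ℤ) ^ (ν - 1) ∣ n - 1 := by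
    rw [← hP.int_mem_pow]
    have e1 : ((n - 1 : ℤ) : 𝓞 K) = (x - 1) - (x - (n : 𝓞 K)) := by push_cast; ring
    rw [e1]
    exact Ideal.sub_mem _ (hm2 hx1) (hle' hn)
  -- primitivity
  by_contra hcon
  unfold DirichletCharacter.IsPrimitive at hcon
  obtain ⟨j, hj, hcj⟩ := (Nat.dvd_prime_pow hP.hp).1 (DirichletCharacter.conductor_dvd_level χ)
  have hjν : j ≤ ν - 1 := by
    rcases Nat.lt_or_ge j ν with h1 | h1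
    · omega
    · exfalso
      apply hcon
      rw [hcj, le_antisymm hj h1]
  have hf := DirichletCharacter.factorsThrough_conductor χ
  obtain ⟨hd, χ', hχ'⟩ := hf
  apply hXn
  rw [← hχn]
  have hunit : IsUnit ((n : ZMod (p ^ ν))) := by
    have h1 : IsCoprime n ((p ^ ν : ℕ) : ℤ) := by
      push_cast
      apply IsCoprime.pow_right
      rw [isCoprime_comm]
      exact (Nat.prime_iff_prime_int.1 hP.hp).coprime_iff_not_dvd.2 hnp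
    exact (ZMod.coe_int_isUnit_iff_isCoprime n (p ^ ν)).2 h1.symm
  have e0 : χ (n : ZMod (p ^ ν)) = χ' ((n : ZMod (p ^ ν)).cast : ZMod χ.conductor) := by
    have := DirichletCharacter.changeLevel_eq_cast_of_dvd χ' hd hunit.unit
    rw [← hχ', IsUnit.unit_spec] at this
    exact this
  rw [e0]
  have e1 : ((n : ZMod (p ^ ν)).cast : ZMod χ.conductor) = 1 := by
    rw [ZMod.cast_intCast hd]
    have h1 : ((1 : ℤ) : ZMod χ.conductor) = (n : ZMod χ.conductor) := by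
      rw [ZMod.intCast_eq_intCast_iff]
      refine Int.modEq_iff_dvd.2 ?_
      rw [hcj]
      refine dvd_trans ?_ hn1
      exact_mod_cast pow_dvd_pow p hjν
    rw [← h1, Int.cast_one]
  rw [e1, map_one]

/-- the values on an adapted basis -/
theorem HK.Xp_el (h : HK 𝔪 𝔭 ν κ τ ψ) (hP : P1 p 𝔭) (hν : 1 ≤ ν) (he : Idm 𝔪 𝔭 ν e)
    {χ : DirichletCharacter ℂ (p ^ ν)}
    (hχ : ∀ n : ℤ, χ (n : ZMod (p ^ ν)) = Xp κ τ ψ e (n : 𝓞 K)) {o : K →+* ℂ} {C : Matrix (K →+* ℂ) (K →+* ℂ) ℤ}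
    (hC : ∀ i, i ≠ o → cl C i ∈ 𝔭 ^ ν) (x : (K →+* ℂ) → ℤ) :
    Xp κ τ ψ e (el0 (C.mulVec x)) = χ ((x o : ℤ) : ZMod (p ^ ν)) * Xp κ τ ψ e (cl C o) := by
  rw [hχ, ← h.Xp_mul hP hν he]
  refine h.Xp_congr hP hν he ?_
  rw [el0_mulVec, ← add_sum_erase _ _ (mem_univ o), add_sub_cancel_left]
  exact Ideal.sum_mem _ fun i hi => Ideal.mul_mem_left _ _ (hC i (ne_of_mem_erase hi))

end Run7.h343.NG
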