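import Mathlib

/-!
From exponential weights to polynomial weights.
-/

set_option autoImplicit false

namespace Run7.h343.NG

open Complex Finset Filter Topology

/-- one variable, finite sums -/
lemma coef_fin {β : Type} (S : Finset β) (c L : β → ℂ) (m : ℕ) {M : ℝ}
    (hM : ∀ b : ℂ, ‖b‖ = 1 → ‖∑ α ∈ S, c α * cexp (2 * Real.pi * b * L α)‖ ≤ M) :
    ‖∑ α ∈ S, c α * (L α) ^ m‖ ≤ m.factorial / (2 * Real.pi) ^ m * M := by
  obtain ⟨F, hF⟩ : ∃ F : β → ℂ → ℂ, F = fun α b => c α * cexp ((2 * Real.pi * L α) * b) := ⟨_, rfl⟩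
  have hFd : ∀ α, Differentiable ℂ (F α) := by
    intro α
    rw [hF]
    fun_prop
  have h1 : iteratedDeriv m (fun b => ∑ α ∈ S, F α b) 0 = ∑ α ∈ S, c α * (2 * Real.pi * L α) ^ m := by
    rw [iteratedDeriv_fun_sum (fun i _ => (hFd i).contDiff.contDiffAt)]
    refine sum_congr rfl fun α _ => ?_
    rw [hF]
    simp only
    rw [iteratedDeriv_const_mul_field, iteratedDeriv_cexp_const_mul]
    simp
  have h2 : ‖iteratedDeriv m (fun b => ∑ α ∈ S, F α b) 0‖ ≤ m.factorial * M / 1 ^ m := by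
    refine Complex.norm_iteratedDeriv_le_of_forall_mem_sphere_norm_le m one_pos ?_ fun b hb => ?_
    · exact (Differentiable.fun_sum fun i _ => hFd i).diffContOnCl
    · have hb1 : ‖b‖ = 1 := by simpa using hb
      refine le_trans (le_of_eq ?_) (hM b hb1)
      congr 1
      refine sum_congr rfl fun α _ => ?_
      rw [hF]
      simp only
      congr 2
      ring
  have h3 : ∑ α ∈ S, c α * (2 * Real.pi * L α) ^ m = (2 * Real.pi) ^ m * ∑ α ∈ S, c α * (L α) ^ m := by
    rw [mul_sum]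
    refine sum_congr rfl fun α _ => ?_
    rw [mul_pow]
    ring
  have hp : (0 : ℝ) < (2 * Real.pi) ^ m := by positivity
  rw [h1, h3, norm_mul, one_pow, div_one] at h2
  have h4 : ‖((2 * Real.pi : ℂ)) ^ m‖ = (2 * Real.pi) ^ m := by
    rw [norm_pow, norm_mul, Complex.norm_real, Real.norm_of_nonneg Real.pi_pos.le]
    norm_num
  rw [h4] at h2
  rw [div_mul_eq_mul_div, le_div_iff₀ hp, mul_comm]
  exact h2

lemma norm_exp_le (L b : ℂ) (hb : ‖b‖ ≤ 1) : ‖cexp (2 * Real.pi * b * L)‖ ≤ Real.exp (2 * Real.pi * ‖L‖) := by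
  rw [Complex.norm_exp]
  apply Real.exp_le_exp.2
  refine (Complex.re_le_norm _).trans ?_
  rw [norm_mul, norm_mul, norm_mul, Complex.norm_real, Real.norm_of_nonneg Real.pi_pos.le]
  have h2 : ‖(2 : ℂ)‖ = 2 := by norm_num
  rw [h2]
  have := Real.pi_pos
  calc 2 * Real.pi * ‖b‖ * ‖L‖ ≤ 2 * Real.pi * 1 * ‖L‖ := by gcongr
    _ = _ := by ring

lemma pow_le_exp (m : ℕ) {x : ℝ} (hx : 0 ≤ x) : x ^ m ≤ m.factorial * Real.exp x := by
  have h := Real.pow_div_factorial_le_exp x hx m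
  have hf : (0 : ℝ) < m.factorial := by exact_mod_cast Nat.factorial_pos _
  rw [div_le_iff₀ hf] at h
  linarith

/-- one variable -/
lemma coef_one {β : Type} (c L : β → ℂ) (m : ℕ) {M : ℝ}
    (hs : Summable fun α => ‖c α‖ * Real.exp ((2 * Real.pi + 1) * ‖L α‖))
    (hM : ∀ b : ℂ, ‖b‖ ≤ 1 → ‖∑' α, c α * cexp (2 * Real.pi * b * L α)‖ ≤ M) :
    ‖∑' α, c α * (L α) ^ m‖ ≤ m.factorial / (2 * Real.pi) ^ m * M := by
  classical
  have hs2 : Summable fun α => ‖c α‖ * Real.exp (2 * Real.pi * ‖L α‖) := by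
    refine Summable.of_nonneg_of_le (fun α => by positivity) (fun α => ?_) hs
    have : 2 * Real.pi * ‖L α‖ ≤ (2 * Real.pi + 1) * ‖L α‖ := by nlinarith [norm_nonneg (L α)]
    exact mul_le_mul_of_nonneg_left (Real.exp_le_exp.2 this) (norm_nonneg _)
  have hs3 : ∀ b : ℂ, ‖b‖ ≤ 1 → Summable fun α => c α * cexp (2 * Real.pi * b * L α) := by
    intro b hb
    refine Summable.of_norm_bounded hs2 fun α => ?_
    rw [norm_mul]
    exact mul_le_mul_of_nonneg_left (norm_exp_le _ _ hb) (norm_nonneg _)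
  have hs4 : Summable fun α => c α * (L α) ^ m := by
    refine Summable.of_norm_bounded (hs.mul_left (m.factorial : ℝ)) fun α => ?_
    rw [norm_mul, norm_pow]
    have h1 := pow_le_exp m (norm_nonneg (L α))
    have h2 : Real.exp ‖L α‖ ≤ Real.exp ((2 * Real.pi + 1) * ‖L α‖) := by
      apply Real.exp_le_exp.2
      have := Real.pi_pos
      nlinarith [norm_nonneg (L α)]
    calc ‖c α‖ * ‖L α‖ ^ m ≤ ‖c α‖ * (m.factorial * Real.exp ((2 * Real.pi + 1) * ‖L α‖)) := by
          refine mul_le_mul_of_nonneg_left (h1.trans ?_) (norm_nonneg _)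
          exact mul_le_mul_of_nonneg_left h2 (Nat.cast_nonneg _)
      _ = _ := by ring
  obtain ⟨g, hg⟩ : ∃ g : β → ℝ, g = fun α => ‖c α‖ * Real.exp (2 * Real.pi * ‖L α‖) := ⟨_, rfl⟩
  rw [← hg] at hs2
  have hg0 : ∀ α, 0 ≤ g α := fun α => by rw [hg]; positivity
  -- finite sums
  have hfin : ∀ S : Finset β, ‖∑ α ∈ S, c α * (L α) ^ m‖ ≤
      m.factorial / (2 * Real.pi) ^ m * (M + (∑' α, g α - ∑ α ∈ S, g α)) := by
    intro S
    refine coef_fin S c L m fun b hb => ?_
    have h1 := (hs3 b hb.le).sum_add_tsum_compl (s := S)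
    have h2 : ∑ α ∈ S, c α * cexp (2 * Real.pi * b * L α) = ∑' α, c α * cexp (2 * Real.pi * b * L α) -
        ∑' α : ((S : Set β)ᶜ : Set β), c α * cexp (2 * Real.pi * b * L α) := by
      rw [← h1]
      ring
    rw [h2]
    refine (norm_sub_le _ _).trans (add_le_add (hM b hb.le) ?_)
    have h3 := hs2.sum_add_tsum_compl (s := S)
    have h4 : ∑' α, g α - ∑ α ∈ S, g α = ∑' α : ((S : Set β)ᶜ : Set β), g α := by
      rw [← h3]
      ring
    rw [h4]
    refine tsum_of_norm_bounded (hs2.subtype _).hasSum fun α => ?_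
    rw [Function.comp_apply, norm_mul, hg]
    exact mul_le_mul_of_nonneg_left (norm_exp_le _ _ hb.le) (norm_nonneg _)
  have hlim1 : Tendsto (fun S : Finset β => ‖∑ α ∈ S, c α * (L α) ^ m‖) atTop (𝓝 ‖∑' α, c α * (L α) ^ m‖) :=
    hs4.hasSum.norm
  have hlim2 : Tendsto (fun S : Finset β => m.factorial / (2 * Real.pi) ^ m * (M + (∑' α, g α - ∑ α ∈ S, g α))) atTop
      (𝓝 (m.factorial / (2 * Real.pi) ^ m * (M + (∑' α, g α - ∑' α, g α)))) :=
    (((hs2.hasSum.const_sub _).const_add _).const_mul _)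
  have h := le_of_tendsto_of_tendsto' hlim1 hlim2 hfin
  rwa [sub_self, add_zero] at h

/-- several variables -/
theorem coef_bound {β J : Type} [DecidableEq J] (T : Finset J) (L : J → β → ℂ) (m : J → ℕ) : ∀ (c : β → ℂ) (M : ℝ),
    (Summable fun α => ‖c α‖ * Real.exp ((2 * Real.pi + 1) * ∑ j ∈ T, ‖L j α‖)) →
    (∀ b : J → ℂ, (∀ j, ‖b j‖ ≤ 1) → ‖∑' α, c α * cexp (2 * Real.pi * ∑ j ∈ T, b j * L j α)‖ ≤ M) →
    ‖∑' α, c α * ∏ j ∈ T, (L j α) ^ (m j)‖ ≤ (∏ j ∈ T, ((m j).factorial / (2 * Real.pi) ^ (m j) : ℝ)) * M := by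
  induction T using Finset.induction_on with
  | empty =>
    intro c M _ hM
    have := hM (fun _ => 0) (fun _ => by simp)
    simpa using this
  | insert j T hj ih =>
    intro c M hs hM
    have hπ := Real.pi_pos
    have e1 : ∀ α, c α * ∏ i ∈ insert j T, (L i α) ^ (m i) = (c α * (L j α) ^ (m j)) * ∏ i ∈ T, (L i α) ^ (m i) := by
      intro α
      rw [prod_insert hj]
      ring
    simp_rw [e1]
    have hs0 : ∀ α, (2 * Real.pi + 1) * ∑ i ∈ insert j T, ‖L i α‖ =
        (2 * Real.pi + 1) * ‖L j α‖ + (2 * Real.pi + 1) * ∑ i ∈ T, ‖L i α‖ := by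
      intro α
      rw [sum_insert hj]
      ring
    have hT0 : ∀ α, 0 ≤ ∑ i ∈ T, ‖L i α‖ := fun α => sum_nonneg fun i _ => norm_nonneg _
    have h1 := ih (fun α => c α * (L j α) ^ (m j)) ((m j).factorial / (2 * Real.pi) ^ (m j) * M) ?_ ?_
    · refine h1.trans (le_of_eq ?_)
      rw [prod_insert hj]
      ring
    · refine Summable.of_nonneg_of_le (fun α => by positivity) (fun α => ?_) (hs.mul_left ((m j).factorial : ℝ))
      rw [norm_mul, norm_pow, hs0, Real.exp_add]
      have h2 := pow_le_exp (m j) (norm_nonneg (L j α))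
      have h3 : Real.exp ‖L j α‖ ≤ Real.exp ((2 * Real.pi + 1) * ‖L j α‖) := by
        apply Real.exp_le_exp.2
        nlinarith [norm_nonneg (L j α)]
      have h4 : ‖L j α‖ ^ m j ≤ (m j).factorial * Real.exp ((2 * Real.pi + 1) * ‖L j α‖) :=
        h2.trans (mul_le_mul_of_nonneg_left h3 (Nat.cast_nonneg _))
      calc ‖c α‖ * ‖L j α‖ ^ m j * Real.exp ((2 * Real.pi + 1) * ∑ i ∈ T, ‖L i α‖) ≤
            ‖c α‖ * ((m j).factorial * Real.exp ((2 * Real.pi + 1) * ‖L j α‖)) *
              Real.exp ((2 * Real.pi + 1) * ∑ i ∈ T, ‖L i α‖) := by gcongr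
        _ = _ := by ring
    · intro b hb
      have e2 : ∀ α, c α * L j α ^ m j * cexp (2 * Real.pi * ∑ i ∈ T, b i * L i α) =
          (c α * cexp (2 * Real.pi * ∑ i ∈ T, b i * L i α)) * L j α ^ m j := by
        intro α; ring
      simp_rw [e2]
      refine coef_one _ (L j) (m j) ?_ fun b0 hb0 => ?_
      · refine Summable.of_nonneg_of_le (fun α => by positivity) (fun α => ?_) hs
        rw [norm_mul, hs0, Real.exp_add]
        have h5 : ‖cexp (2 * Real.pi * ∑ i ∈ T, b i * L i α)‖ ≤ Real.exp ((2 * Real.pi + 1) * ∑ i ∈ T, ‖L i α‖) := by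
          rw [Complex.norm_exp]
          apply Real.exp_le_exp.2
          refine (Complex.re_le_norm _).trans ?_
          rw [norm_mul, norm_mul, Complex.norm_real, Real.norm_of_nonneg hπ.le]
          have h6 : ‖(2 : ℂ)‖ = 2 := by norm_num
          have h7 : ‖∑ i ∈ T, b i * L i α‖ ≤ ∑ i ∈ T, ‖L i α‖ := by
            refine (norm_sum_le _ _).trans (sum_le_sum fun i _ => ?_)
            rw [norm_mul]
            exact mul_le_of_le_one_left (norm_nonneg _) (hb i)
          rw [h6]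
          have := mul_le_mul_of_nonneg_left h7 (by positivity : 0 ≤ 2 * Real.pi)
          have h8 := hT0 α
          nlinarith
        calc ‖c α‖ * ‖cexp (2 * Real.pi * ∑ i ∈ T, b i * L i α)‖ * Real.exp ((2 * Real.pi + 1) * ‖L j α‖) ≤
              ‖c α‖ * Real.exp ((2 * Real.pi + 1) * ∑ i ∈ T, ‖L i α‖) * Real.exp ((2 * Real.pi + 1) * ‖L j α‖) := by
              gcongr
          _ = _ := by ring
      · have h9 := hM (fun i => if i = j then b0 else b i) (fun i => by
          split_ifs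
          · exact hb0
          · exact hb i)
        refine le_trans (le_of_eq ?_) h9
        congr 1
        refine tsum_congr fun α => ?_
        rw [sum_insert hj, if_pos rfl]
        have e3 : ∑ i ∈ T, (if i = j then b0 else b i) * L i α = ∑ i ∈ T, b i * L i α := by
          refine sum_congr rfl fun i hi => ?_
          rw [if_neg]
          rintro rfl
          exact hj hi
        rw [e3, mul_assoc, ← Complex.exp_add]
        congr 2
        ring

end Run7.h343.NG
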