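import Pool.Agent.Run7.h343.NG.Off2
import Pool.Agent.Run7.h343.NF.Cos

/-!
Mean squares of shifted and twisted theta series over cosets of characters.
-/

set_option autoImplicit false
set_option linter.unusedSectionVars false

namespace Run7.h343.NG

open Complex Finset
open Pool.Agent.Y766.R3 (FF orth)
open Run7.h343.NF

variable {ι : Type} [Fintype ι] [DecidableEq ι]

/-- the complex Gaussian -/
noncomputable def gz (A : Matrix ι ι ℝ) (σ : ι → ℝ) (z : EuclideanSpace ℝ ι) (η : ι → ℝ) (α : ι → ℤ) : ℂ :=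
  cexp (∑ i, (-Real.pi * (1 + σ i * I) * ((em A α i - z i : ℝ) : ℂ) ^ 2 +
    2 * Real.pi * I * ((η i * em A α i : ℝ) : ℂ)))

/-- the theta series of a character -/
noncomputable def Th {q : ℕ} (χ : DirichletCharacter ℂ q) (o : ι) (A : Matrix ι ι ℝ) (σ : ι → ℝ)
    (z : EuclideanSpace ℝ ι) (η : ι → ℝ) : ℂ :=
  ∑' α : ι → ℤ, χ ((α o : ℤ) : ZMod q) * gz A σ z η α

lemma gz_norm (A : Matrix ι ι ℝ) (σ : ι → ℝ) (z : EuclideanSpace ℝ ι) (η : ι → ℝ) (α : ι → ℤ) :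
    ‖gz A σ z η α‖ = ga (em A) z α := by
  unfold gz ga
  rw [Complex.norm_exp, EuclideanSpace.norm_sq_eq]
  congr 1
  rw [Complex.re_sum, mul_sum, ← sum_neg_distrib]
  refine sum_congr rfl fun i _ => ?_
  rw [Real.norm_eq_abs, sq_abs, PiLp.sub_apply]
  have e : (-Real.pi * (1 + σ i * I) * ((em A α i - z i : ℝ) : ℂ) ^ 2 +
      2 * Real.pi * I * ((η i * em A α i : ℝ) : ℂ) : ℂ) =
      ((-(Real.pi * (em A α i - z i) ^ 2) : ℝ) : ℂ) +
        ((-(Real.pi * σ i * (em A α i - z i) ^ 2) + 2 * Real.pi * (η i * em A α i) : ℝ) : ℂ) * I := by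
    push_cast; ring
  rw [e, add_re, ofReal_re, re_ofReal_mul, I_re, mul_zero, add_zero]

lemma chi_le {q : ℕ} (χ : DirichletCharacter ℂ q) (o : ι) (A : Matrix ι ι ℝ) (σ : ι → ℝ)
    (z : EuclideanSpace ℝ ι) (η : ι → ℝ) (α : ι → ℤ) :
    ‖χ ((α o : ℤ) : ZMod q) * gz A σ z η α‖ ≤ ga (em A) z α := by
  rw [norm_mul, gz_norm]
  exact mul_le_of_le_one_left (ga_nonneg _ _ _) (χ.norm_le_one _)

lemma Th_summable {q : ℕ} (χ : DirichletCharacter ℂ q) (o : ι) {A : Matrix ι ι ℝ} (hA : A.det ≠ 0) (σ : ι → ℝ)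
    (z : EuclideanSpace ℝ ι) (η : ι → ℝ) :
    Summable fun α : ι → ℤ => ‖χ ((α o : ℤ) : ZMod q) * gz A σ z η α‖ :=
  Summable.of_nonneg_of_le (fun _ => norm_nonneg _) (fun α => chi_le χ o A σ z η α) (ga_summable hA z)

/-- the phase of the correlation -/
noncomputable def uph (A : Matrix ι ι ℝ) (η : ι → ℝ) (lam : ι → ℤ) : ℂ :=
  cexp (((2 * Real.pi * ∑ i, η i * em A lam i : ℝ) : ℂ) * I)

lemma uph_norm (A : Matrix ι ι ℝ) (η : ι → ℝ) (lam : ι → ℤ) : ‖uph A η lam‖ = 1 := by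
  unfold uph
  rw [Complex.norm_exp_ofReal_mul_I]

theorem Th_sq {p ν m : ℕ} [NeZero (p ^ m)] (hp : p.Prime) (hm : 1 ≤ m) (hmν : m < ν)
    (χ : DirichletCharacter ℂ (p ^ ν)) (o : ι) {A : Matrix ι ι ℝ} (hA : A.det ≠ 0) (σ : ι → ℝ) (z : EuclideanSpace ℝ ι) (η : ι → ℝ) {B : ℝ}
    (hB : ∀ S : Finset (ι → ℤ), (∀ l ∈ S, l ≠ 0) → ∑ l ∈ S, ‖TT χ o A σ z (mo o ((p : ℤ) ^ m) l)‖ ≤ B) :
    ∑ θ : DirichletCharacter ℂ (p ^ m),
      ‖Th (χ * DirichletCharacter.changeLevel (pow_dvd_pow p hmν.le) θ) o A σ z η‖ ^ 2 ≤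
      (p : ℝ) ^ m * (GE (em (Real.sqrt 2 • A)) + B) := by
  classical
  have hpZ : ((p ^ m : ℕ) : ℤ) ≠ 0 := by exact_mod_cast (pow_pos hp.pos m).ne'
  obtain ⟨c, hc⟩ : ∃ c : (ι → ℤ) → ℂ, c = fun α => χ ((α o : ℤ) : ZMod (p ^ ν)) * gz A σ z η α := ⟨_, rfl⟩
  have hcs : Summable fun α => ‖c α‖ := by rw [hc]; exact Th_summable χ o hA σ z η
  have hcs' : Summable c := hcs.of_norm
  have hcl : ∀ (a : ℤ) (x : ι → ℤ), cls o a (p ^ m : ℕ) x = mo o (p ^ m : ℕ) x + dlt o a := by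
    intro a x
    funext i
    unfold mo cls dlt
    rw [Pi.add_apply]
    split_ifs <;> ring
  obtain ⟨C, hC⟩ : ∃ C : ℕ → ℂ, C = fun a : ℕ => ∑' x, c (cls o (a : ℕ) (p ^ m : ℕ) x) := ⟨_, rfl⟩
  have hdvd : p ^ m ∣ p ^ ν := pow_dvd_pow p hmν.le
  have hred : ∀ (a : ℕ) (x : ι → ℤ), cls o (a : ℕ) (p ^ m : ℕ) x o = a + (p ^ m : ℕ) * x o := fun a x => cls_o _ _ _ _
  -- the reduction on a class
  have hredm : ∀ (a : ℕ) (x : ι → ℤ), ((cls o (a : ℕ) (p ^ m : ℕ) x o : ℤ) : ZMod (p ^ m)) = a := by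
    intro a x
    rw [hred, Int.cast_add, Int.cast_mul]
    have h0 : (((p ^ m : ℕ) : ℤ) : ZMod (p ^ m)) = 0 := by
      rw [Int.cast_natCast]; exact ZMod.natCast_self _
    rw [h0, zero_mul, add_zero, Int.cast_natCast]
  have hredp : ∀ (a : ℕ) (x : ι → ℤ), ((p : ℤ) ∣ cls o (a : ℕ) (p ^ m : ℕ) x o ↔ p ∣ a) := by
    intro a x
    rw [hred, dvd_add_left (Dvd.dvd.mul_right (by exact_mod_cast dvd_pow_self p (by omega)) _)]
    exact Int.natCast_dvd_natCast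
  have hTh : ∀ θ : DirichletCharacter ℂ (p ^ m),
      Th (χ * DirichletCharacter.changeLevel hdvd θ) o A σ z η = ∑ a ∈ range (p ^ m), θ (a : ZMod (p ^ m)) * C a := by
    intro θ
    unfold Th
    rw [tsum_dec o (P := p ^ m) (pow_pos hp.pos m) (Th_summable _ o hA σ z η).of_norm]
    refine sum_congr rfl fun a _ => ?_
    rw [hC]
    simp only
    rw [← tsum_mul_left]
    refine tsum_congr fun x => ?_
    rw [hc]
    simp only
    rw [MulChar.mul_apply]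
    by_cases hn : IsUnit ((cls o (a : ℕ) (p ^ m : ℕ) x o : ℤ) : ZMod (p ^ ν))
    · have h1 : (DirichletCharacter.changeLevel hdvd θ) ((cls o (a : ℕ) (p ^ m : ℕ) x o : ℤ) : ZMod (p ^ ν)) =
          θ (a : ZMod (p ^ m)) := by
        rw [← hredm a x]
        obtain ⟨u, hu⟩ := hn
        rw [← hu, DirichletCharacter.changeLevel_eq_cast_of_dvd, hu, ZMod.cast_intCast hdvd]
      rw [h1]
      ring
    · have h1 : χ ((cls o (a : ℕ) (p ^ m : ℕ) x o : ℤ) : ZMod (p ^ ν)) = 0 := MulChar.map_nonunit _ hn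
      rw [h1]
      ring
  simp_rw [hTh]
  have hC0 : ∀ a ∈ range (p ^ m), ¬ IsUnit (a : ZMod (p ^ m)) → C a = 0 := by
    intro a _ ha
    have hpa : p ∣ a := by
      by_contra hpa
      apply ha
      rw [ZMod.isUnit_iff_coprime]
      exact Nat.Coprime.pow_right _ ((hp.coprime_iff_not_dvd).2 hpa).symm
    rw [hC]
    simp only
    have : ∀ x, c (cls o (a : ℕ) (p ^ m : ℕ) x) = 0 := by
      intro x
      rw [hc]
      simp only
      rw [MulChar.map_nonunit, zero_mul]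
      intro hu
      have h1 := (hredp a x).2 hpa
      obtain ⟨k, hk⟩ := h1
      rw [hk] at hu
      rw [Int.cast_mul, Int.cast_natCast] at hu
      exact Pool.Agent.Y779.R3.not_unit_pi hp (by omega) _ hu
    simp_rw [this, tsum_zero]
  refine (orth (d := p ^ m) (range (p ^ m)) C hC0).trans ?_
  have hpm : ((p ^ m : ℕ) : ℝ) = (p : ℝ) ^ m := by push_cast; rfl
  rw [hpm]
  refine mul_le_mul_of_nonneg_left ?_ (by positivity)
  -- the double sum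
  have e1 : ∑ n ∈ range (p ^ m), ∑ k ∈ range (p ^ m), (if (n : ZMod (p ^ m)) = (k : ZMod (p ^ m)) then
      C n * (starRingEnd ℂ) (C k) else 0) = ∑ n ∈ range (p ^ m), C n * (starRingEnd ℂ) (C n) := by
    refine sum_congr rfl fun n hn => ?_
    rw [sum_eq_single n]
    · rw [if_pos rfl]
    · intro k hk hkn
      rw [if_neg]
      intro h
      apply hkn
      rw [ZMod.natCast_eq_natCast_iff'] at h
      rw [mem_range] at hn hk
      rw [Nat.mod_eq_of_lt hn, Nat.mod_eq_of_lt hk] at h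
      exact h.symm
    · intro h
      exact absurd hn h
  rw [e1]
  obtain ⟨g, hg⟩ : ∃ g : (ι → ℤ) → ℂ, g = fun β => ∑' l, c (β + mo o (p ^ m : ℕ) l) * (starRingEnd ℂ) (c β) :=
    ⟨_, rfl⟩
  have hprod : Summable fun t : (ι → ℤ) × (ι → ℤ) => ‖c t.1‖ * ‖c t.2‖ :=
    hcs.mul_of_nonneg hcs (fun _ => norm_nonneg _) (fun _ => norm_nonneg _)
  have h2s : Summable fun t : (ι → ℤ) × (ι → ℤ) => c (t.1 + mo o (p ^ m : ℕ) t.2) * (starRingEnd ℂ) (c t.1) := by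
    have hi : Function.Injective fun t : (ι → ℤ) × (ι → ℤ) => (t.1 + mo o (p ^ m : ℕ) t.2, t.1) := by
      rintro ⟨a, b⟩ ⟨a', b'⟩ h
      simp only [Prod.mk.injEq] at h
      obtain ⟨h1, h2⟩ := h
      subst h2
      rw [mo_inj o hpZ (add_left_cancel h1)]
    have := hprod.comp_injective hi
    refine Summable.of_norm (this.congr fun t => ?_)
    simp only [Function.comp]
    rw [norm_mul, RCLike.norm_conj]
  have hgs : Summable g := by
    rw [hg]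
    exact h2s.prod
  have e2 : ∀ n ∈ range (p ^ m), C n * (starRingEnd ℂ) (C n) = ∑' y, g (cls o (n : ℕ) (p ^ m : ℕ) y) := by
    intro n _
    have e3 : (starRingEnd ℂ) (C n) = ∑' y, (starRingEnd ℂ) (c (cls o (n : ℕ) (p ^ m : ℕ) y)) := by
      rw [hC]
      simp only
      rw [Complex.conj_tsum]
    rw [e3, ← tsum_mul_left]
    refine tsum_congr fun y => ?_
    rw [hg]
    simp only
    rw [tsum_mul_right]
    congr 1
    rw [hC]
    simp only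
    rw [← (Equiv.addRight y).tsum_eq]
    refine tsum_congr fun l => ?_
    rw [Equiv.coe_addRight]
    congr 1
    funext i
    unfold mo cls
    rw [Pi.add_apply]
    split_ifs
    · simp only [Pi.add_apply]; ring
    · simp only [Pi.add_apply]; ring
  rw [sum_congr rfl e2, ← tsum_dec o (P := p ^ m) (pow_pos hp.pos m) hgs]
  have e4 : ∑' β, g β = ∑' l, uph A η (mo o ((p : ℤ) ^ m) l) * TT χ o A σ z (mo o ((p : ℤ) ^ m) l) := by
    rw [hg]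
    simp only
    rw [← Summable.tsum_comm (f := fun β l => c (β + mo o (p ^ m : ℕ) l) * (starRingEnd ℂ) (c β)) h2s]
    refine tsum_congr fun l => ?_
    unfold TT
    rw [← tsum_mul_left]
    refine tsum_congr fun β => ?_
    rw [hc]
    simp only
    have hpc : ((p ^ m : ℕ) : ℤ) = (p : ℤ) ^ m := by push_cast; rfl
    rw [hpc]
    obtain ⟨lam, hlam⟩ : ∃ lam, lam = mo o ((p : ℤ) ^ m) l := ⟨_, rfl⟩
    rw [← hlam]
    unfold FF Wt gz uph
    rw [map_mul, ← Complex.exp_conj, Pi.add_apply]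
    obtain ⟨u1, hu1⟩ : ∃ u1 : ℂ, u1 = ∑ i, (-Real.pi * (1 + σ i * I) * ((em A (β + lam) i - z i : ℝ) : ℂ) ^ 2 +
      2 * Real.pi * I * ((η i * em A (β + lam) i : ℝ) : ℂ)) := ⟨_, rfl⟩
    obtain ⟨u2, hu2⟩ : ∃ u2 : ℂ, u2 = ∑ i, (-Real.pi * (1 + σ i * I) * ((em A β i - z i : ℝ) : ℂ) ^ 2 +
      2 * Real.pi * I * ((η i * em A β i : ℝ) : ℂ)) := ⟨_, rfl⟩
    have e7 : (((2 * Real.pi * ∑ i, η i * em A lam i : ℝ) : ℂ) * I) +
        ∑ i, -Real.pi * ((1 + σ i * I) * ((em A (β + lam) i - z i : ℝ) : ℂ) ^ 2 +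
          (1 - σ i * I) * ((em A β i - z i : ℝ) : ℂ) ^ 2) = u1 + (starRingEnd ℂ) u2 := by
      rw [hu1, hu2, map_sum, ← sum_add_distrib, ofReal_mul, ofReal_sum, mul_sum, sum_mul, ← sum_add_distrib]
      refine sum_congr rfl fun i _ => ?_
      have e8 : em A (β + lam) i = em A β i + em A lam i := by rw [map_add, PiLp.add_apply]
      have e9 : (starRingEnd ℂ) ((2 : ℂ)) = 2 := map_ofNat _ 2
      rw [e8]
      simp only [map_mul, map_neg, map_add, map_one, conj_ofReal, conj_I, map_pow, e9]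
      push_cast
      ring
    rw [← hu1, ← hu2]
    calc _ = χ ((β o + lam o : ℤ) : ZMod (p ^ ν)) * (starRingEnd ℂ) (χ ((β o : ℤ) : ZMod (p ^ ν))) *
          cexp (u1 + (starRingEnd ℂ) u2) := by rw [Complex.exp_add]; ring
      _ = _ := by rw [← e7, Complex.exp_add]; ring
  rw [e4]
  have hB' : ∀ S : Finset (ι → ℤ), (∀ l ∈ S, l ≠ 0) →
      ∑ l ∈ S, ‖uph A η (mo o ((p : ℤ) ^ m) l) * TT χ o A σ z (mo o ((p : ℤ) ^ m) l)‖ ≤ B := by
    intro S hS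
    refine le_trans (le_of_eq ?_) (hB S hS)
    refine sum_congr rfl fun l _ => ?_
    rw [norm_mul, uph_norm, one_mul]
  refine (tsum_of_fin hB').trans ?_
  rw [norm_mul, uph_norm, one_mul]
  have h0 := TT_triv χ o hA σ z (mo o ((p : ℤ) ^ m) 0)
  have h00 : mo o ((p : ℤ) ^ m) (0 : ι → ℤ) = 0 := by
    funext i
    unfold mo cls
    split_ifs <;> simp
  have h1 : Real.exp (-(Real.pi * ‖em A (0 : ι → ℤ)‖ ^ 2 / 2)) = 1 := by simp
  rw [h00, h1, one_mul] at h0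
  rw [h00]
  linarith

/-- **the theta bound** -/
theorem Th_bound (o : ι) {CG : ℝ} (hCG : 0 ≤ CG) : ∃ C : ℝ, 0 < C ∧ ∀ p : ℕ, p.Prime → 7 ≤ p →
    ∀ (ν m : ℕ), 1 ≤ m → m < ν → 19 * ν ≤ 58 * m →
    ∀ χ : DirichletCharacter ℂ (p ^ ν), χ.IsPrimitive → ∀ (A : Matrix ι ι ℝ) (σ : ι → ℝ) (z : EuclideanSpace ℝ ι) (η : ι → ℝ) (S : ℝ),
      WR p o CG ν A → 1 ≤ S → (∀ i, |σ i| ≤ S) → 1 ≤ |A.det|⁻¹ →
      |A.det|⁻¹ ^ 2 ≤ S ^ (2 * Fintype.card ι) * (p : ℝ) ^ ν →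
      ‖Th χ o A σ z η‖ ^ 2 ≤
        C * (p : ℝ) ^ (Fintype.card ι + 3) * (1 + ν) ^ 2 * S ^ Fintype.card ι * ((p : ℝ) ^ m * |A.det|⁻¹) := by
  classical
  obtain ⟨C1, hC1, hall⟩ := off_sum o hCG
  obtain ⟨n, hn⟩ : ∃ n, n = Fintype.card ι := ⟨_, rfl⟩
  rw [← hn] at hall ⊢
  refine ⟨1 + CG + C1, by positivity, ?_⟩
  intro p hp hp7 ν m hm hmν h19 χ hχ A σ z η S hW hS1 hσ hX1 hXq
  haveI : NeZero (p ^ m) := ⟨pow_ne_zero _ hp.ne_zero⟩
  have hp0 : (0 : ℝ) < p := by exact_mod_cast hp.pos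
  have hp1 : (1 : ℝ) ≤ p := by exact_mod_cast hp.one_le
  have hS0 : 0 < S := by linarith
  have h := Th_sq hp hm hmν χ o hW.det σ z η (hall p hp hp7 ν m hm hmν h19 χ hχ A σ z S hW hS1 hσ hXq)
  have h1 : ‖Th χ o A σ z η‖ ^ 2 ≤ ∑ θ : DirichletCharacter ℂ (p ^ m),
      ‖Th (χ * DirichletCharacter.changeLevel (pow_dvd_pow p hmν.le) θ) o A σ z η‖ ^ 2 := by
    have h2 := single_le_sum (f := fun θ : DirichletCharacter ℂ (p ^ m) =>
      ‖Th (χ * DirichletCharacter.changeLevel (pow_dvd_pow p hmν.le) θ) o A σ z η‖ ^ 2)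
      (fun θ _ => sq_nonneg _) (mem_univ (1 : DirichletCharacter ℂ (p ^ m)))
    simp only [map_one, mul_one] at h2
    exact h2
  refine (h1.trans h).trans ?_
  obtain ⟨X, hX⟩ : ∃ X : ℝ, X = |A.det|⁻¹ := ⟨_, rfl⟩
  have g1 := GE_s2 hW.lb
  rw [← hX] at hX1 g1 ⊢
  have hSn : 1 ≤ S ^ n := one_le_pow₀ hS1
  have hp4 : 1 ≤ (p : ℝ) ^ (n + 3) := one_le_pow₀ hp1
  have hν2 : 1 ≤ (1 + (ν : ℝ)) ^ 2 := one_le_pow₀ (by linarith [Nat.cast_nonneg (α := ℝ) ν])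
  have g2 : GE (em (Real.sqrt 2 • A)) ≤ (1 + CG) * (p : ℝ) ^ (n + 3) * (1 + ν) ^ 2 * S ^ n * X := by
    calc GE (em (Real.sqrt 2 • A)) ≤ 1 + CG * X := g1
      _ ≤ (1 + CG) * 1 * 1 * 1 * X := by nlinarith
      _ ≤ _ := by gcongr
  calc (p : ℝ) ^ m * (GE (em (Real.sqrt 2 • A)) + C1 * (p : ℝ) ^ (n + 3) * (1 + ν) ^ 2 * S ^ n * X) ≤
        (p : ℝ) ^ m * ((1 + CG) * (p : ℝ) ^ (n + 3) * (1 + ν) ^ 2 * S ^ n * X +
          C1 * (p : ℝ) ^ (n + 3) * (1 + ν) ^ 2 * S ^ n * X) := by gcongr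
    _ = _ := by ring

end Run7.h343.NG
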