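import Pool.Agent.Run7.h343.NG.Sp
import Pool.Agent.Run7.h343.NF.Nf3

/-!
The theta bound for number fields, with polynomial weights and an auxiliary conductor.
-/

set_option autoImplicit false
set_option linter.unusedSectionVars false

open NumberField Finset Complex

namespace Run7.h343.NG

open Run7.h343.NF
open Pool.Agent.Y773.G (cj rr mk_cj)

attribute [local instance] decEm

variable {K : Type} [Field K] [NumberField K]

/-- the sign of the type -/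
noncomputable def sk (κ : InfinitePlace K → ℤ) (w : InfinitePlace K) : ℝ := if 0 ≤ κ w then 1 else -1

/-- the coordinate of the type `κ` at `w` -/
noncomputable def vk (κ : InfinitePlace K → ℤ) (w : InfinitePlace K) (x : K) : ℂ :=
  if 0 ≤ κ w then w.embedding x else (starRingEnd ℂ) (w.embedding x)

/-- the linear forms -/
noncomputable def lk (κ : InfinitePlace K → ℤ) (w : InfinitePlace K) (φ : K →+* ℂ) : ℂ :=
  (if φ = w.embedding then (1 + sk κ w * I) / 2 else 0) + (if φ = cj w.embedding then (1 - sk κ w * I) / 2 else 0)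

/-- the exponents -/
def mq (κ : InfinitePlace K → ℤ) (w : InfinitePlace K) : ℕ := (κ w).natAbs

lemma lk_place {κ : InfinitePlace K → ℤ} {w : InfinitePlace K} {φ : K →+* ℂ} (h : InfinitePlace.mk φ ≠ w) :
    lk κ w φ = 0 := by
  unfold lk
  rw [if_neg, if_neg, add_zero]
  · rintro rfl
    apply h
    rw [mk_cj, InfinitePlace.mk_embedding]
  · rintro rfl
    apply h
    rw [InfinitePlace.mk_embedding]

lemma lk_norm (κ : InfinitePlace K → ℤ) (w : InfinitePlace K) (φ : K →+* ℂ) : ‖lk κ w φ‖ ≤ 1 := by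
  have hs : sk κ w = 1 ∨ sk κ w = -1 := by
    unfold sk
    split_ifs
    · exact Or.inl rfl
    · exact Or.inr rfl
  have h1 : ∀ s : ℝ, s = 1 ∨ s = -1 → ‖((1 + s * I) / 2 : ℂ)‖ ≤ 1 := by
    intro s hs
    have h3 : ‖(s * I : ℂ)‖ = 1 := by
      rw [norm_mul, Complex.norm_I, mul_one, Complex.norm_real]
      rcases hs with h | h <;> simp [h]
    have h4 := norm_add_le (1 : ℂ) (s * I)
    rw [norm_one, h3] at h4
    rw [norm_div]
    have h5 : ‖(2 : ℂ)‖ = 2 := by norm_num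
    rw [h5]
    linarith
  have h2 : ‖((1 - sk κ w * I) / 2 : ℂ)‖ ≤ 1 := by
    have := h1 (-sk κ w) (by rcases hs with h | h <;> simp [h])
    push_cast at this
    rwa [neg_mul, ← sub_eq_add_neg] at this
  unfold lk
  split_ifs
  · have : ((1 + sk κ w * I) / 2 + (1 - sk κ w * I) / 2 : ℂ) = 1 := by ring
    rw [this, norm_one]
  · rw [add_zero]
    exact h1 _ hs
  · rw [zero_add]
    exact h2
  · simp

lemma lk_adm (κ : InfinitePlace K → ℤ) : Adm (lk κ) := by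
  intro b hb φ
  rw [sum_eq_single (InfinitePlace.mk φ)]
  · rw [norm_mul]
    calc _ ≤ (1 : ℝ) * 1 := mul_le_mul (hb _) (lk_norm κ _ _) (norm_nonneg _) zero_le_one
      _ = 1 := one_mul 1
  · intro w _ hw
    rw [lk_place hw.symm, mul_zero]
  · intro h
    exact absurd (mem_univ _) h

lemma Lf_lk (κ : InfinitePlace K → ℤ) (y : InfinitePlace K → ℝ) (C : Matrix (K →+* ℂ) (K →+* ℂ) ℤ)
    (w : InfinitePlace K) (α : (K →+* ℂ) → ℤ) :
    Lf (sc y * LC C) (lk κ) w α = (Real.exp (y w / 2) : ℝ) * vk κ w ((el0 (C.mulVec α) : 𝓞 K) : K) := by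
  obtain ⟨x, hx⟩ : ∃ x : K, x = ((el0 (C.mulVec α) : 𝓞 K) : K) := ⟨_, rfl⟩
  have e0 : ∀ φ : K →+* ℂ, em (sc y * LC C) α φ = Real.exp (y (InfinitePlace.mk φ) / 2) * rr φ x := by
    intro φ
    rw [em_sc, em_LC, hx]
  unfold Lf lk
  simp_rw [e0, add_mul, sum_add_distrib, ite_mul, zero_mul]
  rw [sum_ite_eq' univ w.embedding, sum_ite_eq' univ (cj w.embedding), if_pos (mem_univ _), if_pos (mem_univ _),
    mk_cj, InfinitePlace.mk_embedding, ← hx]
  have h1 : rr w.embedding x = (w.embedding x).re + (w.embedding x).im := rfl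
  have h2 : rr (cj w.embedding) x = (w.embedding x).re - (w.embedding x).im := by
    have : rr (cj w.embedding) x = ((starRingEnd ℂ) (w.embedding x)).re + ((starRingEnd ℂ) (w.embedding x)).im := rfl
    rw [this, Complex.conj_re, Complex.conj_im]
    ring
  rw [h1, h2]
  have hI : I ^ 2 = -1 := I_sq
  have h3 : w.embedding x = ((w.embedding x).re : ℂ) + (w.embedding x).im * I := (Complex.re_add_im _).symm
  unfold vk sk
  split_ifs
  · nth_rewrite 5 [h3]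
    push_cast
    ring
  · nth_rewrite 5 [h3]
    simp only [map_add, map_mul, conj_ofReal, conj_I]
    push_cast
    ring

lemma AE_LC (y : InfinitePlace K → ℝ) (C E : Matrix (K →+* ℂ) (K →+* ℂ) ℤ) :
    AE (sc y * LC C) E = sc y * LC (C * E) := by
  unfold AE LC
  rw [Matrix.map_mul, Matrix.mul_assoc, Matrix.mul_assoc]

lemma AE_det (A : Matrix (K →+* ℂ) (K →+* ℂ) ℝ) (E : Matrix (K →+* ℂ) (K →+* ℂ) ℤ) :
    |(AE A E).det| = |(E.det : ℝ)| * |A.det| := by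
  unfold AE
  rw [Matrix.det_mul, abs_mul, mul_comm]
  congr 2
  rw [← RingHom.mapMatrix_apply, ← RingHom.map_det]
  rfl

variable (K) in
/-- **the theta bound** -/
theorem SP_K (κ : InfinitePlace K → ℤ) : ∃ Cθ : ℝ, 0 < Cθ ∧ ∀ p : ℕ, p.Prime → 7 ≤ p →
    ∀ ν : ℕ, 1 ≤ ν → ∀ χ : DirichletCharacter ℂ (p ^ ν), χ.IsPrimitive →
    ∀ (o : K →+* ℂ) (C E : Matrix (K →+* ℂ) (K →+* ℂ) ℤ) (𝔟 𝔠 𝔭 : Ideal (𝓞 K)), IsL C 𝔟 → Chn p o ν (C * E) 𝔠 𝔭 →
    ∀ (y σ : InfinitePlace K → ℝ) (S : ℝ), (∀ w, Real.sqrt (1 + σ w ^ 2) ≤ S) →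
    ∀ (Ξ : ((K →+* ℂ) → ℤ) → ℂ) (T : Type) [Fintype T] (r : T → (K →+* ℂ) → ℤ) (u : T → ℂ), Spl Ξ χ o T r E u →
      1 ≤ Fintype.card T → |(E.det : ℝ)| = Fintype.card T →
      ‖SP Ξ (sc y * LC C) (wσ σ) (lk κ) (mq κ)‖ ^ 2 * |(sc y * LC C).det| ≤
        Cθ * (Fintype.card T : ℝ) ^ 4 * (p : ℝ) ^ (Fintype.card (K →+* ℂ) + 4) * (1 + ν) ^ 2 *
        S ^ Fintype.card (K →+* ℂ) * ((p : ℝ) ^ ν) ^ (19 / 58 : ℝ) *
        min |(sc y * LC C).det|⁻¹ (min 1 |(Aq (sc y * LC C) (wσ σ) o ((p : ℝ) ^ ν)).det|⁻¹) := by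
  choose g hg0 hg using fun o : K →+* ℂ => SX_bound o (CGK_nonneg (K := K))
  have hKf := Kf_pos (mq κ)
  have hsum : 0 < ∑ o, g o := sum_pos (fun o _ => hg0 o) univ_nonempty
  refine ⟨(Kf (mq κ)) ^ 2 * ∑ o, g o, by positivity, ?_⟩
  intro p hp hp7 ν hν χ hχ o C E 𝔟 𝔠 𝔭 hL h y σ S hS Ξ T _ r u hSpl hT hE
  have hp0 : (0 : ℝ) < p := by exact_mod_cast hp.pos
  have hS0 : 0 ≤ S := (Real.sqrt_nonneg _).trans (hS (Classical.arbitrary _))
  have hne := B_ne hL y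
  obtain ⟨D, hD⟩ : ∃ D, D = |(sc y * LC C).det| := ⟨_, rfl⟩
  have hD0 : 0 < D := by rw [hD]; exact abs_pos.2 hne
  obtain ⟨mn, hmn⟩ : ∃ mn, mn = min |(sc y * LC C).det|⁻¹ (min 1 |(Aq (sc y * LC C) (wσ σ) o ((p : ℝ) ^ ν)).det|⁻¹) :=
    ⟨_, rfl⟩
  have hmn0 : 0 ≤ mn := by
    rw [hmn]
    exact le_min (by positivity) (le_min zero_le_one (by positivity))
  obtain ⟨W, hW⟩ : ∃ W, W = (Fintype.card T : ℝ) ^ 4 * (p : ℝ) ^ (Fintype.card (K →+* ℂ) + 4) *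
    (1 + ν) ^ 2 * S ^ Fintype.card (K →+* ℂ) * ((p : ℝ) ^ ν) ^ (19 / 58 : ℝ) * mn := ⟨_, rfl⟩
  have hW0 : 0 ≤ W := by rw [hW]; positivity
  have h1 : g o ≤ ∑ o, g o := single_le_sum (fun o _ => (hg0 o).le) (mem_univ o)
  have hWR1 : WR p o (CGK K) ν (AE (sc y * LC C) E) := by
    rw [AE_LC]
    exact h.WR y
  have hWR2 : WR p o (CGK K) ν (Aq (AE (sc y * LC C) E) (wσ σ) o ((p : ℝ) ^ ν)) := by
    rw [AE_LC]
    exact h.WR' hp.pos y σ
  have hdE : |(AE (sc y * LC C) E).det| = Fintype.card T * |(sc y * LC C).det| := by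
    rw [AE_det, hE]
  have h2 : ∀ B : (K →+* ℂ) → ℂ, (∀ i, ‖B i‖ ≤ 1) → ‖SX Ξ (sc y * LC C) (wσ σ) B‖ ≤
      Real.sqrt ((∑ o, g o) * W / D) := by
    intro B hB
    have h3 := hg o p hp hp7 ν hν χ hχ _ E (wσ σ) S (hL.Lb y) hWR1 hWR2 (fun φ => hS _) Ξ T r u hSpl hT hdE B hB
    rw [← hmn, ← hD] at h3
    apply Real.le_sqrt_of_sq_le
    rw [le_div_iff₀ hD0]
    refine h3.trans ?_
    calc _ = g o * W := by rw [hW]; ring
      _ ≤ _ := mul_le_mul_of_nonneg_right h1 hW0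
  have h3 := SP_le hSpl.bd hne (wσ σ) (lk_adm κ) (mq κ) h2
  have h4 := pow_le_pow_left₀ (norm_nonneg _) h3 2
  have h5 : (Real.sqrt ((∑ o, g o) * W / D)) ^ 2 = (∑ o, g o) * W / D := Real.sq_sqrt (by positivity)
  rw [← hmn, ← hD]
  calc _ ≤ (Kf (mq κ) * Real.sqrt ((∑ o, g o) * W / D)) ^ 2 * D := mul_le_mul_of_nonneg_right h4 hD0.le
    _ = (Kf (mq κ)) ^ 2 * (∑ o, g o) * W := by
        rw [mul_pow, h5]
        field_simp
    _ = _ := by rw [hW]; ring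

end Run7.h343.NG
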