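import Pool.Agent.Run7.h343.NG.Ch
import Pool.Agent.Run7.h343.NG.Kb

/-!
The finite part of a Hecke character on the classes of a sublattice.
-/

set_option autoImplicit false
set_option linter.unusedSectionVars false

open NumberField Finset Complex

namespace Run7.h343.NG

open Run7.h343.NF

attribute [local instance] decEm

variable {K : Type} [Field K] [NumberField K]

variable {p : ℕ} {𝔪 𝔭 𝔟 : Ideal (𝓞 K)} {ν : ℕ} {κ : InfinitePlace K → ℤ} {τ : InfinitePlace K → ℝ}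
  {ψ : Ideal (𝓞 K) →*₀ ℂ} {e : 𝓞 K} {χ : DirichletCharacter ℂ (p ^ ν)}

/-- the weight -/
noncomputable def Ξf (κ : InfinitePlace K → ℤ) (τ : InfinitePlace K → ℝ) (ψ : Ideal (𝓞 K) →*₀ ℂ)
    (C : Matrix (K →+* ℂ) (K →+* ℂ) ℤ) (α : (K →+* ℂ) → ℤ) : ℂ := Xf κ τ ψ (el0 (C.mulVec α))

theorem exists_spl (hP : P1 p 𝔭) (hν : 1 ≤ ν) (h𝔪 : 𝔪 ≠ ⊥) (h𝔟 : 𝔟 ≠ ⊥) (hbm : IsCoprime 𝔟 𝔪)
    (hmp : IsCoprime 𝔪 𝔭) (hbp : IsCoprime 𝔟 𝔭) (h : HK 𝔪 𝔭 ν κ τ ψ) (he : Idm 𝔪 𝔭 ν e)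
    (hχ : ∀ n : ℤ, χ (n : ZMod (p ^ ν)) = Xp κ τ ψ e (n : 𝓞 K)) :
    ∃ (o : K →+* ℂ) (C E : Matrix (K →+* ℂ) (K →+* ℂ) ℤ), IsL C 𝔟 ∧ Chn p o ν (C * E) (𝔪 * 𝔟) 𝔭 ∧
      ∃ (T : Type) (_ : Fintype T) (r : T → (K →+* ℂ) → ℤ) (u : T → ℂ), Spl (Ξf κ τ ψ C) χ o T r E u ∧
      Fintype.card T = Ideal.absNorm 𝔪 ∧ |(E.det : ℝ)| = Fintype.card T := by
  obtain ⟨C, hC⟩ := exists_base h𝔟
  have hmb : 𝔪 * 𝔟 ≠ ⊥ := mul_ne_zero h𝔪 h𝔟
  obtain ⟨o, C', hchn, hcol, hcols⟩ := exists_adapted hP hmb (hmp.mul_left hbp) ν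
  have hC' := hchn.isL
  have hsub : 𝔪 * 𝔟 ≤ 𝔟 := Ideal.mul_le_right
  have hsubm : 𝔪 * 𝔟 ≤ 𝔪 := Ideal.mul_le_left
  choose x hx using fun i => hC.surj (cl C' i) (hsub (cl_mem hC' i))
  obtain ⟨E, hE⟩ : ∃ E : Matrix (K →+* ℂ) (K →+* ℂ) ℤ, E = Matrix.of fun j i => x i j := ⟨_, rfl⟩
  have hCE : C * E = C' := by
    ext j i
    have h1 : C.mulVec (x i) = fun j => C' j i := el0_inj (hx i)
    have h2 := congrFun h1 j
    rw [hE, Matrix.mul_apply]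
    exact h2
  have hdet : (E.det.natAbs : ℕ) = Ideal.absNorm 𝔪 := by
    have h1 := hC'.det
    rw [← hCE, Matrix.det_mul, Int.natAbs_mul, hC.det, map_mul, mul_comm] at h1
    have h2 : Ideal.absNorm 𝔟 ≠ 0 := by rw [Ne, Ideal.absNorm_eq_zero_iff]; exact h𝔟
    exact Nat.eq_of_mul_eq_mul_right (Nat.pos_of_ne_zero h2) h1
  haveI : Finite (𝓞 K ⧸ 𝔪) := Ideal.finiteQuotientOfFreeOfNeBot 𝔪 h𝔪
  letI : Fintype (𝓞 K ⧸ 𝔪) := Fintype.ofFinite _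
  have hcard : Fintype.card (𝓞 K ⧸ 𝔪) = Ideal.absNorm 𝔪 := by
    rw [Ideal.absNorm_apply, Submodule.cardQuot_apply, Nat.card_eq_fintype_card]
  -- representatives
  have hrep : ∀ a : 𝓞 K ⧸ 𝔪, ∃ z : (K →+* ℂ) → ℤ, Ideal.Quotient.mk 𝔪 (el0 (C.mulVec z)) = a ∧
      el0 (C.mulVec z) ∈ 𝔭 ^ ν := by
    intro a
    obtain ⟨y, rfl⟩ := Ideal.Quotient.mk_surjective a
    have hco : IsCoprime (𝔟 * 𝔭 ^ ν) 𝔪 := hbm.mul_left hmp.symm.pow_left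
    rw [Ideal.isCoprime_iff_sup_eq] at hco
    obtain ⟨s, hs, t, ht, hst⟩ := Submodule.mem_sup.1 ((Ideal.eq_top_iff_one _).1 hco)
    obtain ⟨z, hz⟩ := hC.surj (y * s) (𝔟.mul_mem_left _ (Ideal.mul_le_left hs))
    refine ⟨z, ?_, ?_⟩
    · rw [hz, Ideal.Quotient.eq]
      have : y * s - y = -(y * t) := by linear_combination y * hst
      rw [this, Ideal.neg_mem_iff]
      exact 𝔪.mul_mem_left _ ht
    · rw [hz]
      exact Ideal.mul_mem_left _ _ (Ideal.mul_le_right hs)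
  choose r hr1 hr2 using hrep
  have hadd : ∀ a β, el0 (C.mulVec (r a + E.mulVec β)) = el0 (C.mulVec (r a)) + el0 (C'.mulVec β) := by
    intro a β
    rw [Matrix.mulVec_add, el0_add, Matrix.mulVec_mulVec, hCE]
  refine ⟨o, C, E, hC, by rw [hCE]; exact hchn, 𝓞 K ⧸ 𝔪, inferInstance, r,
    fun a => Xm κ τ ψ e (el0 (C.mulVec (r a))) * Xp κ τ ψ e (cl C' o), ⟨⟨?_, ?_⟩, ?_, ?_, ?_, ?_⟩, hcard, ?_⟩
  · -- injective
    rintro ⟨a, β⟩ ⟨a', β'⟩ hab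
    simp only at hab
    have h1 : a = a' := by
      have h2 := congrArg (fun v => Ideal.Quotient.mk 𝔪 (el0 (C.mulVec v))) hab
      simp only [hadd, map_add, hr1] at h2
      rwa [Ideal.Quotient.eq_zero_iff_mem.2 (hsubm (hC'.mem β)), Ideal.Quotient.eq_zero_iff_mem.2 (hsubm (hC'.mem β')),
        add_zero, add_zero] at h2
    subst h1
    rw [add_right_inj] at hab
    have h3 : C'.mulVec β = C'.mulVec β' := by rw [← hCE, ← Matrix.mulVec_mulVec, ← Matrix.mulVec_mulVec, hab]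
    have h4 : C'.mulVec (β - β') = 0 := by rw [Matrix.mulVec_sub, h3, sub_self]
    rw [sub_eq_zero.1 (Matrix.eq_zero_of_mulVec_eq_zero hC'.det_ne h4)]
  · -- surjective
    intro α
    obtain ⟨a, ha⟩ : ∃ a, a = Ideal.Quotient.mk 𝔪 (el0 (C.mulVec α)) := ⟨_, rfl⟩
    have h1 : el0 (C.mulVec α) - el0 (C.mulVec (r a)) ∈ 𝔪 := by
      rw [← Ideal.Quotient.eq, hr1, ha]
    have h2 : el0 (C.mulVec α) - el0 (C.mulVec (r a)) ∈ 𝔟 := 𝔟.sub_mem (hC.mem _) (hC.mem _)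
    have h3 : el0 (C.mulVec α) - el0 (C.mulVec (r a)) ∈ 𝔪 * 𝔟 := by
      rw [Ideal.mul_eq_inf_of_isCoprime hbm.symm]
      exact ⟨h1, h2⟩
    obtain ⟨β, hβ⟩ := hC'.surj _ h3
    refine ⟨(a, β), ?_⟩
    simp only
    have h4 : el0 (C.mulVec (r a + E.mulVec β)) = el0 (C.mulVec α) := by
      rw [hadd, hβ]
      ring
    have h5 := el0_inj h4
    have h6 : C.mulVec (r a + E.mulVec β - α) = 0 := by rw [Matrix.mulVec_sub, h5, sub_self]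
    exact sub_eq_zero.1 (Matrix.eq_zero_of_mulVec_eq_zero hC.det_ne h6)
  · -- values
    intro a β
    unfold Ξf
    rw [hadd, h.Xm_Xp hP hν he]
    have h1 : Xm κ τ ψ e (el0 (C.mulVec (r a)) + el0 (C'.mulVec β)) = Xm κ τ ψ e (el0 (C.mulVec (r a))) := by
      refine h.Xm_congr hP hν he ?_
      rw [add_sub_cancel_left]
      exact hsubm (hC'.mem β)
    have h2 : Xp κ τ ψ e (el0 (C.mulVec (r a)) + el0 (C'.mulVec β)) = Xp κ τ ψ e (el0 (C'.mulVec β)) := by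
      refine h.Xp_congr hP hν he ?_
      rw [add_sub_cancel_right]
      exact hr2 a
    rw [h1, h2, h.Xp_el hP hν he hχ hcols]
    ring
  · intro a
    rw [norm_mul, h.Xp_norm hν he hcol, mul_one]
    exact h.Xm_le _
  · intro α
    exact h.Xf_le _
  · unfold Ξf
    rw [Matrix.mulVec_zero]
    have : el0 (0 : (K →+* ℂ) → ℤ) = 0 := map_zero (b0 K).equivFun.symm
    rw [this, Xf_z]
  · rw [hcard, ← hdet, Nat.cast_natAbs, Int.cast_abs]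

end Run7.h343.NG
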