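import Pool.Agent.Run7.h343.NG.Un2
import Pool.Agent.Run7.h343.NG.Sl

/-!
The theta series of a Hecke character and its Mellin transform.
-/

set_option autoImplicit false
set_option linter.unusedSectionVars false

open NumberField Complex Filter Topology MeasureTheory Set
open NumberField.Units NumberField.Units.dirichletUnitTheorem

namespace Run7.h343.NG

open Run7.h343.NF
open Pool.Agent.Y773 (Idx el PP S0 PIdl gen gen_ne_zero span_gen xE unE toP unfold_P qt qt_spec qt_eq qt_eq_bot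
  cube S0_eq integrable_exp_sub integral_exp_sub)
open Pool.Agent.Y773.G (av av_pos sqrt_mult_pos xE_apply toP_xE coE summable_PIdl norm_absNorm_cpow rr sum_rr_sq)

attribute [local instance] decEm

variable {K : Type} [Field K] [NumberField K]

/-! ### continuity -/

lemma gb_zero {ι : Type} [Fintype ι] [DecidableEq ι] (A : Matrix ι ι ℝ) (σ : ι → ℝ) (α : ι → ℤ) :
    gb A σ 0 α = NF.gz A σ α := by
  unfold gb NF.gz
  congr 1
  refine Finset.sum_congr rfl fun i _ => ?_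
  rw [Pi.zero_apply]
  ring

lemma s2_sc (y : InfinitePlace K → ℝ) (B : Matrix (K →+* ℂ) (K →+* ℂ) ℝ) :
    (Real.sqrt 2)⁻¹ • (sc y * B) = sc y * ((Real.sqrt 2)⁻¹ • B) := by
  rw [Matrix.mul_smul]

lemma sp_cont (Ξ : ((K →+* ℂ) → ℤ) → ℂ) (B : Matrix (K →+* ℂ) (K →+* ℂ) ℝ) (σ : (K →+* ℂ) → ℝ)
    (l : InfinitePlace K → (K →+* ℂ) → ℂ) (m : InfinitePlace K → ℕ) (x : (K →+* ℂ) → ℤ) :
    Continuous fun y : InfinitePlace K → ℝ => sp Ξ (sc y * B) σ l m x := by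
  unfold sp Lf
  simp_rw [gb_zero]
  refine Continuous.mul (continuous_const.mul (gz_sc_cont B σ x)) ?_
  refine continuous_finset_prod _ fun w _ => Continuous.pow ?_ _
  refine continuous_finset_sum _ fun φ _ => ?_
  simp_rw [em_sc]
  fun_prop

theorem SP_cont {Ξ : ((K →+* ℂ) → ℤ) → ℂ} (hX : ∀ α, ‖Ξ α‖ ≤ 1) {B : Matrix (K →+* ℂ) (K →+* ℂ) ℝ}
    (hB : B.det ≠ 0) (σ : (K →+* ℂ) → ℝ) {l : InfinitePlace K → (K →+* ℂ) → ℂ} (hl : Adm l)
    (m : InfinitePlace K → ℕ) : Continuous fun y : InfinitePlace K → ℝ => SP Ξ (sc y * B) σ l m := by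
  rw [continuous_iff_continuousAt]
  intro y0
  obtain ⟨R, hR⟩ : ∃ R, R = ‖y0‖ + 1 := ⟨_, rfl⟩
  obtain ⟨U, hUd⟩ : ∃ U : Set (InfinitePlace K → ℝ), U = {y | ∀ w, -R < y w} := ⟨_, rfl⟩
  have hU : U ∈ 𝓝 y0 := by
    have h1 : Metric.ball y0 1 ∈ 𝓝 y0 := Metric.ball_mem_nhds y0 one_pos
    refine mem_of_superset h1 fun y hy => ?_
    rw [hUd]
    intro w
    rw [Metric.mem_ball, dist_eq_norm] at hy
    have h2 : ‖y w - y0 w‖ ≤ ‖y - y0‖ := norm_le_pi_norm (y - y0) w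
    have h3 : ‖y0 w‖ ≤ ‖y0‖ := norm_le_pi_norm y0 w
    rw [Real.norm_eq_abs] at h2 h3
    have h4 := (abs_le.1 h2).1
    have h5 := (abs_le.1 h3).1
    rw [hR]
    linarith
  obtain ⟨z, hz⟩ : ∃ z : InfinitePlace K → ℝ, z = fun _ => -R := ⟨_, rfl⟩
  have hB2 := s2i_det hB
  have hs : Summable fun x : (K →+* ℂ) → ℤ => Km (K →+* ℂ) m * ga (em (sc z * ((Real.sqrt 2)⁻¹ • B))) 0 x :=
    (ga_summable (sc_mul_det_ne hB2 z) 0).mul_left _
  have hc : ∀ x : (K →+* ℂ) → ℤ, ContinuousOn (fun y : InfinitePlace K → ℝ => sp Ξ (sc y * B) σ l m x) U := fun x =>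
    (sp_cont Ξ B σ l m x).continuousOn
  have hb : ∀ (x : (K →+* ℂ) → ℤ) (y : InfinitePlace K → ℝ), y ∈ U →
      ‖sp Ξ (sc y * B) σ l m x‖ ≤ Km (K →+* ℂ) m * ga (em (sc z * ((Real.sqrt 2)⁻¹ • B))) 0 x := by
    intro x y hy
    rw [hUd] at hy
    refine (sp_le hX _ σ hl m x).trans ?_
    rw [s2_sc]
    refine mul_le_mul_of_nonneg_left (ga_sc_mono (fun w => ?_) _ x) (Km_pos m).le
    rw [hz]
    exact (hy w).le
  have h1 := continuousOn_tsum hc hs hb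
  exact h1.continuousAt hU

/-! ### the terms of the series -/

lemma vk_pow (κ : InfinitePlace K → ℤ) (w : InfinitePlace K) {x : K} (hx : x ≠ 0) :
    (w.embedding x / ((w x : ℝ) : ℂ)) ^ (κ w) * ((w x : ℝ) : ℂ) ^ (mq κ w) = (vk κ w x) ^ (mq κ w) := by
  have h0 : (0 : ℝ) < w x := by rw [InfinitePlace.pos_iff]; exact hx
  have h1 : ((w x : ℝ) : ℂ) ≠ 0 := by exact_mod_cast h0.ne'
  have h2 : w.embedding x * (starRingEnd ℂ) (w.embedding x) = ((w x : ℝ) : ℂ) ^ 2 := by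
    rw [Complex.mul_conj, Complex.normSq_eq_norm_sq, InfinitePlace.norm_embedding_eq]
    push_cast
    rfl
  have h3 : w.embedding x ≠ 0 := by
    intro h
    rw [h, zero_mul] at h2
    exact pow_ne_zero 2 h1 h2.symm
  unfold vk mq
  rcases le_or_gt 0 (κ w) with h | h
  · rw [if_pos h]
    obtain ⟨n, hn⟩ := Int.eq_ofNat_of_zero_le h
    rw [hn, zpow_natCast, Int.natAbs_natCast, ← mul_pow, div_mul_cancel₀ _ h1]
  · rw [if_neg (not_le.2 h)]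
    obtain ⟨n, hn⟩ := Int.eq_ofNat_of_zero_le (by omega : 0 ≤ -κ w)
    have hκ : κ w = -(n : ℤ) := by omega
    rw [hκ, zpow_neg, zpow_natCast, Int.natAbs_neg, Int.natAbs_natCast, ← inv_pow, ← mul_pow]
    congr 1
    rw [inv_div]
    field_simp
    rw [← h2, mul_comm]

variable (K) in
/-- the constant -/
noncomputable def cm (m : InfinitePlace K → ℕ) : ℝ := ∏ w : InfinitePlace K, (Real.sqrt (w.mult : ℝ)) ^ (m w)

lemma cm_pos (m : InfinitePlace K → ℕ) : 0 < cm K m :=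
  Finset.prod_pos fun w _ => pow_pos (sqrt_mult_pos w) _

lemma cm_one_le (m : InfinitePlace K → ℕ) : 1 ≤ cm K m := by
  unfold cm
  have h : ∀ w ∈ (Finset.univ : Finset (InfinitePlace K)), 1 ≤ (Real.sqrt (w.mult : ℝ)) ^ (m w) := by
    intro w _
    refine one_le_pow₀ ?_
    rw [Real.one_le_sqrt]
    exact_mod_cast w.mult_pos
  calc (1 : ℝ) = ∏ _w : InfinitePlace K, (1 : ℝ) := by simp
    _ ≤ _ := Finset.prod_le_prod (fun _ _ => zero_le_one) h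

/-- the terms -/
lemma term_eq (κ : InfinitePlace K → ℤ) (σ τ y : InfinitePlace K → ℝ) (ψ : Ideal (𝓞 K) →*₀ ℂ)
    (C : Matrix (K →+* ℂ) (K →+* ℂ) ℤ) {α : (K →+* ℂ) → ℤ} (hx : el0 (C.mulVec α) ≠ 0) :
    ψ (Ideal.span {el0 (C.mulVec α)}) * ∏ w, lz (mq κ w) (σ w) (τ w) (av (el0 (C.mulVec α)) w) (y w) =
      Dτ K τ * phz τ y * (cm K (mq κ) : ℝ) * sp (Ξf κ τ ψ C) (sc y * LC C) (wσ σ) (lk κ) (mq κ) α := by
  obtain ⟨x, hxd⟩ : ∃ x, x = el0 (C.mulVec α) := ⟨_, rfl⟩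
  have hxK : ((x : 𝓞 K) : K) ≠ 0 := by
    rw [hxd]
    exact_mod_cast hx
  have hkp : kp τ (x : K) ≠ 0 := kp_ne τ hxK
  have e1 := prod_lz σ τ y hx
  have e2 : ∏ w, lz (mq κ w) (σ w) (τ w) (av x w) (y w) =
      (∏ w, ((Real.exp (y w / 2) * av x w : ℝ) : ℂ) ^ (mq κ w)) * ∏ w, NF.lz (σ w) (τ w) (av x w) (y w) := by
    unfold lz
    rw [Finset.prod_mul_distrib]
  have e3 : (∏ w, ((Real.exp (y w / 2) * av x w : ℝ) : ℂ) ^ (mq κ w)) =
      (cm K (mq κ) : ℝ) * ∏ w : InfinitePlace K, ((Real.exp (y w / 2) : ℝ) * ((w (x : K) : ℝ) : ℂ)) ^ (mq κ w) := by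
    unfold cm av
    rw [ofReal_prod, ← Finset.prod_mul_distrib]
    refine Finset.prod_congr rfl fun w _ => ?_
    push_cast
    rw [← mul_pow]
    congr 1
    ring
  have e4 : ∏ w : InfinitePlace K, (Lf (sc y * LC C) (lk κ) w α) ^ (mq κ w) =
      an κ (x : K) * ∏ w : InfinitePlace K, ((Real.exp (y w / 2) : ℝ) * ((w (x : K) : ℝ) : ℂ)) ^ (mq κ w) := by
    unfold an
    rw [← Finset.prod_mul_distrib]
    refine Finset.prod_congr rfl fun w _ => ?_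
    rw [Lf_lk, ← hxd, mul_pow, mul_pow, ← vk_pow κ w hxK]
    ring
  rw [← hxd] at e1 ⊢
  rw [e2, e3, e1]
  unfold sp Ξf Xf ap
  rw [e4, gb_zero, gz_LC, ← hxd, mul_inv]
  have han : an κ (x : K) ≠ 0 := by
    intro h
    have := an_norm κ hxK
    rw [h, norm_zero] at this
    exact zero_ne_one this
  field_simp

/-! ### the theta series -/

variable {p : ℕ} {𝔪 𝔭 𝔟 : Ideal (𝓞 K)} {ν : ℕ} {κ : InfinitePlace K → ℤ} {τ : InfinitePlace K → ℝ}
  {ψ : Ideal (𝓞 K) →*₀ ℂ}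

/-- all the data -/
structure Dat (p : ℕ) (𝔪 𝔭 : Ideal (𝓞 K)) (ν : ℕ) (κ : InfinitePlace K → ℤ) (τ : InfinitePlace K → ℝ)
    (ψ : Ideal (𝓞 K) →*₀ ℂ) (𝔟 : Ideal (𝓞 K)) (χ : DirichletCharacter ℂ (p ^ ν)) (o : K →+* ℂ)
    (C E : Matrix (K →+* ℂ) (K →+* ℂ) ℤ) (T : Type) [Fintype T] (r : T → (K →+* ℂ) → ℤ) (u : T → ℂ) : Prop where
  hP : P1 p 𝔭
  hν : 1 ≤ ν
  hC : HK 𝔪 𝔭 ν κ τ ψ
  nb : ‖ψ 𝔟‖ = 1
  prim : χ.IsPrimitive
  isL : IsL C 𝔟
  chn : Chn p o ν (C * E) (𝔪 * 𝔟) 𝔭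
  spl : Spl (Ξf κ τ ψ C) χ o T r E u
  card : Fintype.card T = Ideal.absNorm 𝔪
  det : |(E.det : ℝ)| = Fintype.card T
  one_le : 1 ≤ Fintype.card T

variable {χ : DirichletCharacter ℂ (p ^ ν)} {o : K →+* ℂ} {C E : Matrix (K →+* ℂ) (K →+* ℂ) ℤ}
  {T : Type} [Fintype T] {r : T → (K →+* ℂ) → ℤ} {u : T → ℂ}

/-- the constant -/
noncomputable def cu (κ : InfinitePlace K → ℤ) (τ : InfinitePlace K → ℝ) (ψ : Ideal (𝓞 K) →*₀ ℂ)
    (𝔟 : Ideal (𝓞 K)) : ℂ := Dτ K τ * (ψ 𝔟)⁻¹ * (cm K (mq κ) : ℝ)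

lemma Dat.norm_cu (h : Dat p 𝔪 𝔭 ν κ τ ψ 𝔟 χ o C E T r u) : ‖cu κ τ ψ 𝔟‖ = cm K (mq κ) := by
  unfold cu
  rw [norm_mul, norm_mul, norm_Dτ, norm_inv, h.nb, Complex.norm_real, Real.norm_of_nonneg (cm_pos _).le]
  norm_num

lemma Dat.cu_ne (h : Dat p 𝔪 𝔭 ν κ τ ψ 𝔟 χ o C E T r u) : cu κ τ ψ 𝔟 ≠ 0 := by
  intro h0
  have h1 := h.norm_cu
  rw [h0, norm_zero] at h1
  exact (cm_pos (mq κ)).ne h1

/-- the sum over the non-zero integers -/
theorem Dat.th_eq (h : Dat p 𝔪 𝔭 ν κ τ ψ 𝔟 χ o C E T r u) (σ : InfinitePlace K → ℝ) (s : ℂ) (P : PP K) :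
    ∑' x : {x : 𝓞 K // x ≠ 0}, ψ (qt 𝔟 (gen (toP x))) * Fz (mq κ) σ τ s (av x.1) P =
      cu κ τ ψ 𝔟 * (SP (Ξf κ τ ψ C) (sc (el K P) * LC C) (wσ σ) (lk κ) (mq κ) * phz τ (el K P) *
        cexp (Module.finrank ℚ K * s * P.1 / 2)) := by
  classical
  have hL := h.isL
  have hψb : ψ 𝔟 ≠ 0 := by
    intro h0
    have := h.nb
    rw [h0, norm_zero] at this
    exact zero_ne_one this
  obtain ⟨G, hG⟩ : ∃ G : 𝓞 K → ℂ, G = fun x => if x ∈ 𝔟 then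
      ψ (Ideal.span {x}) * ∏ w, lz (mq κ w) (σ w) (τ w) (av x w) (el K P w) else 0 := ⟨_, rfl⟩
  have h1 : ∀ x : {x : 𝓞 K // x ≠ 0}, ψ (qt 𝔟 (gen (toP x))) * Fz (mq κ) σ τ s (av x.1) P =
      ((ψ 𝔟)⁻¹ * cexp (Module.finrank ℚ K * s * P.1 / 2)) * G x.1 := by
    intro x
    rw [qt_toP, hG]
    simp only
    split_ifs with hx
    · have h2 : ψ (qt 𝔟 x.1) * ψ 𝔟 = ψ (Ideal.span {x.1}) := by rw [← map_mul, qt_mem hx]
      have h3 : ψ (qt 𝔟 x.1) = ψ (Ideal.span {x.1}) * (ψ 𝔟)⁻¹ := by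
        rw [← h2, mul_inv_cancel_right₀ hψb]
      unfold Fz
      rw [h3]
      ring
    · rw [qt_not_mem hx]
      have : ψ (⊥ : Ideal (𝓞 K)) = 0 := map_zero ψ
      rw [this]
      ring
  have hG0 : G 0 = 0 := by
    rw [hG]
    simp only
    have h2 : Ideal.span {(0 : 𝓞 K)} = ⊥ := by simp
    have h3 : ψ (⊥ : Ideal (𝓞 K)) = 0 := map_zero ψ
    rw [h2, h3]
    simp
  simp_rw [h1]
  rw [tsum_mul_left]
  have h2 : ∑' x : {x : 𝓞 K // x ≠ 0}, G x.1 = ∑' x : 𝓞 K, G x := by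
    refine tsum_subtype_eq_of_support_subset (s := {x : 𝓞 K | x ≠ 0}) ?_
    intro x hx h0
    exact hx (by rw [h0]; exact hG0)
  have hinj : Function.Injective fun α : (K →+* ℂ) → ℤ => el0 (C.mulVec α) :=
    el0_inj.comp (mulVec_inj hL.det_ne)
  have h3 : ∑' x : 𝓞 K, G x = ∑' α : (K →+* ℂ) → ℤ, G (el0 (C.mulVec α)) := by
    refine (hinj.tsum_eq (f := G) ?_).symm
    intro x hx
    have hxb : x ∈ 𝔟 := by
      by_contra hcon
      apply hx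
      rw [hG]
      simp only [if_neg hcon]
    obtain ⟨α, hα⟩ := hL.surj x hxb
    exact ⟨α, hα⟩
  have h4 : ∑' α : (K →+* ℂ) → ℤ, G (el0 (C.mulVec α)) =
      Dτ K τ * phz τ (el K P) * (cm K (mq κ) : ℝ) * SP (Ξf κ τ ψ C) (sc (el K P) * LC C) (wσ σ) (lk κ) (mq κ) := by
    unfold SP
    rw [← tsum_mul_left]
    refine tsum_congr fun α => ?_
    by_cases hx : el0 (C.mulVec α) = 0
    · rw [hx, hG0]
      unfold sp Ξf
      rw [hx, Xf_z]
      ring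
    · rw [hG]
      simp only [if_pos (hL.mem α)]
      exact term_eq κ σ τ (el K P) ψ C hx
  rw [h2, h3, h4]
  unfold cu
  ring

/-- the function whose Mellin transform is the completed Dirichlet series -/
noncomputable def hz (κ : InfinitePlace K → ℤ) (ψ : Ideal (𝓞 K) →*₀ ℂ) (C : Matrix (K →+* ℂ) (K →+* ℂ) ℤ)
    (σ τ : InfinitePlace K → ℝ) (t : ℝ) : ℂ :=
  ∫ θ in cube K, SP (Ξf κ τ ψ C) (sc (el K ((2 / Module.finrank ℚ K) * Real.log t, θ)) * LC C) (wσ σ) (lk κ) (mq κ) *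
    phz τ (el K ((2 / Module.finrank ℚ K) * Real.log t, θ))

theorem mellin_hz (K : Type) [Field K] [NumberField K] : ∃ C0 : ℝ, 0 < C0 ∧
    ∀ (p : ℕ) (𝔪 𝔭 : Ideal (𝓞 K)) (ν : ℕ) (κ : InfinitePlace K → ℤ) (τ : InfinitePlace K → ℝ)
    (ψ : Ideal (𝓞 K) →*₀ ℂ) (𝔟 : Ideal (𝓞 K)) (χ : DirichletCharacter ℂ (p ^ ν)) (o : K →+* ℂ)
    (C E : Matrix (K →+* ℂ) (K →+* ℂ) ℤ) (T : Type) [Fintype T] (r : T → (K →+* ℂ) → ℤ) (u : T → ℂ),
      Dat p 𝔪 𝔭 ν κ τ ψ 𝔟 χ o C E T r u → ∀ (σ : InfinitePlace K → ℝ) (s : ℂ), 1 < s.re →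
      MellinConvergent (hz κ ψ C σ τ) s ∧
      cu κ τ ψ 𝔟 * mellin (hz κ ψ C σ τ) s = C0 * (Gz (mq κ) σ τ s *
          ∑' J : PIdl K, ψ (qt 𝔟 (gen J)) * ((Ideal.absNorm J.1 : ℕ) : ℂ) ^ (-s)) := by
  classical
  obtain ⟨C0, hC0, hunf⟩ := unfz K
  have hn : (0 : ℝ) < Module.finrank ℚ K := by exact_mod_cast Module.finrank_pos
  set d : ℝ := ((Module.finrank ℚ K : ℕ) : ℝ) with hn'
  refine ⟨d / 2 * C0, by positivity, fun p 𝔪 𝔭 ν κ τ ψ 𝔟 χ o C E T _ r u h σ s hs => ?_⟩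
  obtain ⟨h1, h2, h3⟩ := hunf (mq κ) σ τ (fun J => ψ (qt 𝔟 (gen J))) 1 (fun J => h.hC.norm_le _) s hs
  have hcu : cu κ τ ψ 𝔟 ≠ 0 := h.cu_ne
  have hcount : Countable (𝓞 K) := (coE K).countable_iff.mpr inferInstance
  have hth := h.th_eq σ s
  have hcont : Continuous fun P : PP K => cu κ τ ψ 𝔟 * (SP (Ξf κ τ ψ C) (sc (el K P) * LC C) (wσ σ) (lk κ) (mq κ) *
        phz τ (el K P) * cexp (Module.finrank ℚ K * s * P.1 / 2)) := by
    have h4 : Continuous (el K) := (el K).continuous_of_finiteDimensional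
    have hLne : (LC C).det ≠ 0 := by
      have := B_ne h.isL (fun _ => 0)
      rw [sc_zero, one_mul] at this
      exact this
    exact continuous_const.mul ((((SP_cont h.spl.bd hLne (wσ σ) (lk_adm κ) (mq κ)).comp h4).mul
      ((phz_cont τ).comp h4)).mul (by fun_prop))
  have hint : Integrable (fun P : PP K => cu κ τ ψ 𝔟 * (SP (Ξf κ τ ψ C) (sc (el K P) * LC C) (wσ σ) (lk κ) (mq κ) *
        phz τ (el K P) * cexp (Module.finrank ℚ K * s * P.1 / 2))) (volume.restrict (S0 K)) := by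
    have h5 := Pool.Agent.Y773.integrable_tsum h1 h2 (by
      simp_rw [hth]
      exact hcont.aestronglyMeasurable)
    simp_rw [hth] at h5
    exact h5
  simp_rw [hth] at h3
  -- Fubini
  have hrestr : (volume : Measure (PP K)).restrict (S0 K) =
      (volume : Measure ℝ).prod (volume.restrict (cube K)) := by
    rw [S0_eq, Measure.volume_eq_prod, ← Measure.prod_restrict, Measure.restrict_univ]
  rw [hrestr] at hint h3
  rw [integral_prod _ hint] at h3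
  have h9 := hint.integral_prod_left
  -- the substitution
  have h6 : ∀ v : ℝ, cu κ τ ψ 𝔟 * ((Real.exp v : ℂ) * (((Real.exp v : ℝ) : ℂ) ^ (s - 1) •
      hz κ ψ C σ τ (Real.exp v))) =
      (fun u : ℝ => ∫ θ in cube K, cu κ τ ψ 𝔟 * (SP (Ξf κ τ ψ C) (sc (el K (u, θ)) * LC C) (wσ σ) (lk κ) (mq κ) *
        phz τ (el K (u, θ)) * cexp (Module.finrank ℚ K * s * ((u, θ) : PP K).1 / 2))) (2 / d * v) := by
    intro v
    simp only
    rw [integral_const_mul, integral_mul_const]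
    unfold hz
    rw [Real.log_exp, smul_eq_mul]
    have hev : ((Real.exp v : ℝ) : ℂ) ≠ 0 := by exact_mod_cast (Real.exp_pos v).ne'
    have h7 : (Real.exp v : ℂ) * (((Real.exp v : ℝ) : ℂ) ^ (s - 1)) =
        cexp (Module.finrank ℚ K * s * ((2 / d * v : ℝ) : ℂ) / 2) := by
      rw [Complex.cpow_def_of_ne_zero hev, ← Complex.ofReal_log (Real.exp_pos v).le, Real.log_exp,
        Complex.ofReal_exp, ← Complex.exp_add]
      congr 1
      have hnc : (d : ℂ) ≠ 0 := by exact_mod_cast hn.ne'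
      have hnn : (Module.finrank ℚ K : ℂ) = (d : ℂ) := by rw [hn']; push_cast; rfl
      rw [hnn]
      push_cast
      field_simp
      ring
    rw [← mul_assoc (Real.exp v : ℂ), h7]
    ring
  have hconv : MellinConvergent (hz κ ψ C σ τ) s := by
    have h8 : MellinConvergent (fun t => cu κ τ ψ 𝔟 • hz κ ψ C σ τ t) s := by
      unfold MellinConvergent
      rw [← integrable_exp_sub]
      refine (h9.comp_mul_left' (R := 2 / d) (by positivity)).congr (Eventually.of_forall fun v => ?_)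
      refine (h6 v).symm.trans ?_
      simp only [smul_eq_mul]
      ring
    have h10 := h8.const_smul (cu κ τ ψ 𝔟)⁻¹
    simp only [smul_eq_mul, inv_mul_cancel_left₀ hcu] at h10
    exact h10
  refine ⟨hconv, ?_⟩
  unfold mellin
  rw [← integral_exp_sub, ← integral_const_mul]
  rw [integral_congr_ae (Eventually.of_forall h6)]
  have h8 := Measure.integral_comp_mul_left (fun u : ℝ => ∫ θ in cube K, cu κ τ ψ 𝔟 *
    (SP (Ξf κ τ ψ C) (sc (el K (u, θ)) * LC C) (wσ σ) (lk κ) (mq κ) * phz τ (el K (u, θ)) *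
        cexp (Module.finrank ℚ K * s * ((u, θ) : PP K).1 / 2))) (2 / d)
  refine h8.trans ?_
  rw [h3, abs_of_pos (by positivity), Complex.real_smul]
  push_cast
  have hnc : (d : ℂ) ≠ 0 := by exact_mod_cast hn.ne'
  field_simp

end Run7.h343.NG
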