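import Pool.Agent.Run7.h343.NF.Fin
import Pool.Agent.Run7.h343.NG.Un3

/-!
Decay of the theta function at both ends, and the entire continuation.
-/

set_option autoImplicit false
set_option linter.unusedSectionVars false

open NumberField Complex Filter Topology MeasureTheory Set Asymptotics
open NumberField.Units NumberField.Units.dirichletUnitTheorem

namespace Run7.h343.NG

open Run7.h343.NF
open Pool.Agent.Y773 (Idx el PP cube)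
open Pool.Agent.Y773.G (sum_el)

attribute [local instance] decEm

section gen

variable {ι : Type} [Fintype ι] [DecidableEq ι]

/-- polynomial decay for the scaled matrix -/
theorem nz_pow_half [Nonempty ι] {κ : ℝ} (hκ : 0 < κ) (N : ℕ) : ∃ D : ℝ, 0 < D ∧ ∀ B : Matrix ι ι ℝ, B.det ≠ 0 →
    (∀ x : ι → ℤ, x ≠ 0 → κ * |B.det| ≤ ‖em B x‖ ^ Fintype.card ι) →
    nz ((Real.sqrt 2)⁻¹ • B) * |B.det| ^ (2 * N + 1) ≤ D := by
  obtain ⟨D, hD, h⟩ := nz_pow (ι := ι) hκ N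
  have hs := s2_pos
  obtain ⟨s, hs'⟩ : ∃ s, s = (Real.sqrt 2)⁻¹ := ⟨_, rfl⟩
  have hs0 : 0 < s := by rw [hs']; positivity
  refine ⟨D * ((s ^ Fintype.card ι) ^ (2 * N + 1))⁻¹, by positivity, fun B hB hm => ?_⟩
  have h1 := h (s • B) (smul_det_ne hB hs0.ne') (fun x hx => by
    rw [smul_det_abs B hs0, em_smul, norm_smul, mul_pow, Real.norm_of_nonneg hs0.le]
    have := mul_le_mul_of_nonneg_left (hm x hx) (pow_pos hs0 (Fintype.card ι)).le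
    linarith)
  rw [smul_det_abs B hs0, mul_pow] at h1
  rw [← hs', ← div_eq_mul_inv, le_div_iff₀ (by positivity)]
  linarith

end gen

variable {K : Type} [Field K] [NumberField K]

variable {p : ℕ} {𝔪 𝔭 𝔟 : Ideal (𝓞 K)} {ν : ℕ} {κ : InfinitePlace K → ℤ} {τ : InfinitePlace K → ℝ}
  {ψ : Ideal (𝓞 K) →*₀ ℂ} {χ : DirichletCharacter ℂ (p ^ ν)} {o : K →+* ℂ}
  {C E : Matrix (K →+* ℂ) (K →+* ℂ) ℤ} {T : Type} [Fintype T] {r : T → (K →+* ℂ) → ℤ} {u : T → ℂ}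

/-- decay at both ends -/
theorem Dat.dec (h : Dat p 𝔪 𝔭 ν κ τ ψ 𝔟 χ o C E T r u) (σ : InfinitePlace K → ℝ) (N : ℕ) : ∃ D : ℝ, 0 < D ∧
    ∀ y : InfinitePlace K → ℝ,
      ‖SP (Ξf κ τ ψ C) (sc y * LC C) (wσ σ) (lk κ) (mq κ)‖ * |(sc y * LC C).det| ^ (2 * N + 1) ≤ D ∧
      ‖SP (Ξf κ τ ψ C) (sc y * LC C) (wσ σ) (lk κ) (mq κ)‖ ≤ D * |(sc y * LC C).det| ^ (2 * N) := by
  obtain ⟨D0, hD0, h0⟩ := nz_pow_half (ι := K →+* ℂ) (κK_pos (K := K)) N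
  have hp0 : (0 : ℝ) < p := by exact_mod_cast h.hP.hp.pos
  have hKf := Kf_pos (mq κ)
  have hR := Rσ_one_le σ
  obtain ⟨F, hF⟩ : ∃ F : ℝ, F = (Fintype.card T : ℝ) := ⟨_, rfl⟩
  have hF1 : 1 ≤ F := by rw [hF]; exact_mod_cast h.one_le
  obtain ⟨e2, he2⟩ : ∃ e2 : ℝ, e2 = Real.exp (2 * Real.pi * Fintype.card (K →+* ℂ)) := ⟨_, rfl⟩
  obtain ⟨e5, he5⟩ : ∃ e5 : ℝ, e5 = Real.exp (5 * Real.pi * Fintype.card (K →+* ℂ)) := ⟨_, rfl⟩
  have he20 : 0 < e2 := by rw [he2]; exact Real.exp_pos _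
  have he50 : 0 < e5 := by rw [he5]; exact Real.exp_pos _
  obtain ⟨W, hW⟩ : ∃ W : ℝ, W = Rσ σ * (p : ℝ) ^ ν * F := ⟨_, rfl⟩
  have hW0 : 0 < W := by rw [hW]; positivity
  obtain ⟨D1, hD1⟩ : ∃ D1 : ℝ, D1 = Kf (mq κ) * (e2 * D0) := ⟨_, rfl⟩
  obtain ⟨D2, hD2⟩ : ∃ D2 : ℝ, D2 = Kf (mq κ) * (e5 * F * D0 * Real.sqrt (W ^ (4 * N + 1))) := ⟨_, rfl⟩
  have hD10 : 0 < D1 := by rw [hD1]; positivity
  have hD20 : 0 < D2 := by
    rw [hD2]
    have : 0 < W ^ (4 * N + 1) := by positivity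
    have := Real.sqrt_pos.2 this
    positivity
  refine ⟨D1 + D2, by positivity, fun y => ?_⟩
  have hne := B_ne h.isL y
  obtain ⟨A, hA⟩ : ∃ A, A = sc y * LC C := ⟨_, rfl⟩
  have hAmin := min_nf1 h.isL y
  have hdE : |(AE (sc y * LC C) E).det| = Fintype.card T * |(sc y * LC C).det| := by
    rw [AE_det, h.det]
  rw [← hA] at hne hAmin hdE ⊢
  obtain ⟨d, hd⟩ : ∃ d, d = |A.det| := ⟨_, rfl⟩
  have hd0 : 0 < d := by rw [hd]; exact abs_pos.2 hne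
  rw [← hd] at hdE hAmin ⊢
  rw [← hF] at hdE
  constructor
  · have h1 := h0 A hne (by rw [← hd]; exact hAmin)
    rw [← hd, ← le_div_iff₀ (by positivity)] at h1
    have h2 : ‖SP (Ξf κ τ ψ C) A (wσ σ) (lk κ) (mq κ)‖ ≤ Kf (mq κ) * (e2 * (D0 / d ^ (2 * N + 1))) := by
      refine SP_le h.spl.bd hne (wσ σ) (lk_adm κ) (mq κ) fun B hB => ?_
      refine (SX_triv h.spl.bd h.spl.zero hne (wσ σ) hB).trans ?_
      rw [← he2]
      exact mul_le_mul_of_nonneg_left h1 he20.le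
    have h3 : ‖SP (Ξf κ τ ψ C) A (wσ σ) (lk κ) (mq κ)‖ * d ^ (2 * N + 1) ≤ D1 := by
      refine (mul_le_mul_of_nonneg_right h2 (by positivity)).trans (le_of_eq ?_)
      rw [hD1]
      field_simp
    linarith
  · obtain ⟨A', hA'⟩ : ∃ A', A' = Aq (AE A E) (wσ σ) o ((p : ℝ) ^ ν) := ⟨_, rfl⟩
    have hAE : (AE A E).det ≠ 0 := by
      rw [← abs_pos, hdE]
      positivity
    have hAne : A'.det ≠ 0 := by
      rw [hA']
      exact Aq_det_ne hAE _ _ (pow_ne_zero _ hp0.ne')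
    have hmin : ∀ x : (K →+* ℂ) → ℤ, x ≠ 0 → κK K * |A'.det| ≤ ‖em A' x‖ ^ Fintype.card (K →+* ℂ) := by
      have h1 := Aq_eq h.hP.hp.pos y σ (C * E) o (Nat.zero_le ν)
      rw [pow_zero, Dm_one, mul_one, Nat.sub_zero] at h1
      rw [hA', hA, AE_LC, h1]
      exact min_nf2 (h.chn ν le_rfl) _
    have h2 := h0 _ hAne hmin
    obtain ⟨u', hu'⟩ : ∃ u', u' = |A'.det| := ⟨_, rfl⟩
    have hu0' : 0 < u' := by rw [hu']; exact abs_pos.2 hAne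
    have huu : u'⁻¹ = W * d := by
      have h3 := Aq_det_inv (A := AE A E) σ o (q := (p : ℝ) ^ ν) (by positivity)
      rw [hu', hA', h3, hdE, hW]
      ring
    rw [← hu', ← le_div_iff₀ (by positivity)] at h2
    have h3 : ∀ B : (K →+* ℂ) → ℂ, (∀ i, ‖B i‖ ≤ 1) → ‖SX (Ξf κ τ ψ C) A (wσ σ) B‖ ≤
        e5 * F * D0 * Real.sqrt (W ^ (4 * N + 1)) * d ^ (2 * N) := by
      intro B hB
      have h4 := SX_dual h.hP.hp h.hν h.prim o hne (wσ σ) h.spl h.one_le (by rw [← hF, ← hd]; exact hdE) hB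
      rw [← he5, ← hF, ← hd, ← hA', ← hu'] at h4
      have h5 : ‖SX (Ξf κ τ ψ C) A (wσ σ) B‖ ^ 2 * d ≤ (e5 * F * (D0 / u' ^ (2 * N + 1))) ^ 2 * u' := by
        refine h4.trans ?_
        have h6 : 0 ≤ nz ((Real.sqrt 2)⁻¹ • A') := nz_nonneg _
        gcongr
      have h6 : (e5 * F * (D0 / u' ^ (2 * N + 1))) ^ 2 * u' = (e5 * F * D0) ^ 2 * W ^ (4 * N + 1) * d ^ (4 * N) * d := by
        have e1 : (e5 * F * (D0 / u' ^ (2 * N + 1))) ^ 2 * u' = (e5 * F * D0) ^ 2 * u'⁻¹ ^ (4 * N + 1) := by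
          have e2 : (u'⁻¹ ^ (2 * N + 1)) ^ 2 = u'⁻¹ ^ (4 * N + 1) * u'⁻¹ := by
            rw [← pow_mul, ← pow_succ]
            congr 1
            ring
          have e3 : D0 / u' ^ (2 * N + 1) = D0 * u'⁻¹ ^ (2 * N + 1) := by rw [inv_pow, div_eq_mul_inv]
          rw [e3]
          linear_combination ((e5 * F * D0) ^ 2 * u') * e2 +
            ((e5 * F * D0) ^ 2 * u'⁻¹ ^ (4 * N + 1)) * (inv_mul_cancel₀ hu0'.ne')
        rw [e1, huu]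
        ring
      rw [h6] at h5
      have h7 := le_of_mul_le_mul_right h5 hd0
      refine le_of_pow_le_pow_left₀ (n := 2) (by norm_num) (by positivity) (h7.trans (le_of_eq ?_))
      have hW2 : 0 ≤ W ^ (4 * N + 1) := by positivity
      linear_combination (-((e5 * F * D0) ^ 2 * d ^ (4 * N))) * Real.sq_sqrt hW2
    have h4 := SP_le h.spl.bd hne (wσ σ) (lk_adm κ) (mq κ) h3
    have h5 : Kf (mq κ) * (e5 * F * D0 * Real.sqrt (W ^ (4 * N + 1)) * d ^ (2 * N)) = D2 * d ^ (2 * N) := by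
      rw [hD2]; ring
    rw [h5] at h4
    have h6 : 0 ≤ D1 * d ^ (2 * N) := by positivity
    linarith

/-! ### the function `hz` -/

lemma hz_le {M : ℝ} (σ : InfinitePlace K → ℝ) {t : ℝ}
    (h : ∀ θ, ‖SP (Ξf κ τ ψ C) (sc (el K ((2 / Module.finrank ℚ K) * Real.log t, θ)) * LC C) (wσ σ)
      (lk κ) (mq κ)‖ ≤ M) :
    ‖hz κ ψ C σ τ t‖ ≤ M := by
  unfold hz
  have h1 := norm_setIntegral_le_of_norm_le_const (μ := volume) (s := cube K) (C := M)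
    (f := fun θ => SP (Ξf κ τ ψ C) (sc (el K ((2 / Module.finrank ℚ K) * Real.log t, θ)) * LC C) (wσ σ)
      (lk κ) (mq κ) *
      phz τ (el K ((2 / Module.finrank ℚ K) * Real.log t, θ))) (by rw [vol_cube]; exact ENNReal.one_lt_top)
    (fun θ _ => by rw [norm_mul, norm_phz, mul_one]; exact h θ)
  refine h1.trans (le_of_eq ?_)
  rw [Measure.real, vol_cube, ENNReal.toReal_one, mul_one]

/-- decay of `hz` -/
theorem Dat.hz_dec (h : Dat p 𝔪 𝔭 ν κ τ ψ 𝔟 χ o C E T r u) (σ : InfinitePlace K → ℝ) (N : ℕ) :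
    ∃ D : ℝ, 0 < D ∧ ∀ t : ℝ, 0 < t →
    ‖hz κ ψ C σ τ t‖ ≤ D * t ^ (-((2 * N + 1 : ℕ) : ℝ)) ∧ ‖hz κ ψ C σ τ t‖ ≤ D * t ^ ((2 * N : ℕ) : ℝ) := by
  obtain ⟨D, hD, h0⟩ := h.dec σ N
  have hL := h.isL
  have hV := Vb_pos hL.ne_bot
  obtain ⟨G, hG⟩ : ∃ G : ℝ, G = D * (Vb 𝔟) ^ (2 * N) := ⟨_, rfl⟩
  obtain ⟨F, hF⟩ : ∃ F : ℝ, F = D * ((Vb 𝔟) ^ (2 * N + 1))⁻¹ := ⟨_, rfl⟩
  have hG0 : 0 < G := by rw [hG]; positivity
  have hF0 : 0 < F := by rw [hF]; positivity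
  refine ⟨G + F, by positivity, fun t ht => ⟨?_, ?_⟩⟩
  · have h1 : ‖hz κ ψ C σ τ t‖ ≤ F * t ^ (-((2 * N + 1 : ℕ) : ℝ)) := by
      refine hz_le σ fun θ => ?_
      have h2 := (h0 (el K ((2 / Module.finrank ℚ K) * Real.log t, θ))).1
      rw [det_t hL ht] at h2
      rw [hF, Real.rpow_neg ht.le, Real.rpow_natCast, mul_assoc, ← mul_inv, ← mul_pow, ← div_eq_mul_inv,
        le_div_iff₀ (by positivity), mul_comm (Vb 𝔟) t]
      exact h2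
    refine h1.trans ?_
    have : 0 < t ^ (-((2 * N + 1 : ℕ) : ℝ)) := Real.rpow_pos_of_pos ht _
    nlinarith
  · have h1 : ‖hz κ ψ C σ τ t‖ ≤ G * t ^ ((2 * N : ℕ) : ℝ) := by
      refine hz_le σ fun θ => ?_
      have h2 := (h0 (el K ((2 / Module.finrank ℚ K) * Real.log t, θ))).2
      rw [det_t hL ht] at h2
      rw [Real.rpow_natCast]
      refine h2.trans (le_of_eq ?_)
      rw [hG]
      ring
    refine h1.trans ?_
    have : 0 < t ^ ((2 * N : ℕ) : ℝ) := Real.rpow_pos_of_pos ht _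
    nlinarith

lemma Dat.hz_loc (h : Dat p 𝔪 𝔭 ν κ τ ψ 𝔟 χ o C E T r u) (σ : InfinitePlace K → ℝ) :
    LocallyIntegrableOn (hz κ ψ C σ τ) (Ioi 0) := by
  obtain ⟨C0, -, h0⟩ := mellin_hz K
  have h1 := (h0 p 𝔪 𝔭 ν κ τ ψ 𝔟 χ o C E T r u h σ 2 (by simp)).1
  unfold MellinConvergent at h1
  have h2 : LocallyIntegrableOn (fun t : ℝ => ((t : ℂ))⁻¹ • (((t : ℂ) ^ ((2 : ℂ) - 1)) • hz κ ψ C σ τ t)) (Ioi 0) := by
    refine h1.locallyIntegrableOn.continuousOn_smul (isOpen_Ioi.isLocallyClosed) ?_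
    refine ContinuousOn.inv₀ (by fun_prop) fun t ht => ?_
    exact_mod_cast (ne_of_gt (mem_Ioi.1 ht))
  refine h2.congr ?_
  refine (ae_restrict_iff' measurableSet_Ioi).2 (Eventually.of_forall fun t ht => ?_)
  have ht0 : (t : ℂ) ≠ 0 := by exact_mod_cast (ne_of_gt (mem_Ioi.1 ht))
  have e1 : (2 : ℂ) - 1 = 1 := by norm_num
  simp only
  rw [e1, Complex.cpow_one, smul_eq_mul, smul_eq_mul, inv_mul_cancel_left₀ ht0]

lemma Dat.hz_top (h : Dat p 𝔪 𝔭 ν κ τ ψ 𝔟 χ o C E T r u) (σ : InfinitePlace K → ℝ) (N : ℕ) :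
    hz κ ψ C σ τ =O[atTop] fun t : ℝ => t ^ (-((2 * N + 1 : ℕ) : ℝ)) := by
  obtain ⟨D, hD, h0⟩ := h.hz_dec σ N
  refine IsBigO.of_bound D ?_
  filter_upwards [eventually_gt_atTop 0] with t ht
  rw [Real.norm_of_nonneg (Real.rpow_nonneg ht.le _)]
  exact (h0 t ht).1

lemma Dat.hz_bot (h : Dat p 𝔪 𝔭 ν κ τ ψ 𝔟 χ o C E T r u) (σ : InfinitePlace K → ℝ) (N : ℕ) :
    hz κ ψ C σ τ =O[𝓝[>] 0] fun t : ℝ => t ^ (-(-((2 * N : ℕ) : ℝ))) := by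
  obtain ⟨D, hD, h0⟩ := h.hz_dec σ N
  refine IsBigO.of_bound D ?_
  filter_upwards [self_mem_nhdsWithin] with t ht
  have ht0 : (0 : ℝ) < t := ht
  rw [Real.norm_of_nonneg (Real.rpow_nonneg ht0.le _), neg_neg]
  exact (h0 t ht0).2

/-- the Mellin transform is entire -/
theorem Dat.mel_diff (h : Dat p 𝔪 𝔭 ν κ τ ψ 𝔟 χ o C E T r u) (σ : InfinitePlace K → ℝ) :
    Differentiable ℂ (mellin (hz κ ψ C σ τ)) := by
  intro s
  obtain ⟨N, hN⟩ := exists_nat_gt |s.re|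
  have h1 := (abs_lt.1 hN)
  refine mellin_differentiableAt_of_isBigO_rpow (h.hz_loc σ) (h.hz_top σ N) ?_ (h.hz_bot σ N) ?_
  · push_cast
    have : (0 : ℝ) ≤ N := Nat.cast_nonneg N
    linarith [h1.2]
  · push_cast
    have : (0 : ℝ) ≤ N := Nat.cast_nonneg N
    linarith [h1.1]

lemma Dat.mel_conv (h : Dat p 𝔪 𝔭 ν κ τ ψ 𝔟 χ o C E T r u) (σ : InfinitePlace K → ℝ) (s : ℂ) :
    MellinConvergent (hz κ ψ C σ τ) s := by
  obtain ⟨N, hN⟩ := exists_nat_gt |s.re|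
  have h1 := (abs_lt.1 hN)
  refine mellinConvergent_of_isBigO_rpow (h.hz_loc σ) (h.hz_top σ N) ?_ (h.hz_bot σ N) ?_
  · push_cast
    have : (0 : ℝ) ≤ N := Nat.cast_nonneg N
    linarith [h1.2]
  · push_cast
    have : (0 : ℝ) ≤ N := Nat.cast_nonneg N
    linarith [h1.1]

end Run7.h343.NG
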