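import Pool.Agent.Run7.h343.NG.Cos
import Pool.Agent.Run7.h343.NF.FE

/-!
The functional equation of the shifted and twisted theta series.
-/

set_option autoImplicit false
set_option linter.unusedSectionVars false

namespace Run7.h343.NG

open Complex Finset
open Pool.Agent.H442R2
open Pool.Agent.Y766.R7
open Pool.Agent.Y766.R3 (eu FF FH)
open Run7.h343.NF

variable {ι : Type} [Fintype ι] [DecidableEq ι]

/-- the dual centre -/
noncomputable def dz (σ η : ι → ℝ) : EuclideanSpace ℝ ι :=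
  WithLp.toLp 2 fun i => (Real.sqrt (1 + σ i ^ 2))⁻¹ * η i

/-- the dual twist -/
noncomputable def de (σ : ι → ℝ) (z : EuclideanSpace ℝ ι) : ι → ℝ := fun i => -(Real.sqrt (1 + σ i ^ 2) * z i)

theorem poisZ {A : Matrix ι ι ℝ} (hA : A.det ≠ 0) (o : ι) {P : ℕ} (hP : 0 < P) {F : ℤ → ℂ}
    (hF : ∀ n k : ℤ, F (n + P * k) = F n) (hF1 : ∀ n, ‖F n‖ ≤ 1) (σ : ι → ℝ) (z : EuclideanSpace ℝ ι) (η : ι → ℝ) :
    ∑' β, F (β o) * gz A σ z η β = ((((|A.det| * P)⁻¹ : ℝ) : ℂ) * ∏ i, (1 / (1 + σ i * I)) ^ (1 / 2 : ℂ)) *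
      cexp (((2 * Real.pi * ∑ i, η i * z i : ℝ) : ℂ) * I) *
      ∑' h, FH P F (h o) * gz (Aq A σ o P) (-σ) (dz σ η) (de σ z) h := by
  have hP0 : (0 : ℝ) < P := by exact_mod_cast hP
  have hsum : Summable fun β : ι → ℤ => F (β o) * gz A σ z η β := by
    refine Summable.of_norm_bounded (ga_summable hA z) fun β => ?_
    rw [norm_mul, gz_norm]
    exact mul_le_of_le_one_left (ga_nonneg _ _ _) (hF1 _)
  rw [tsum_dec o hP hsum]
  obtain ⟨B, hB⟩ : ∃ B, B = A * Dm o (P : ℝ) := ⟨_, rfl⟩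
  have hBd : B.det ≠ 0 := by
    rw [hB, Matrix.det_mul, Dm_det]
    exact mul_ne_zero hA hP0.ne'
  have hBabs : |B.det|⁻¹ = (|A.det| * P)⁻¹ := by
    rw [hB, Matrix.det_mul, Dm_det, abs_mul, abs_of_pos hP0]
  have hper : ∀ (a : ℕ) (x : ι → ℤ), F (cls o (a : ℕ) P x o) = F a := by
    intro a x
    rw [cls_o]
    exact hF a (x o)
  have hc : ∀ i, 0 < (1 + σ i * I : ℂ).re := by intro i; simp
  have hc2 : ∀ i, (1 + σ i * I : ℂ) ≠ 0 := by
    intro i h; have := hc i; rw [h] at this; simp at this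
  obtain ⟨ph, hph⟩ : ∃ ph : ℂ, ph = cexp (((2 * Real.pi * ∑ i, η i * z i : ℝ) : ℂ) * I) := ⟨_, rfl⟩
  obtain ⟨T, hT⟩ : ∃ T : ℂ, T = ((((|A.det| * P)⁻¹ : ℝ) : ℂ) * ∏ i, (1 / (1 + σ i * I)) ^ (1 / 2 : ℂ)) * ph := ⟨_, rfl⟩
  obtain ⟨bz, hbz⟩ : ∃ bz : ι → ℝ, bz = (B⁻¹).mulVec z := ⟨_, rfl⟩
  have hBbz : B.mulVec bz = fun i => z i := by
    rw [hbz, Matrix.mulVec_mulVec, Matrix.mul_nonsing_inv _ (isUnit_iff_ne_zero.2 hBd), Matrix.one_mulVec]
  have hcls : ∀ a : ℕ, ∑' x, gz A σ z η (cls o (a : ℕ) P x) =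
      T * ∑' h, KF.e (((h o : ℤ) : ℝ) * ((a : ℝ) / P)) * gz (Aq A σ o P) (-σ) (dz σ η) (de σ z) h := by
    intro a
    have e1 : ∀ x : ι → ℤ, gz A σ z η (cls o (a : ℕ) P x) = ph *
        gc (fun i => 1 + σ i * I) (fun i => I * η i)
          (B.mulVec (((fun i => if i = o then (a : ℝ) / P else 0) - bz) + cst x)) := by
      intro x
      rw [sub_add_eq_add_sub, Matrix.mulVec_sub, hBbz, hB, ← cls_cst A o hP, hph]
      unfold gz gc
      rw [← Complex.exp_add, ofReal_mul, ofReal_sum, mul_sum, sum_mul, ← sum_add_distrib]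
      congr 1
      refine sum_congr rfl fun i _ => ?_
      rw [em_apply, Pi.sub_apply]
      push_cast
      ring
    simp_rw [e1]
    rw [tsum_mul_left, pois' hBd hc, ← tsum_mul_left, ← tsum_mul_left, ← tsum_mul_left]
    refine tsum_congr fun h => ?_
    have e0 : ∑ i, (h i : ℝ) * ((fun i => if i = o then (a : ℝ) / P else 0) - bz) i =
        h o * ((a : ℝ) / P) - ∑ i, (h i : ℝ) * bz i := by
      rw [← ph_sum o h, ← sum_sub_distrib]
      refine sum_congr rfl fun i _ => ?_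
      rw [Pi.sub_apply]
      ring
    have e00 : ∑ i, (h i : ℝ) * bz i = ∑ i, (dl B).mulVec (cst h) i * z i := by
      have h1 := dl_dot hBd (cst h) bz
      rw [hBbz] at h1
      rw [h1]
      rfl
    rw [e0, hT, hBabs]
    have e6 : cexp (2 * Real.pi * I * (((h o : ℝ) * ((a : ℝ) / P) - ∑ i, (h i : ℝ) * bz i : ℝ) : ℂ)) =
        KF.e (((h o : ℤ) : ℝ) * ((a : ℝ) / P)) * cexp (-(2 * Real.pi * I * ((∑ i, (h i : ℝ) * bz i : ℝ) : ℂ))) := by
      unfold KF.e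
      rw [← Complex.exp_add]
      congr 1
      push_cast
      ring
    have e7 : gh (fun i => 1 + σ i * I) (fun i => I * η i) ((dl B).mulVec (cst h)) *
        cexp (-(2 * Real.pi * I * ((∑ i, (h i : ℝ) * bz i : ℝ) : ℂ))) =
        (∏ i, (1 / (1 + σ i * I)) ^ (1 / 2 : ℂ)) * gz (Aq A σ o P) (-σ) (dz σ η) (de σ z) h := by
      unfold gh gz
      rw [mul_assoc, ← Complex.exp_add, e00, ofReal_sum, mul_sum, ← sum_neg_distrib, ← sum_add_distrib]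
      congr 2
      refine sum_congr rfl fun i _ => ?_
      rw [em_Aq, ← hB]
      have hz' : (dz σ η) i = (Real.sqrt (1 + σ i ^ 2))⁻¹ * η i := rfl
      have he' : (de σ z) i = -(Real.sqrt (1 + σ i ^ 2) * z i) := rfl
      rw [hz', he', Pi.neg_apply]
      obtain ⟨ξ, hξ⟩ : ∃ ξ : ℝ, ξ = (dl B).mulVec (cst h) i := ⟨_, rfl⟩
      rw [← hξ]
      obtain ⟨r, hr⟩ : ∃ r : ℝ, r = Real.sqrt (1 + σ i ^ 2) := ⟨_, rfl⟩
      have hr0 : 0 < r := by rw [hr]; exact rs_pos σ i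
      have hr2 : r ^ 2 = 1 + σ i ^ 2 := by rw [hr]; exact Real.sq_sqrt (by positivity)
      rw [← hr]
      have e8 : (r⁻¹ * ξ - r⁻¹ * η i) ^ 2 = (ξ - η i) ^ 2 * (1 + σ i ^ 2)⁻¹ := by
        rw [← hr2]
        field_simp
      have e9 : -(r * z i) * (r⁻¹ * ξ) = -(ξ * z i) := by field_simp
      rw [← ofReal_pow, e8, e9]
      have h3 := hc2 i
      have hI : I ^ 2 = -1 := I_sq
      have h4 : (1 + (σ i : ℂ) ^ 2) ≠ 0 := by
        have : (0 : ℝ) < 1 + σ i ^ 2 := by positivity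
        exact_mod_cast this.ne'
      have h6 : (1 + -(σ i : ℂ) * I) * (1 + (σ i : ℂ) ^ 2)⁻¹ = 1 / (1 + σ i * I) := by
        rw [← div_eq_mul_inv, div_eq_div_iff h4 h3]
        linear_combination (-(σ i : ℂ) ^ 2) * hI
      push_cast
      linear_combination (Real.pi * ((ξ : ℂ) - η i) ^ 2) * h6 +
        (Real.pi * ((ξ : ℂ) - η i) ^ 2 / (1 + σ i * I)) * hI
    rw [e6]
    linear_combination (ph * ((((|A.det| * P)⁻¹ : ℝ) : ℂ)) * KF.e (((h o : ℤ) : ℝ) * ((a : ℝ) / P))) * e7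
  have e5 : ∀ a ∈ range P, ∑' x, F (cls o (a : ℕ) P x o) * gz A σ z η (cls o (a : ℕ) P x) =
      ∑' h, T * ((F a * KF.e (((h o : ℤ) : ℝ) * ((a : ℝ) / P))) * gz (Aq A σ o P) (-σ) (dz σ η) (de σ z) h) := by
    intro a _
    simp_rw [hper]
    rw [tsum_mul_left, hcls, ← tsum_mul_left, ← tsum_mul_left]
    refine tsum_congr fun h => ?_
    ring
  rw [sum_congr rfl e5]
  have hAq := Aq_det_ne hA σ o hP0.ne'
  have hs : ∀ a ∈ range P, Summable fun h : ι → ℤ =>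
      T * ((F a * KF.e (((h o : ℤ) : ℝ) * ((a : ℝ) / P))) * gz (Aq A σ o P) (-σ) (dz σ η) (de σ z) h) := by
    intro a _
    refine Summable.mul_left _ ?_
    refine Summable.of_norm_bounded (ga_summable hAq (dz σ η)) fun h => ?_
    rw [norm_mul, norm_mul, ← Pool.Agent.Y766.R3.eu_eq, eu_norm, mul_one, gz_norm]
    exact mul_le_of_le_one_left (ga_nonneg _ _ _) (hF1 _)
  rw [← Summable.tsum_finsetSum hs, ← hph, ← hT, ← tsum_mul_left]
  refine tsum_congr fun h => ?_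
  rw [← mul_sum, ← sum_mul]
  unfold FH
  ring

/-- **functional equation**, in absolute value -/
theorem Th_fe {p ν : ℕ} (hp : p.Prime) {χ : DirichletCharacter ℂ (p ^ ν)} (hχ : χ.IsPrimitive) (o : ι)
    {A : Matrix ι ι ℝ} (hA : A.det ≠ 0) (σ : ι → ℝ) (z : EuclideanSpace ℝ ι) (η : ι → ℝ) :
    ‖Th χ o A σ z η‖ ^ 2 * |A.det| =
      ‖Th χ⁻¹ o (Aq A σ o ((p : ℝ) ^ ν)) (-σ) (dz σ η) (de σ z)‖ ^ 2 * |(Aq A σ o ((p : ℝ) ^ ν)).det| := by
  haveI : NeZero (p ^ ν) := ⟨pow_ne_zero _ hp.ne_zero⟩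
  have hp0 : (0 : ℝ) < p := by exact_mod_cast hp.pos
  have hdA : 0 < |A.det| := abs_pos.2 hA
  obtain ⟨τ, hτ⟩ : ∃ τ, τ = gaussSum χ (ZMod.stdAddChar : AddChar (ZMod (p ^ ν)) ℂ) := ⟨_, rfl⟩
  have hτn : ‖τ‖ ^ 2 = (p : ℝ) ^ ν := by
    have h1 := Pool.Agent.Helper112.MLS.norm_gauss (p ^ ν) hχ
    rw [← hτ] at h1
    rw [h1]
    push_cast
    rfl
  have hpois := poisZ hA o (P := p ^ ν) (pow_pos hp.pos ν) (F := fun n => χ (n : ZMod (p ^ ν))) (fun n k => by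
    congr 1
    rw [Int.cast_add, Int.cast_mul]
    have h0 : (((p ^ ν : ℕ) : ℤ) : ZMod (p ^ ν)) = 0 := by
      rw [Int.cast_natCast]; exact ZMod.natCast_self _
    rw [h0]; ring) (fun n => χ.norm_le_one _) σ z η
  have e1 : Th χ o A σ z η = ∑' β : ι → ℤ, (fun n : ℤ => χ (n : ZMod (p ^ ν))) (β o) * gz A σ z η β := rfl
  have e2 : ∑' h : ι → ℤ, FH (p ^ ν) (fun n => χ (n : ZMod (p ^ ν))) (h o) *
      gz (Aq A σ o ((p ^ ν : ℕ) : ℝ)) (-σ) (dz σ η) (de σ z) h =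
      τ * Th χ⁻¹ o (Aq A σ o ((p ^ ν : ℕ) : ℝ)) (-σ) (dz σ η) (de σ z) := by
    unfold Th
    rw [← tsum_mul_left]
    refine tsum_congr fun h => ?_
    rw [FH_char hχ, ← hτ]
    ring
  rw [e1, hpois, e2]
  have hpc : ((p ^ ν : ℕ) : ℝ) = (p : ℝ) ^ ν := by push_cast; rfl
  rw [hpc, norm_mul, norm_mul, norm_mul, norm_mul, Complex.norm_real, norm_prod, Complex.norm_exp_ofReal_mul_I,
    mul_one, mul_pow, mul_pow, mul_pow, hτn, Aq_det A σ o (by positivity), ← prod_pow]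
  simp_rw [norm_root]
  rw [Real.norm_eq_abs, sq_abs]
  field_simp

end Run7.h343.NG
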