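import Pool.Agent.Run7.h343.NG.De
import Pool.Agent.Run7.h343.NG.Ar

/-!
The partial `L`-functions: entire continuation and bound on the central line.
-/

set_option autoImplicit false
set_option linter.unusedSectionVars false

open NumberField Complex Filter Topology MeasureTheory Set Asymptotics

namespace Run7.h343.NG

open Run7.h343.NF
open Pool.Agent.Y773 (PIdl gen qt)

attribute [local instance] decEm

variable {K : Type} [Field K] [NumberField K]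

/-- the inverse of the archimedean factor -/
noncomputable def Gi (m : InfinitePlace K → ℕ) (σ τ : InfinitePlace K → ℝ) (s : ℂ) : ℂ :=
  ∏ w : InfinitePlace K, (((Real.sqrt (w.mult : ℝ) : ℝ) : ℂ) ^ ((w.mult : ℂ) * s) *
    ((1 + σ w * I) ^ (((w.mult : ℂ) * s - I * τ w + m w) / 2) *
      (Complex.Gammaℝ ((w.mult : ℂ) * s - I * τ w + m w))⁻¹))

lemma Gi_diff (m : InfinitePlace K → ℕ) (σ τ : InfinitePlace K → ℝ) : Differentiable ℂ (Gi m σ τ) := by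
  unfold Gi
  refine Differentiable.fun_finsetProd fun w _ => ?_
  refine Differentiable.mul ?_ (Differentiable.mul ?_ ?_)
  · exact Differentiable.const_cpow (by fun_prop) (Or.inl (sqrt_mult_ne w))
  · exact Differentiable.const_cpow (by fun_prop) (Or.inl (one_add_ne _))
  · exact Complex.differentiable_Gammaℝ_inv.comp (by fun_prop : Differentiable ℂ fun s : ℂ =>
      (w.mult : ℂ) * s - I * τ w + m w)

lemma Gz_Gi (m : InfinitePlace K → ℕ) (σ τ : InfinitePlace K → ℝ) {s : ℂ} (hs : 0 < s.re) :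
    Gi m σ τ s * Gz m σ τ s = 1 := by
  unfold Gi Gz
  rw [← Finset.prod_mul_distrib]
  refine Finset.prod_eq_one fun w _ => ?_
  have h1 : 0 < ((w.mult : ℂ) * s - I * τ w + m w).re := by
    have : ((w.mult : ℂ) * s - I * τ w + m w) = ((w.mult : ℝ) : ℂ) * s - (τ w : ℂ) * I + ((m w : ℝ) : ℂ) := by
      push_cast
      ring
    rw [this, add_re, sub_re, re_ofReal_mul, re_ofReal_mul, I_re, mul_zero, sub_zero, ofReal_re]
    have : (0 : ℝ) < w.mult := by exact_mod_cast w.mult_pos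
    positivity
  have h2 := Complex.Gammaℝ_ne_zero_of_re_pos h1
  have e1 : ((Real.sqrt (w.mult : ℝ) : ℝ) : ℂ) ^ ((w.mult : ℂ) * s) *
      ((Real.sqrt (w.mult : ℝ) : ℝ) : ℂ) ^ (-((w.mult : ℂ) * s)) = 1 := by
    rw [← Complex.cpow_add _ _ (sqrt_mult_ne w), add_neg_cancel, Complex.cpow_zero]
  have e2 : (1 + σ w * I : ℂ) ^ (((w.mult : ℂ) * s - I * τ w + m w) / 2) *
      (1 + σ w * I : ℂ) ^ (-(((w.mult : ℂ) * s - I * τ w + m w) / 2)) = 1 := by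
    rw [← Complex.cpow_add _ _ (one_add_ne _), add_neg_cancel, Complex.cpow_zero]
  have e3 : (Complex.Gammaℝ ((w.mult : ℂ) * s - I * τ w + m w))⁻¹ *
      Complex.Gammaℝ ((w.mult : ℂ) * s - I * τ w + m w) = 1 :=
    inv_mul_cancel₀ h2
  linear_combination ((1 + σ w * I : ℂ) ^ (((w.mult : ℂ) * s - I * τ w + m w) / 2) *
      (1 + σ w * I : ℂ) ^ (-(((w.mult : ℂ) * s - I * τ w + m w) / 2)) *
      ((Complex.Gammaℝ ((w.mult : ℂ) * s - I * τ w + m w))⁻¹ * Complex.Gammaℝ ((w.mult : ℂ) * s - I * τ w + m w))) *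
        e1 + ((Complex.Gammaℝ ((w.mult : ℂ) * s - I * τ w + m w))⁻¹ *
        Complex.Gammaℝ ((w.mult : ℂ) * s - I * τ w + m w)) * e2 + e3

/-- the exponents on the central line -/
noncomputable def aw (m : InfinitePlace K → ℕ) (w : InfinitePlace K) : ℝ := (w.mult : ℝ) / 4 + (m w : ℝ) / 2

lemma aw_pos (m : InfinitePlace K → ℕ) (w : InfinitePlace K) : 0 < aw m w := by
  unfold aw
  have h1 : (0 : ℝ) < w.mult := by exact_mod_cast w.mult_pos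
  positivity

/-- the constants at the archimedean places -/
noncomputable def cA (m : InfinitePlace K → ℕ) : ℝ := ∏ w : InfinitePlace K,
  (Real.sqrt (w.mult : ℝ) ^ ((w.mult : ℝ) / 2) * (Real.pi ^ (aw m w) * Ca (aw m w)))

lemma cA_pos (m : InfinitePlace K → ℕ) : 0 < cA m := by
  unfold cA
  refine Finset.prod_pos fun w _ => ?_
  have h1 : 0 < Real.sqrt (w.mult : ℝ) := Pool.Agent.Y773.G.sqrt_mult_pos w
  have h2 := Ca_pos (aw m w)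
  have := Real.pi_pos
  positivity

/-- the choice of the weights -/
theorem exists_weights (m : InfinitePlace K → ℕ) (τ : InfinitePlace K → ℝ) (t : ℝ) : ∃ σ : InfinitePlace K → ℝ,
    (∀ w, Real.sqrt (1 + σ w ^ 2) ≤ 2 * (1 + |t| + ∑ w, |τ w|)) ∧
    ‖Gi m σ τ (1 / 2 + t * I)‖ ≤ cA m * (2 * (1 + |t| + ∑ w, |τ w|)) ^ Fintype.card (InfinitePlace K) := by
  choose σ hσ1 hσ2 using fun w : InfinitePlace K => Ca_arp (aw_pos m w)
    (((w.mult : ℝ) * t - τ w) / 2)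
  have hS : ∀ w, Real.sqrt (1 + σ w ^ 2) ≤ 2 * (1 + |t| + ∑ w, |τ w|) := by
    intro w
    refine (hσ1 w).trans ?_
    have h1 : |((w.mult : ℝ) * t - τ w) / 2| ≤ |t| + |τ w| / 2 := by
      rw [abs_div, abs_of_pos (by norm_num : (0 : ℝ) < 2)]
      have h2 : |(w.mult : ℝ) * t - τ w| ≤ |(w.mult : ℝ) * t| + |τ w| := by
        have := abs_sub (w.mult * t) (τ w)
        exact this
      rw [abs_mul, Nat.abs_cast] at h2
      have h3 : w.mult ≤ 2 := by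
        unfold InfinitePlace.mult
        split_ifs <;> norm_num
      have h4 : (w.mult : ℝ) ≤ 2 := by exact_mod_cast h3
      have h5 : (w.mult : ℝ) * |t| ≤ 2 * |t| := mul_le_mul_of_nonneg_right h4 (abs_nonneg _)
      linarith
    have h2 : |τ w| ≤ ∑ w, |τ w| := Finset.single_le_sum (fun w _ => abs_nonneg (τ w)) (Finset.mem_univ w)
    have h3 := abs_nonneg (τ w)
    linarith
  refine ⟨σ, hS, ?_⟩
  obtain ⟨S, hSd⟩ : ∃ S, S = 2 * (1 + |t| + ∑ w, |τ w|) := ⟨_, rfl⟩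
  rw [← hSd] at hS ⊢
  unfold Gi cA
  rw [norm_prod, ← Finset.card_univ, ← Finset.prod_const, ← Finset.prod_mul_distrib]
  refine Finset.prod_le_prod (fun w _ => norm_nonneg _) fun w _ => ?_
  have hm : 0 < Real.sqrt (w.mult : ℝ) := Pool.Agent.Y773.G.sqrt_mult_pos w
  obtain ⟨v, hv⟩ : ∃ v : ℝ, v = ((w.mult : ℝ) * t - τ w) / 2 := ⟨_, rfl⟩
  obtain ⟨a, ha⟩ : ∃ a : ℝ, a = aw m w := ⟨_, rfl⟩
  have e1 : ((w.mult : ℂ) * (1 / 2 + t * I) - I * τ w + m w) / 2 = (a : ℂ) + v * I := by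
    rw [hv, ha]
    unfold aw
    push_cast
    ring
  have e2 : (w.mult : ℂ) * (1 / 2 + t * I) - I * τ w + m w = 2 * ((a : ℂ) + v * I) := by
    rw [← e1]
    ring
  have h2 := hσ2 w
  rw [← hv, ← ha] at h2
  rw [norm_mul, norm_mul, e1, e2, norm_inv, Complex.Gammaℝ_def, ← ha]
  have e3 : 2 * ((a : ℂ) + v * I) / 2 = (a : ℂ) + v * I := by ring
  have e4 : -(2 * ((a : ℂ) + v * I)) / 2 = ((-a : ℝ) : ℂ) + (-v : ℝ) * I := by
    push_cast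
    ring
  have e5 : ‖((Real.sqrt (w.mult : ℝ) : ℝ) : ℂ) ^ ((w.mult : ℂ) * (1 / 2 + t * I))‖ =
      Real.sqrt (w.mult : ℝ) ^ ((w.mult : ℝ) / 2) := by
    rw [Complex.norm_cpow_eq_rpow_re_of_pos hm]
    congr 1
    have : ((w.mult : ℂ) * (1 / 2 + t * I)) = (((w.mult : ℝ) / 2 : ℝ) : ℂ) + ((w.mult : ℝ) * t : ℝ) * I := by
      push_cast
      ring
    rw [this, add_re, ofReal_re, re_ofReal_mul, I_re, mul_zero, add_zero]
  have e6 : ‖(Real.pi : ℂ) ^ (((-a : ℝ) : ℂ) + (-v : ℝ) * I)‖ = (Real.pi ^ a)⁻¹ := by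
    rw [Complex.norm_cpow_eq_rpow_re_of_pos Real.pi_pos, add_re, ofReal_re, re_ofReal_mul, I_re, mul_zero,
      add_zero, Real.rpow_neg Real.pi_pos.le]
  rw [e3, e4, norm_mul, e5, e6, mul_inv, inv_inv]
  have hπ := Real.pi_pos
  have hCa := Ca_pos a
  calc Real.sqrt (w.mult : ℝ) ^ ((w.mult : ℝ) / 2) * (‖(1 + σ w * I : ℂ) ^ ((a : ℂ) + v * I)‖ *
        (Real.pi ^ a * ‖Gamma ((a : ℂ) + v * I)‖⁻¹)) =
      Real.sqrt (w.mult : ℝ) ^ ((w.mult : ℝ) / 2) * (Real.pi ^ a *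
        (‖(1 + σ w * I : ℂ) ^ ((a : ℂ) + v * I)‖ * ‖Gamma ((a : ℂ) + v * I)‖⁻¹)) := by ring
    _ ≤ Real.sqrt (w.mult : ℝ) ^ ((w.mult : ℝ) / 2) * (Real.pi ^ a * (Ca a * S)) := by
        have h3 : Ca a * Real.sqrt (1 + σ w ^ 2) ≤ Ca a * S := mul_le_mul_of_nonneg_left (hS w) hCa.le
        have h4 := h2.trans h3
        gcongr
    _ = _ := by ring

/-! ### the partial `L`-functions -/

/-- the partial `L`-function -/
noncomputable def Lq (C0 : ℝ) (κ : InfinitePlace K → ℤ)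
    (C : Matrix (K →+* ℂ) (K →+* ℂ) ℤ) (τ : InfinitePlace K → ℝ) (ψ : Ideal (𝓞 K) →*₀ ℂ) (𝔟 : Ideal (𝓞 K))
    (σ : InfinitePlace K → ℝ) (s : ℂ) : ℂ :=
  (C0 : ℂ)⁻¹ * (Gi (mq κ) σ τ s * (cu κ τ ψ 𝔟 * mellin (hz κ ψ C σ τ) s))

variable (K) in
theorem L_part : ∃ C0 : ℝ, 0 < C0 ∧
    ∀ (p : ℕ) (𝔪 𝔭 : Ideal (𝓞 K)) (ν : ℕ) (κ : InfinitePlace K → ℤ) (τ : InfinitePlace K → ℝ)
    (ψ : Ideal (𝓞 K) →*₀ ℂ) (𝔟 : Ideal (𝓞 K)) (χ : DirichletCharacter ℂ (p ^ ν)) (o : K →+* ℂ)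
    (C E : Matrix (K →+* ℂ) (K →+* ℂ) ℤ) (T : Type) [Fintype T] (r : T → (K →+* ℂ) → ℤ) (u : T → ℂ),
      Dat p 𝔪 𝔭 ν κ τ ψ 𝔟 χ o C E T r u → ∀ (σ : InfinitePlace K → ℝ),
      Differentiable ℂ (Lq C0 κ C τ ψ 𝔟 σ) ∧ ∀ s : ℂ, 1 < s.re →
        Lq C0 κ C τ ψ 𝔟 σ s = ∑' J : PIdl K, ψ (qt 𝔟 (gen J)) * ((Ideal.absNorm J.1 : ℕ) : ℂ) ^ (-s) := by
  obtain ⟨C0, hC0, h0⟩ := mellin_hz K
  refine ⟨C0, hC0, fun p 𝔪 𝔭 ν κ τ ψ 𝔟 χ o C E T _ r u h σ => ⟨?_, fun s hs => ?_⟩⟩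
  · exact ((Gi_diff (mq κ) σ τ).mul ((h.mel_diff σ).const_mul _)).const_mul _
  · unfold Lq
    have h1 := (h0 p 𝔪 𝔭 ν κ τ ψ 𝔟 χ o C E T r u h σ s hs).2
    have h2 := Gz_Gi (mq κ) σ τ (s := s) (by linarith)
    have h3 : (C0 : ℂ) ≠ 0 := by exact_mod_cast hC0.ne'
    rw [h1]
    calc _ = ((C0 : ℂ)⁻¹ * C0) * (Gi (mq κ) σ τ s * Gz (mq κ) σ τ s) *
          ∑' J : PIdl K, ψ (qt 𝔟 (gen J)) * ((Ideal.absNorm J.1 : ℕ) : ℂ) ^ (-s) := by ring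
      _ = _ := by rw [h2, inv_mul_cancel₀ h3]; ring

variable (K) in
/-- the bound for the Mellin transform -/
theorem mel_bound (κ : InfinitePlace K → ℤ) : ∃ Cθ : ℝ, 0 < Cθ ∧
    ∀ (p : ℕ) (𝔪 𝔭 : Ideal (𝓞 K)) (ν : ℕ) (τ : InfinitePlace K → ℝ)
    (ψ : Ideal (𝓞 K) →*₀ ℂ) (𝔟 : Ideal (𝓞 K)) (χ : DirichletCharacter ℂ (p ^ ν)) (o : K →+* ℂ)
    (C E : Matrix (K →+* ℂ) (K →+* ℂ) ℤ) (T : Type) [Fintype T] (r : T → (K →+* ℂ) → ℤ) (u : T → ℂ),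
      Dat p 𝔪 𝔭 ν κ τ ψ 𝔟 χ o C E T r u → 7 ≤ p → ∀ (σ : InfinitePlace K → ℝ) (S : ℝ),
      (∀ w, Real.sqrt (1 + σ w ^ 2) ≤ S) →
      ∀ s : ℂ, s.re = 1 / 2 → ‖mellin (hz κ ψ C σ τ) s‖ ≤ (Ideal.absNorm 𝔪 : ℝ) ^ 2 *
        (Real.sqrt (Cθ * (p : ℝ) ^ (Fintype.card (K →+* ℂ) + 4) * (1 + ν) ^ 2 *
          S ^ Fintype.card (K →+* ℂ) * ((p : ℝ) ^ ν) ^ (19 / 58 : ℝ) / Vb 𝔟) *
          (4 + Real.log (S ^ Fintype.card (K →+* ℂ) * (p : ℝ) ^ ν))) := by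
  obtain ⟨Cθ, hCθ, h0⟩ := SP_K K κ
  refine ⟨Cθ, hCθ, fun p 𝔪 𝔭 ν τ ψ 𝔟 χ o C E T _ r u h hp7 σ S hS s hs => ?_⟩
  obtain ⟨F, hF⟩ : ∃ F : ℝ, F = (Fintype.card T : ℝ) := ⟨_, rfl⟩
  have hF1 : 1 ≤ F := by rw [hF]; exact_mod_cast h.one_le
  have hF0 : 0 < F := by linarith
  have hFm : (Ideal.absNorm 𝔪 : ℝ) = F := by rw [hF, h.card]
  obtain ⟨M, hM⟩ : ∃ M, M = Cθ * (p : ℝ) ^ (Fintype.card (K →+* ℂ) + 4) * (1 + ν) ^ 2 *
          S ^ Fintype.card (K →+* ℂ) * ((p : ℝ) ^ ν) ^ (19 / 58 : ℝ) := ⟨_, rfl⟩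
  have hp0 : (0 : ℝ) < p := by exact_mod_cast h.hP.hp.pos
  have hp1 : (1 : ℝ) ≤ p := by exact_mod_cast h.hP.hp.one_le
  have hS0 : 0 ≤ S := (Real.sqrt_nonneg _).trans (hS (Classical.arbitrary _))
  have hM0 : 0 ≤ M := by rw [hM]; positivity
  have hL := h.isL
  have hV := Vb_pos hL.ne_bot
  have hR1 := Rσ_one_le σ
  have hRS := Rσ_le hS
  have hq1 : 1 ≤ (p : ℝ) ^ ν := one_le_pow₀ hp1
  have hQ1 : 1 ≤ S ^ Fintype.card (K →+* ℂ) * (p : ℝ) ^ ν := by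
    have := hR1.trans hRS
    nlinarith
  have hMF0 : 0 ≤ F ^ 4 * M := by positivity
  have key : ‖mellin (hz κ ψ C σ τ) s‖ ≤ Real.sqrt (F ^ 4 * M / Vb 𝔟) *
      (4 + Real.log (S ^ Fintype.card (K →+* ℂ) * (p : ℝ) ^ ν)) := by
    refine int_half hs (h.mel_conv σ s) hV hQ1 hMF0 fun t ht => ?_
    have htV : 0 < t * Vb 𝔟 := mul_pos ht hV
    have hmin0 : 0 ≤ min (t * Vb 𝔟)⁻¹ (min 1 (S ^ Fintype.card (K →+* ℂ) * (p : ℝ) ^ ν * (t * Vb 𝔟))) :=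
      le_min (by positivity) (le_min zero_le_one (by positivity))
    have h1 : ‖hz κ ψ C σ τ t‖ ≤ Real.sqrt (F ^ 4 * M * (t * Vb 𝔟)⁻¹ *
        min (t * Vb 𝔟)⁻¹ (min 1 (S ^ Fintype.card (K →+* ℂ) * (p : ℝ) ^ ν * (t * Vb 𝔟)))) := by
      refine hz_le σ fun θ => ?_
      apply Real.le_sqrt_of_sq_le
      have h2 := h0 p h.hP.hp hp7 ν h.hν χ h.prim o C E 𝔟 (𝔪 * 𝔟) 𝔭 hL h.chn
        (Pool.Agent.Y773.el K ((2 / Module.finrank ℚ K) * Real.log t, θ)) σ S hS (Ξf κ τ ψ C) T r u h.spl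
        h.one_le h.det
      have e5 : Cθ * (Fintype.card T : ℝ) ^ 4 * (p : ℝ) ^ (Fintype.card (K →+* ℂ) + 4) * (1 + ν) ^ 2 *
          S ^ Fintype.card (K →+* ℂ) * ((p : ℝ) ^ ν) ^ (19 / 58 : ℝ) = F ^ 4 * M := by
        rw [hM, hF]
        ring
      rw [Aq_det_inv σ o (by positivity), det_t hL ht, e5] at h2
      have h3 : min (t * Vb 𝔟)⁻¹ (min 1 (Rσ σ * (p : ℝ) ^ ν * (t * Vb 𝔟))) ≤
          min (t * Vb 𝔟)⁻¹ (min 1 (S ^ Fintype.card (K →+* ℂ) * (p : ℝ) ^ ν * (t * Vb 𝔟))) := by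
        refine min_le_min le_rfl (min_le_min le_rfl ?_)
        gcongr
      have h4 := h2.trans (mul_le_mul_of_nonneg_left h3 hMF0)
      rw [← le_div_iff₀ htV] at h4
      refine h4.trans (le_of_eq ?_)
      rw [div_eq_mul_inv]
      ring
    calc _ ≤ (Real.sqrt (F ^ 4 * M * (t * Vb 𝔟)⁻¹ *
        min (t * Vb 𝔟)⁻¹ (min 1 (S ^ Fintype.card (K →+* ℂ) * (p : ℝ) ^ ν * (t * Vb 𝔟))))) ^ 2 :=
          pow_le_pow_left₀ (norm_nonneg _) h1 2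
      _ = _ := Real.sq_sqrt (by positivity)
  rw [← hM, hFm]
  refine key.trans (le_of_eq ?_)
  have e1 : Real.sqrt (F ^ 4 * M / Vb 𝔟) = F ^ 2 * Real.sqrt (M / Vb 𝔟) := by
    have e2 : F ^ 4 * M / Vb 𝔟 = (F ^ 2) ^ 2 * (M / Vb 𝔟) := by ring
    rw [e2, Real.sqrt_mul (by positivity), Real.sqrt_sq (by positivity)]
  rw [e1]
  ring

end Run7.h343.NG
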