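import Pool.Agent.Run7.h343.NG.Poi
import Pool.Agent.Run7.h343.NF.Off

/-!
The off-diagonal terms (shifted theta series).
-/

set_option autoImplicit false
set_option linter.unusedSectionVars false

namespace Run7.h343.NG

open Complex Finset
open Pool.Agent.Y766.R7
open Pool.Agent.H442R2
open Pool.Agent.Y766
open Pool.Agent.Y766.R3 (eu KL S_KLO S_PHI FF FH)
open Run7.h343.NF

variable {ι : Type} [Fintype ι] [DecidableEq ι]

/-- the correlations -/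
noncomputable def TT {q : ℕ} (χ : DirichletCharacter ℂ q) (o : ι) (A : Matrix ι ι ℝ) (σ : ι → ℝ) (z : EuclideanSpace ℝ ι)
    (lam : ι → ℤ) : ℂ :=
  ∑' β, FF χ (lam o) (β o) * Wt A σ z lam β

lemma TT_triv {q : ℕ} (χ : DirichletCharacter ℂ q) (o : ι) {A : Matrix ι ι ℝ} (hA : A.det ≠ 0) (σ : ι → ℝ) (z : EuclideanSpace ℝ ι)
    (lam : ι → ℤ) : ‖TT χ o A σ z lam‖ ≤
      Real.exp (-(Real.pi * ‖em A lam‖ ^ 2 / 2)) * GE (em (Real.sqrt 2 • A)) := by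
  unfold TT
  have hX := smul_det_ne hA s2_pos.ne'
  refine (tsum_of_norm_bounded ((ga_summable hX (Real.sqrt 2 • z - (Real.sqrt 2 / 2) • em A lam)).mul_left
    (Real.exp (-(Real.pi * ‖em A lam‖ ^ 2 / 2)))).hasSum fun β => ?_).trans ?_
  · rw [norm_mul, Wt_eq]
    exact mul_le_of_le_one_left (mul_nonneg (Real.exp_pos _).le (ga_nonneg _ _ _)) (FF_norm _ _ _)
  · rw [tsum_mul_left]
    exact mul_le_mul_of_nonneg_left ((em_GW hX).le _) (Real.exp_pos _).le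

variable {p ν m : ℕ} {o : ι} {CG : ℝ} {A : Matrix ι ι ℝ}

lemma TT_pois [NeZero (p ^ (ν - m))] (hp : p.Prime) (hp2 : p ≠ 2) (hA : A.det ≠ 0) (hm : 1 ≤ m) (hmν : m < ν)
    {χ : DirichletCharacter ℂ (p ^ ν)} (hχ : χ.IsPrimitive) {l : ι → ℤ} (hl : ¬ (p : ℤ) ∣ l o)
    (σ : ι → ℝ) (z : EuclideanSpace ℝ ι) : TT χ o A σ z (mo o ((p : ℤ) ^ m) l) =
      (((|A.det| * (p : ℝ) ^ (ν - m))⁻¹ * (Real.sqrt 2)⁻¹ ^ Fintype.card ι *
        Real.exp (-(Real.pi * ‖em A (mo o ((p : ℤ) ^ m) l)‖ ^ 2 / 2)) : ℝ) : ℂ) *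
      ∑' h, FH (p ^ (ν - m)) (FF χ ((p : ℤ) ^ m * l o)) (h o) *
        lpz A (A * Dm o ((p : ℝ) ^ (ν - m))) z (mo o ((p : ℤ) ^ m) l) h *
        (ga (em (Mz A o ((p : ℝ) ^ (ν - m)))) (ctr A σ (mo o ((p : ℤ) ^ m) l)) h : ℂ) := by
  unfold TT
  have hper := (Pool.Agent.Y766.R3.get_data Pool.Agent.Y870.R3.phi (u := ν - m - 1) hp hp2 hm hmν
    (by omega) (by omega) hχ hl).1
  have h := poisT hA o (P := p ^ (ν - m)) (pow_pos hp.pos _) hper (FF_norm χ _) σ z (mo o ((p : ℤ) ^ m) l)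
  rw [mo_o]
  push_cast at h ⊢
  exact h

/-- pointwise bound -/
lemma TT_mid [NeZero (p ^ (ν - m))] (hp : p.Prime) (hp2 : p ≠ 2) (hW : WR p o CG ν A)
    (hm : 1 ≤ m) (hmν : 2 * m < ν) (hmν3 : ν ≤ 3 * m)
    {χ : DirichletCharacter ℂ (p ^ ν)} (hχ : χ.IsPrimitive) {l : ι → ℤ} (hl : ¬ (p : ℤ) ∣ l o)
    (σ : ι → ℝ) (z : EuclideanSpace ℝ ι) : ‖TT χ o A σ z (mo o ((p : ℤ) ^ m) l)‖ ≤
      ga (em ((Real.sqrt 2)⁻¹ • (A * Dm o ((p : ℝ) ^ m)))) 0 l *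
        (2 * (p : ℝ) ^ (m + 1) * ((|A.det| * (p : ℝ) ^ (ν - m))⁻¹ + CG)) := by
  have hp0 : (0 : ℝ) < p := by exact_mod_cast hp.pos
  have hp1 : (1 : ℝ) ≤ p := by exact_mod_cast hp.one_le
  have hA := hW.det
  have hdA : 0 < |A.det| := abs_pos.2 hA
  have hCG := hW.lb.CG_nonneg
  have hs2 := s2_pos
  have hK := Mz_WR hp.pos hW (r := ν - m) (by omega)
  rw [TT_pois hp hp2 hA hm (by omega) hχ hl σ z, norm_mul, Complex.norm_real, Real.norm_of_nonneg (by positivity),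
    exp_ga2]
  obtain ⟨-, Ψ, A', L, d, hΨ1, hΨ2, hA', hL, hFH⟩ :=
    Pool.Agent.Y766.R3.get_data Pool.Agent.Y870.R3.phi (u := 0) hp hp2 hm (by omega)
      (by omega) (by omega) hχ hl
  obtain ⟨k1, -, -⟩ := Pool.Agent.Y779.R3.klo p (ν - m) 0 hp hp2 (by omega) (by omega) Ψ hΨ1 hΨ2 A' L hA' hL
  have hFHb : ∀ j : ℤ, ‖FH (p ^ (ν - m)) (FF χ ((p : ℤ) ^ m * l o)) j‖ ≤ 2 * (p : ℝ) ^ (m + 1) := by
    intro j
    rw [hFH, norm_mul, ← Pool.Agent.Y766.R3.eu_eq, eu_norm, one_mul]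
    refine (k1 j).trans ?_
    have : (p : ℝ) ^ ((ν - m + 1) / 2) ≤ (p : ℝ) ^ (m + 1) := pow_le_pow_right₀ hp1 (by omega)
    linarith
  obtain ⟨P, hP⟩ : ∃ P : ℝ, P = (p : ℝ) ^ (ν - m) := ⟨_, rfl⟩
  have hP0 : 0 < P := by rw [hP]; positivity
  obtain ⟨c, hc⟩ : ∃ c : ℝ, c = (Real.sqrt 2)⁻¹ ^ Fintype.card ι := ⟨_, rfl⟩
  have hc0 : 0 < c := by rw [hc]; positivity
  have hc1 : c ≤ 1 := by
    rw [hc]
    exact pow_le_one₀ (by positivity) (inv_le_one_of_one_le₀ (Real.one_le_sqrt.2 (by norm_num)))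
  have hGE : GE (em (Mz A o ((p : ℝ) ^ (ν - m)))) ≤ 1 + CG * (c⁻¹ * (|A.det| * P)) := by
    refine hK.lb.GE_le.trans (le_of_eq ?_)
    rw [Mz_det hA (by positivity), ← hP, ← hc]
    field_simp
  have hS : ‖∑' h, FH (p ^ (ν - m)) (FF χ ((p : ℤ) ^ m * l o)) (h o) *
        lpz A (A * Dm o ((p : ℝ) ^ (ν - m))) z (mo o ((p : ℤ) ^ m) l) h *
        (ga (em (Mz A o ((p : ℝ) ^ (ν - m)))) (ctr A σ (mo o ((p : ℤ) ^ m) l)) h : ℂ)‖ ≤
      2 * (p : ℝ) ^ (m + 1) * (1 + CG * (c⁻¹ * (|A.det| * P))) := by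
    refine (tsum_of_norm_bounded ((ga_summable hK.det (ctr A σ (mo o ((p : ℤ) ^ m) l))).mul_left
      (2 * (p : ℝ) ^ (m + 1))).hasSum fun h => ?_).trans ?_
    · rw [norm_mul, norm_mul, (lpz_ch _ _ _ _).nrm, mul_one, Complex.norm_real,
        Real.norm_of_nonneg (ga_nonneg _ _ _)]
      exact mul_le_mul_of_nonneg_right (hFHb _) (ga_nonneg _ _ _)
    · rw [tsum_mul_left]
      exact mul_le_mul_of_nonneg_left (((em_GW hK.det).le _).trans hGE) (by positivity)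
  rw [← hc, ← hP]
  rw [← hP] at hS
  obtain ⟨g, hg⟩ : ∃ g : ℝ, g = ga (em ((Real.sqrt 2)⁻¹ • (A * Dm o ((p : ℝ) ^ m)))) 0 l := ⟨_, rfl⟩
  have hg0 : 0 ≤ g := by rw [hg]; exact ga_nonneg _ _ _
  rw [← hg]
  calc _ ≤ (|A.det| * P)⁻¹ * c * g *
        (2 * (p : ℝ) ^ (m + 1) * (1 + CG * (c⁻¹ * (|A.det| * P)))) := by
        gcongr
    _ = g * (2 * (p : ℝ) ^ (m + 1) * (c * (|A.det| * P)⁻¹ + CG)) := by
        field_simp
    _ ≤ _ := by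
        have : c * (|A.det| * P)⁻¹ ≤ (|A.det| * P)⁻¹ := mul_le_of_le_one_left (by positivity) hc1
        gcongr

/-- the main range -/
theorem off_main (o : ι) {CG : ℝ} (hCG : 0 ≤ CG) : ∃ C : ℝ, 0 < C ∧ ∀ p : ℕ, p.Prime → 7 ≤ p →
    ∀ (ν m s : ℕ) [NeZero (p ^ (ν - m))],
      1 ≤ m → 1 ≤ s → ν = 3 * m + s → 19 * s ≤ m →
    ∀ χ : DirichletCharacter ℂ (p ^ ν), χ.IsPrimitive → ∀ (A : Matrix ι ι ℝ) (σ : ι → ℝ) (z : EuclideanSpace ℝ ι) (S : ℝ),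
      WR p o CG ν A → 1 ≤ S → (∀ i, |σ i| ≤ S) →
      |A.det|⁻¹ ^ 2 ≤ S ^ (2 * Fintype.card ι) * (p : ℝ) ^ ν →
      (p : ℝ) ^ m ≤ 2 ^ Fintype.card ι * |A.det|⁻¹ →
    ∀ T : Finset (ι → ℤ), (∀ l ∈ T, ¬ (p : ℤ) ∣ l o) →
      ∑ l ∈ T, ‖TT χ o A σ z (mo o ((p : ℤ) ^ m) l)‖ ≤
        C * (p : ℝ) ^ (Fintype.card ι + 3) * (1 + ν) * S ^ Fintype.card ι * |A.det|⁻¹ := by
  obtain ⟨Cm, hCm, hmean⟩ := mean_g o hCG
  obtain ⟨n, hn⟩ : ∃ n, n = Fintype.card ι := ⟨_, rfl⟩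
  have hn1 : 1 ≤ n := by rw [hn]; exact Fintype.card_pos_iff.2 ⟨o⟩
  rw [← hn]
  refine ⟨(1 + CG) ^ 2 * 8 ^ n * Real.sqrt Cm, by positivity, ?_⟩
  intro p hp hp7 ν m s _ hm hs hν h19 χ hχ A σ z S hW hS1 hσ hXq hXm T hT
  have hp0 : (0 : ℝ) < p := by exact_mod_cast hp.pos
  have hp1 : (1 : ℝ) ≤ p := by exact_mod_cast hp.one_le
  have hp2 : p ≠ 2 := by omega
  have hS0 : 0 < S := by linarith
  have hA := hW.det
  have hdA : 0 < |A.det| := abs_pos.2 hA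
  have hs2 := s2_pos
  have hsq2 : Real.sqrt 2 ^ 2 = 2 := Real.sq_sqrt (by norm_num)
  obtain ⟨X, hX⟩ : ∃ X : ℝ, X = |A.det|⁻¹ := ⟨_, rfl⟩
  have hX0 : 0 < X := by rw [hX]; positivity
  obtain ⟨r, hr⟩ : ∃ r, r = ν - m := ⟨_, rfl⟩
  obtain ⟨t, ht⟩ : ∃ t : ℝ, t = (2 * p * S)⁻¹ := ⟨_, rfl⟩
  have ht0 : 0 < t := by rw [ht]; positivity
  have ht2 : t ≤ 1 / 2 := by
    rw [ht, one_div]
    exact inv_anti₀ (by norm_num) (ax1 hp1 hS1)
  have ht1 : t < 1 := by linarith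
  have htS : t * S ≤ 1 / 2 := by
    rw [ht]
    have : (2 * p * S)⁻¹ * S = 1 / (2 * p) := by field_simp
    rw [this]
    apply one_div_le_one_div_of_le (by norm_num)
    linarith
  obtain ⟨M0, hM0⟩ : ∃ M0, M0 = Mz A o ((p : ℝ) ^ r) := ⟨_, rfl⟩
  obtain ⟨MY, hMY⟩ : ∃ MY : Matrix ι ι ℝ, MY = (1 / 2 : ℝ) • (A * Dm o ((p : ℝ) ^ m)) := ⟨_, rfl⟩
  have hWY : WR p o CG (ν - m) MY := by
    rw [hMY]
    exact (hW.sub (by omega)).smul (by norm_num)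
  have hW0 : WR p o CG (ν - m) M0 := by
    rw [hM0, ← hr]
    exact Mz_WR hp.pos hW (by omega)
  have hWK : WR p o CG (ν - m) (t • M0) := hW0.smul ht0
  have hdY : |MY.det|⁻¹ = 2 ^ n * X / (p : ℝ) ^ m := by
    rw [hMY, smul_det_abs _ (by norm_num), Matrix.det_mul, Dm_det, abs_mul,
      abs_of_pos (by positivity : 0 < (p : ℝ) ^ m), ← hn, hX]
    rw [one_div, inv_pow]
    field_simp
  have hdK : |(t • M0).det|⁻¹ = (2 * Real.sqrt 2 * p * S) ^ n * ((p : ℝ) ^ r / X) := by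
    rw [smul_det_abs _ ht0, hM0, Mz_det hA (by positivity), ← hn, hX, ht]
    rw [show 2 * Real.sqrt 2 * (p : ℝ) * S = (2 * p * S) * Real.sqrt 2 by ring, mul_pow (2 * (p : ℝ) * S)]
    obtain ⟨w, hw⟩ : ∃ w : ℝ, w = 2 * p * S := ⟨_, rfl⟩
    have hw0 : 0 < w := by rw [hw]; positivity
    rw [← hw]
    simp only [inv_pow, mul_inv, inv_inv]
    field_simp
  -- the size of `K`
  have h2s : 1 ≤ 2 * Real.sqrt 2 := by
    have := Real.one_le_sqrt.2 (by norm_num : (1 : ℝ) ≤ 2)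
    linarith
  have hκK : (p : ℝ) ^ ((m + 11 * s + 2) / 3) ≤ |(t • M0).det|⁻¹ := by
    rw [hdK]
    refine le_of_pow_le_pow_left₀ (n := 2) (by norm_num) (by positivity) ?_
    have e1 : ((p : ℝ) ^ ((m + 11 * s + 2) / 3)) ^ 2 ≤ (p : ℝ) ^ (m + s + 2) := by
      rw [← pow_mul]
      exact pow_le_pow_right₀ hp1 (by omega)
    have e2 : (p : ℝ) * S ^ n ≤ (2 * Real.sqrt 2 * p * S) ^ n := by
      rw [show 2 * Real.sqrt 2 * (p : ℝ) * S = (2 * Real.sqrt 2) * p * S by ring, mul_pow, mul_pow]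
      have g1 : (p : ℝ) ≤ (p : ℝ) ^ n := le_self_pow₀ hp1 (by omega)
      have g2 : 1 ≤ (2 * Real.sqrt 2) ^ n := one_le_pow₀ h2s
      have g3 : (p : ℝ) ≤ (2 * Real.sqrt 2) ^ n * (p : ℝ) ^ n := by
        calc (p : ℝ) = 1 * p := (one_mul _).symm
          _ ≤ _ := by gcongr
      exact mul_le_mul_of_nonneg_right g3 (by positivity)
    have e3 : (p : ℝ) ^ (m + s + 2) ≤ ((p * S ^ n) * ((p : ℝ) ^ r / X)) ^ 2 := by
      have e4 : ((p * S ^ n) * ((p : ℝ) ^ r / X)) ^ 2 = (p : ℝ) ^ (m + s + 2) *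
          (S ^ (2 * n) * (p : ℝ) ^ ν / X ^ 2) := by
        have : ((p : ℝ) ^ r) ^ 2 * (p : ℝ) ^ 2 = (p : ℝ) ^ (m + s + 2) * (p : ℝ) ^ ν := by
          rw [← pow_mul, ← pow_add, ← pow_add]; congr 1; omega
        have e5 : S ^ (2 * n) = (S ^ n) ^ 2 := by rw [← pow_mul]; congr 1; ring
        rw [e5]
        field_simp
        linear_combination this
      rw [e4]
      refine le_mul_of_one_le_right (by positivity) ?_
      rw [one_le_div (by positivity), hX]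
      exact hXq
    calc _ ≤ (p : ℝ) ^ (m + s + 2) := e1
      _ ≤ ((p * S ^ n) * ((p : ℝ) ^ r / X)) ^ 2 := e3
      _ ≤ _ := by gcongr
  have hYK : (p : ℝ) ^ (m + s) ≤ |MY.det|⁻¹ * |(t • M0).det|⁻¹ := by
    have e1 : |MY.det|⁻¹ * |(t • M0).det|⁻¹ = (2 ^ n * (2 * Real.sqrt 2 * p * S) ^ n) * (p : ℝ) ^ (m + s) := by
      have : (p : ℝ) ^ r = (p : ℝ) ^ (m + s) * (p : ℝ) ^ m := by
        rw [← pow_add]; congr 1; omega
      rw [hdY, hdK, this]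
      field_simp
    rw [e1]
    refine le_mul_of_one_le_left (by positivity) ?_
    have g1 : (1 : ℝ) ≤ 2 ^ n := one_le_pow₀ (by norm_num)
    have g2 : 1 ≤ (2 * Real.sqrt 2 * p * S) ^ n := by
      exact one_le_pow₀ (ax2 h2s hp1 hS1)
    exact one_le_mul_of_one_le_of_one_le g1 g2
  have hGY := GE_pos (em_GW hWY.det)
  have hGK := GE_pos (em_GW hWK.det)
  obtain ⟨V, hVd⟩ : ∃ V : ℝ, V = GE (em MY) * GE (em (t • M0)) * (p : ℝ) ^ m * (Real.sqrt Cm * (p : ℝ) ^ 3 * (1 + ν)) := ⟨_, rfl⟩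
  have hV0 : 0 ≤ V := by rw [hVd]; positivity
  -- the family
  obtain ⟨G, hGd⟩ : ∃ G : (ι → ℤ) → (ι → ℤ) → ℂ, G = fun l h =>
    FH (p ^ (ν - m)) (FF χ ((p : ℤ) ^ m * l o)) (h o) *
      lpz A (A * Dm o ((p : ℝ) ^ (ν - m))) z (mo o ((p : ℤ) ^ m) l) h := ⟨_, rfl⟩
  have hGb : ∀ l h, ‖G l h‖ ≤ ((p ^ (ν - m) : ℕ) : ℝ) := by
    intro l h
    rw [hGd]
    simp only
    rw [norm_mul, (lpz_ch _ _ _ _).nrm, mul_one]
    exact FH_norm _ (FF_norm _ _) _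
  have hwt := wt_nonneg p o MY
  have hwle := wt_le p o MY
  have hVx : ∀ x : EuclideanSpace ℝ ι, ∑ l ∈ T, wt p o MY l *
      ‖∑' h, G l h * ex x (em M0 h) * (ga (em (t • M0)) 0 h : ℂ)‖ ≤ V := by
    intro x
    refine le_of_pow_le_pow_left₀ (n := 2) (by norm_num) hV0 ?_
    have hcs : (∑ l ∈ T, wt p o MY l * ‖∑' h, G l h * ex x (em M0 h) * (ga (em (t • M0)) 0 h : ℂ)‖) ^ 2 ≤
        (∑ l ∈ T, wt p o MY l) * ∑ l ∈ T, wt p o MY l *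
          ‖∑' h, G l h * ex x (em M0 h) * (ga (em (t • M0)) 0 h : ℂ)‖ ^ 2 := by
      refine sum_sq_le_sum_mul_sum_of_sq_le_mul T (fun l _ => hwt l)
        (fun l _ => mul_nonneg (hwt l) (sq_nonneg _)) (fun l _ => le_of_eq ?_)
      ring
    have h1 : ∑ l ∈ T, wt p o MY l ≤ GE (em MY) := by
      calc ∑ l ∈ T, wt p o MY l ≤ ∑ l ∈ T, ga (em MY) 0 l := sum_le_sum fun l _ => hwle l
        _ ≤ GE (em MY) := (ga_summable hWY.det 0).sum_le_tsum T fun l _ => ga_nonneg _ _ _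
    have hm2 := hmean p hp hp7 ν m s hm hs hν h19 χ hχ MY (t • M0) hWY hWK hκK hYK
      (fun l h => lpz A (A * Dm o ((p : ℝ) ^ (ν - m))) z (mo o ((p : ℤ) ^ m) l) h * ex x (em M0 h)) (fun l => by
        constructor
        · intro h
          rw [norm_mul, (lpz_ch _ _ _ _).nrm, ex_norm, one_mul]
        · intro h h'
          rw [(lpz_ch _ _ _ _).add, map_add, ex_add]
          ring) 0
    have e1 : ∀ l, wt p o MY l * ‖∑' h, FH (p ^ (ν - m)) (FF χ ((p : ℤ) ^ m * l o)) (h o) *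
        (lpz A (A * Dm o ((p : ℝ) ^ (ν - m))) z (mo o ((p : ℤ) ^ m) l) h * ex x (em M0 h)) *
          (ga (em (t • M0)) 0 h : ℂ)‖ ^ 2 =
        wt p o MY l * ‖∑' h, G l h * ex x (em M0 h) * (ga (em (t • M0)) 0 h : ℂ)‖ ^ 2 := by
      intro l
      congr 3
      refine tsum_congr fun h => ?_
      rw [hGd]
      ring
    simp_rw [e1] at hm2
    have hsm : Summable fun l => wt p o MY l *
        ‖∑' h, G l h * ex x (em M0 h) * (ga (em (t • M0)) 0 h : ℂ)‖ ^ 2 := by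
      refine Summable.of_nonneg_of_le (fun l => mul_nonneg (hwt l) (sq_nonneg _)) (fun l => ?_)
        ((ga_summable hWY.det 0).mul_right ((((p ^ (ν - m) : ℕ) : ℝ) * GE (em (t • M0))) ^ 2))
      refine mul_le_mul (hwle l) ?_ (sq_nonneg _) (ga_nonneg _ _ _)
      refine pow_le_pow_left₀ (norm_nonneg _) ?_ 2
      refine (tsum_of_norm_bounded ((ga_summable hWK.det 0).mul_left ((p ^ (ν - m) : ℕ) : ℝ)).hasSum
        fun h => ?_).trans ?_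
      · rw [norm_mul, norm_mul, ex_norm, mul_one, Complex.norm_real, Real.norm_of_nonneg (ga_nonneg _ _ _)]
        exact mul_le_mul_of_nonneg_right (hGb l h) (ga_nonneg _ _ _)
      · rw [tsum_mul_left]
        rfl
    have h2 : ∑ l ∈ T, wt p o MY l * ‖∑' h, G l h * ex x (em M0 h) * (ga (em (t • M0)) 0 h : ℂ)‖ ^ 2 ≤
        Cm * (p : ℝ) ^ 6 * (1 + ν) * GE (em MY) * GE (em (t • M0)) ^ 2 * ((p : ℝ) ^ m) ^ 2 :=
      (hsm.sum_le_tsum T fun l _ => mul_nonneg (hwt l) (sq_nonneg _)).trans hm2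
    calc _ ≤ (∑ l ∈ T, wt p o MY l) * ∑ l ∈ T, wt p o MY l *
          ‖∑' h, G l h * ex x (em M0 h) * (ga (em (t • M0)) 0 h : ℂ)‖ ^ 2 := hcs
      _ ≤ GE (em MY) * (Cm * (p : ℝ) ^ 6 * (1 + ν) * GE (em MY) * GE (em (t • M0)) ^ 2 * ((p : ℝ) ^ m) ^ 2) :=
          mul_le_mul h1 h2 (sum_nonneg fun l _ => mul_nonneg (hwt l) (sq_nonneg _)) hGY.le
      _ ≤ GE (em MY) * (Cm * (p : ℝ) ^ 6 * (1 + ν) ^ 2 * GE (em MY) * GE (em (t • M0)) ^ 2 * ((p : ℝ) ^ m) ^ 2) := by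
          have : (1 + (ν : ℝ)) ≤ (1 + (ν : ℝ)) ^ 2 := le_self_pow₀ (by linarith [Nat.cast_nonneg (α := ℝ) ν])
            (by norm_num)
          gcongr
      _ = V ^ 2 := by
          rw [hVd]
          have hsq : Real.sqrt Cm ^ 2 = Cm := Real.sq_sqrt hCm.le
          linear_combination (-(GE (em MY) * GE (em (t • M0)) * (p : ℝ) ^ m * ((p : ℝ) ^ 3 * (1 + ν))) ^ 2) * hsq
  have hsep := sep hW0.det ht0 ht1 G hGb (fun l => ctr A σ (mo o ((p : ℤ) ^ m) l)) hwt T hVx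
  have hone : ∀ l ∈ T, ‖TT χ o A σ z (mo o ((p : ℤ) ^ m) l)‖ ≤
      (|A.det| * (p : ℝ) ^ r)⁻¹ * (wt p o MY l *
      (Real.exp (-(Real.pi * ‖ctr A σ (mo o ((p : ℤ) ^ m) l)‖ ^ 2 * (t ^ 2 / (1 - t ^ 2)))) *
      ‖∑' h, G l h * (ga (em M0) (ctr A σ (mo o ((p : ℤ) ^ m) l)) h : ℂ)‖)) := by
    intro l hl
    rw [TT_pois hp hp2 hA hm (by omega) hχ (hT l hl) σ z, norm_mul, Complex.norm_real,
      Real.norm_of_nonneg (by positivity), ← hr, ← hM0]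
    obtain ⟨Nl, hNl⟩ : ∃ Nl : ℝ, Nl = ‖em A (mo o ((p : ℤ) ^ m) l)‖ ^ 2 := ⟨_, rfl⟩
    have hNl0 : 0 ≤ Nl := by rw [hNl]; positivity
    have e1 : Real.exp (-(Real.pi * ‖em A (mo o ((p : ℤ) ^ m) l)‖ ^ 2 / 2)) =
        wt p o MY l * Real.exp (-(Real.pi * Nl / 4)) := by
      unfold wt
      rw [if_neg (hT l hl), hMY, ← exp_ga A o p m l (1 / 2), ← Real.exp_add, ← hNl]
      congr 1
      ring
    have e2 : Real.exp (-(Real.pi * Nl / 4)) ≤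
        Real.exp (-(Real.pi * ‖ctr A σ (mo o ((p : ℤ) ^ m) l)‖ ^ 2 * (t ^ 2 / (1 - t ^ 2)))) := by
      apply Real.exp_le_exp.2
      have g1 := ctr_normSq A hσ (mo o ((p : ℤ) ^ m) l)
      rw [← hNl] at g1
      exact ax4 ht0 ht2 hS0.le htS hNl0 g1
    have hc1 : (Real.sqrt 2)⁻¹ ^ Fintype.card ι ≤ 1 :=
      pow_le_one₀ (by positivity) (inv_le_one_of_one_le₀ (Real.one_le_sqrt.2 (by norm_num)))
    rw [e1, hGd, hr]
    obtain ⟨Sn, hSn⟩ : ∃ Sn : ℝ, Sn = ‖∑' h, FH (p ^ (ν - m)) (FF χ ((p : ℤ) ^ m * l o)) (h o) *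
        lpz A (A * Dm o ((p : ℝ) ^ (ν - m))) z (mo o ((p : ℤ) ^ m) l) h *
        (ga (em M0) (ctr A σ (mo o ((p : ℤ) ^ m) l)) h : ℂ)‖ := ⟨_, rfl⟩
    have hn0 : 0 ≤ Sn := by rw [hSn]; exact norm_nonneg _
    simp only
    rw [← hSn]
    have hw0 := hwt l
    calc _ = (|A.det| * (p : ℝ) ^ (ν - m))⁻¹ * ((Real.sqrt 2)⁻¹ ^ Fintype.card ι * (wt p o MY l *
          (Real.exp (-(Real.pi * Nl / 4)) * Sn))) := by ring
      _ ≤ (|A.det| * (p : ℝ) ^ (ν - m))⁻¹ * (1 * (wt p o MY l *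
          (Real.exp (-(Real.pi * ‖ctr A σ (mo o ((p : ℤ) ^ m) l)‖ ^ 2 * (t ^ 2 / (1 - t ^ 2)))) * Sn))) := by
          gcongr
      _ = _ := by rw [one_mul]
  calc ∑ l ∈ T, ‖TT χ o A σ z (mo o ((p : ℤ) ^ m) l)‖ ≤ (|A.det| * (p : ℝ) ^ r)⁻¹ * V := by
        refine (sum_le_sum hone).trans ?_
        rw [← mul_sum]
        exact mul_le_mul_of_nonneg_left hsep (by positivity)
    _ ≤ (|A.det| * (p : ℝ) ^ r)⁻¹ * (((1 + CG) * (2 ^ n * X / (p : ℝ) ^ m)) *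
        ((1 + CG) * ((2 * Real.sqrt 2 * p * S) ^ n * ((p : ℝ) ^ r / X))) * (p : ℝ) ^ m *
        (Real.sqrt Cm * (p : ℝ) ^ 3 * (1 + ν))) := by
        rw [hVd]
        have g1 : GE (em MY) ≤ (1 + CG) * (2 ^ n * X / (p : ℝ) ^ m) := by
          refine hWY.lb.GE_le.trans ?_
          rw [div_eq_mul_inv, hdY]
          have : 1 ≤ 2 ^ n * X / (p : ℝ) ^ m := by
            rw [one_le_div (by positivity), hX]
            exact hXm
          exact ax3 this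
        have g2 : GE (em (t • M0)) ≤ (1 + CG) * ((2 * Real.sqrt 2 * p * S) ^ n * ((p : ℝ) ^ r / X)) := by
          refine hWK.lb.GE_le.trans ?_
          rw [div_eq_mul_inv, hdK]
          have : 1 ≤ (2 * Real.sqrt 2 * p * S) ^ n * ((p : ℝ) ^ r / X) := by
            rw [← hdK]
            exact le_trans (one_le_pow₀ hp1) hκK
          exact ax3 this
        gcongr
    _ = ((1 + CG) ^ 2 * (2 ^ n * (2 * Real.sqrt 2) ^ n) * Real.sqrt Cm) * (p : ℝ) ^ (n + 3) * (1 + ν) * S ^ n *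
        X := by
        rw [hX, show 2 * Real.sqrt 2 * (p : ℝ) * S = (2 * Real.sqrt 2) * p * S by ring, mul_pow, mul_pow, pow_add]
        field_simp
    _ ≤ _ := by
        rw [← hX]
        have g1 : (2 : ℝ) ^ n * (2 * Real.sqrt 2) ^ n ≤ 8 ^ n := by
          rw [← mul_pow]
          apply pow_le_pow_left₀ (by positivity)
          have : Real.sqrt 2 ≤ 2 := by
            rw [Real.sqrt_le_left (by norm_num)]
            norm_num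
          linarith
        gcongr

end Run7.h343.NG
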