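import Pool.Agent.Run7.h343.NG.Off
import Pool.Agent.Run7.h343.NF.Off2

/-!
The off-diagonal terms, all ranges (shifted theta series).
-/

set_option autoImplicit false
set_option linter.unusedSectionVars false

namespace Run7.h343.NG

open Complex Finset
open Run7.h343.NF

variable {ι : Type} [Fintype ι] [DecidableEq ι]

/-- trivial bound -/
lemma off_triv {p ν : ℕ} (hp : 0 < p) {o : ι} {CG : ℝ} {A : Matrix ι ι ℝ} (hW : WR p o CG ν A) {m : ℕ}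
    (hm : m ≤ ν) (χ : DirichletCharacter ℂ (p ^ ν)) (σ : ι → ℝ) (z : EuclideanSpace ℝ ι)
    (T : Finset (ι → ℤ)) (hT : ∀ l ∈ T, l ≠ 0) :
    ∑ l ∈ T, ‖TT χ o A σ z (mo o ((p : ℤ) ^ m) l)‖ ≤
      CG * 2 ^ Fintype.card ι * (|A.det|⁻¹ / (p : ℝ) ^ m) * (1 + CG * |A.det|⁻¹) := by
  have hp0 : (0 : ℝ) < p := by exact_mod_cast hp
  have hCG := hW.lb.CG_nonneg
  have hs2 := s2_pos
  have hM : ((Real.sqrt 2)⁻¹ • (A * Dm o ((p : ℝ) ^ m))).det ≠ 0 :=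
    smul_det_ne (hW m hm).det (by positivity)
  calc ∑ l ∈ T, ‖TT χ o A σ z (mo o ((p : ℤ) ^ m) l)‖ ≤
        ∑ l ∈ T, ga (em ((Real.sqrt 2)⁻¹ • (A * Dm o ((p : ℝ) ^ m)))) 0 l * GE (em (Real.sqrt 2 • A)) := by
        refine sum_le_sum fun l _ => ?_
        have := TT_triv χ o hW.det σ z (mo o ((p : ℤ) ^ m) l)
        rwa [exp_ga2] at this
    _ = (∑ l ∈ T, ga (em ((Real.sqrt 2)⁻¹ • (A * Dm o ((p : ℝ) ^ m)))) 0 l) * GE (em (Real.sqrt 2 • A)) := by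
        rw [sum_mul]
    _ ≤ _ := by
        refine mul_le_mul ((nz_fin hM T hT).trans (nz_s2 hp (hW m hm) hW.det)) (GE_s2 hW.lb)
          (GE_pos (em_GW (smul_det_ne hW.det hs2.ne'))).le (by positivity)

lemma off_triv2 {p ν : ℕ} (hp : 0 < p) {o : ι} {CG : ℝ} {A : Matrix ι ι ℝ} (hW : WR p o CG ν A) {m : ℕ}
    (hm : m ≤ ν) (χ : DirichletCharacter ℂ (p ^ ν)) (σ : ι → ℝ) (z : EuclideanSpace ℝ ι) {D : ℝ} (hD : 1 ≤ D)
    (hX : |A.det|⁻¹ ≤ D * (p : ℝ) ^ m)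
    (T : Finset (ι → ℤ)) (hT : ∀ l ∈ T, l ≠ 0) :
    ∑ l ∈ T, ‖TT χ o A σ z (mo o ((p : ℤ) ^ m) l)‖ ≤
      CG * 2 ^ Fintype.card ι * (1 + CG) * D * |A.det|⁻¹ := by
  have hp0 : (0 : ℝ) < p := by exact_mod_cast hp
  have hp1 : (1 : ℝ) ≤ p := by exact_mod_cast hp
  have hCG := hW.lb.CG_nonneg
  refine (off_triv hp hW hm χ σ z T hT).trans ?_
  obtain ⟨X, hXd⟩ : ∃ X : ℝ, X = |A.det|⁻¹ := ⟨_, rfl⟩
  have hX0 : 0 < X := by rw [hXd]; exact inv_pos.2 (abs_pos.2 hW.det)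
  rw [← hXd] at hX ⊢
  obtain ⟨P, hP⟩ : ∃ P : ℝ, P = (p : ℝ) ^ m := ⟨_, rfl⟩
  have hP1 : 1 ≤ P := by rw [hP]; exact one_le_pow₀ hp1
  rw [← hP] at hX ⊢
  have e1 : 1 + CG * X ≤ (1 + CG) * D * P := by
    have g1 : 1 ≤ D * P := by nlinarith
    nlinarith [mul_le_mul_of_nonneg_left hX hCG]
  calc CG * 2 ^ Fintype.card ι * (X / P) * (1 + CG * X) ≤
        CG * 2 ^ Fintype.card ι * (X / P) * ((1 + CG) * D * P) := by gcongr
    _ = _ := by field_simp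

theorem off_all (o : ι) {CG : ℝ} (hCG : 0 ≤ CG) : ∃ C : ℝ, 0 < C ∧ ∀ p : ℕ, p.Prime → 7 ≤ p →
    ∀ (ν m : ℕ), 1 ≤ m → m < ν → 19 * ν ≤ 58 * m →
    ∀ χ : DirichletCharacter ℂ (p ^ ν), χ.IsPrimitive → ∀ (A : Matrix ι ι ℝ) (σ : ι → ℝ) (z : EuclideanSpace ℝ ι) (S : ℝ),
      WR p o CG ν A → 1 ≤ S → (∀ i, |σ i| ≤ S) →
      |A.det|⁻¹ ^ 2 ≤ S ^ (2 * Fintype.card ι) * (p : ℝ) ^ ν →
    ∀ T : Finset (ι → ℤ), (∀ l ∈ T, ¬ (p : ℤ) ∣ l o) →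
      ∑ l ∈ T, ‖TT χ o A σ z (mo o ((p : ℤ) ^ m) l)‖ ≤
        C * (p : ℝ) ^ (Fintype.card ι + 3) * (1 + ν) * S ^ Fintype.card ι * |A.det|⁻¹ := by
  obtain ⟨C1, hC1, hmain⟩ := off_main o hCG
  obtain ⟨n, hn⟩ : ∃ n, n = Fintype.card ι := ⟨_, rfl⟩
  rw [← hn] at hmain ⊢
  refine ⟨C1 + 2 * CG * 2 ^ n * (1 + CG), by positivity, ?_⟩
  intro p hp hp7 ν m hm hmν h19 χ hχ A σ z S hW hS1 hσ hXq T hT
  haveI : NeZero (p ^ (ν - m)) := ⟨pow_ne_zero _ hp.ne_zero⟩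
  have hp0 : (0 : ℝ) < p := by exact_mod_cast hp.pos
  have hp1 : (1 : ℝ) ≤ p := by exact_mod_cast hp.one_le
  have hS0 : 0 < S := by linarith
  have hdA : 0 < |A.det| := abs_pos.2 hW.det
  obtain ⟨X, hX⟩ : ∃ X : ℝ, X = |A.det|⁻¹ := ⟨_, rfl⟩
  have hX0 : 0 < X := by rw [hX]; positivity
  have hT0 : ∀ l ∈ T, l ≠ 0 := fun l hl h => hT l hl (by rw [h]; exact dvd_zero _)
  have hp4 : 1 ≤ (p : ℝ) ^ (n + 3) := one_le_pow₀ hp1
  have hν1 : 1 ≤ 1 + (ν : ℝ) := by linarith [Nat.cast_nonneg (α := ℝ) ν]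
  have hSn : 1 ≤ S ^ n := one_le_pow₀ hS1
  have hSn2 : (S ^ n) ^ 2 = S ^ (2 * n) := by rw [← pow_mul]; congr 1; ring
  have hfin : ∀ c : ℝ, 0 ≤ c → c ≤ C1 + 2 * CG * 2 ^ n * (1 + CG) → c * p * S ^ n * X ≤
      (C1 + 2 * CG * 2 ^ n * (1 + CG)) * (p : ℝ) ^ (n + 3) * (1 + ν) * S ^ n * X := by
    intro c hc hcc
    have e1 : c * p ≤ (C1 + 2 * CG * 2 ^ n * (1 + CG)) * (p : ℝ) ^ (n + 3) * (1 + ν) := by
      have g2 : (p : ℝ) ≤ (p : ℝ) ^ (n + 3) := le_self_pow₀ hp1 (by omega)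
      calc c * p ≤ (C1 + 2 * CG * 2 ^ n * (1 + CG)) * (p : ℝ) ^ (n + 3) := by gcongr
        _ ≤ _ := le_mul_of_one_le_right (by positivity) hν1
    gcongr
  have hXr : ∀ j : ℕ, ν ≤ 2 * j → X ≤ S ^ n * (p : ℝ) ^ j := by
    intro j hj
    refine le_of_pow_le_pow_left₀ (n := 2) (by norm_num) (by positivity) ?_
    rw [mul_pow, hSn2, ← pow_mul, hX]
    refine hXq.trans ?_
    have : (p : ℝ) ^ ν ≤ (p : ℝ) ^ (j * 2) := pow_le_pow_right₀ hp1 (by omega)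
    gcongr
  rw [← hX]
  have hsm : CG * 2 ^ n * (1 + CG) ≤ C1 + 2 * CG * 2 ^ n * (1 + CG) := by
    have : 0 ≤ CG * 2 ^ n * (1 + CG) := by positivity
    nlinarith
  rcases le_or_gt ν (2 * m) with hA | hA
  · refine (off_triv2 hp.pos hW hmν.le χ σ z hSn (hX ▸ hXr m hA) T hT0).trans ?_
    rw [← hn, ← hX]
    refine le_trans ?_ (hfin (CG * 2 ^ n * (1 + CG)) (by positivity) hsm)
    have : CG * 2 ^ n * (1 + CG) ≤ CG * 2 ^ n * (1 + CG) * p := le_mul_of_one_le_right (by positivity) hp1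
    exact mul_le_mul_of_nonneg_right (mul_le_mul_of_nonneg_right this (by positivity)) hX0.le
  rcases le_or_gt ν (3 * m) with hB | hB
  · have hM : ((Real.sqrt 2)⁻¹ • (A * Dm o ((p : ℝ) ^ m))).det ≠ 0 :=
      smul_det_ne (hW m hmν.le).det (inv_ne_zero s2_pos.ne')
    obtain ⟨Pm, hPm⟩ : ∃ Pm : ℝ, Pm = (p : ℝ) ^ m := ⟨_, rfl⟩
    have hPm0 : 0 < Pm := by rw [hPm]; positivity
    obtain ⟨Pr, hPr⟩ : ∃ Pr : ℝ, Pr = (p : ℝ) ^ (ν - m) := ⟨_, rfl⟩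
    have hPr0 : 0 < Pr := by rw [hPr]; positivity
    have hXPr : X ≤ S ^ n * Pr := by rw [hPr]; exact hXr (ν - m) (by omega)
    have hXPr2 : X / Pr ≤ S ^ n := by rw [div_le_iff₀ hPr0]; exact hXPr
    calc ∑ l ∈ T, ‖TT χ o A σ z (mo o ((p : ℤ) ^ m) l)‖ ≤
          ∑ l ∈ T, ga (em ((Real.sqrt 2)⁻¹ • (A * Dm o ((p : ℝ) ^ m)))) 0 l *
          (2 * (p : ℝ) ^ (m + 1) * ((|A.det| * (p : ℝ) ^ (ν - m))⁻¹ + CG)) :=
          sum_le_sum fun l hl => TT_mid hp (by omega) hW hm hA hB hχ (hT l hl) σ z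
      _ = (∑ l ∈ T, ga (em ((Real.sqrt 2)⁻¹ • (A * Dm o ((p : ℝ) ^ m)))) 0 l) *
          (2 * (p : ℝ) ^ (m + 1) * ((|A.det| * (p : ℝ) ^ (ν - m))⁻¹ + CG)) := by rw [sum_mul]
      _ ≤ (CG * 2 ^ n * (X / Pm)) * (2 * (p : ℝ) ^ (m + 1) * (S ^ n + CG * S ^ n)) := by
          have g1 : ∑ l ∈ T, ga (em ((Real.sqrt 2)⁻¹ • (A * Dm o ((p : ℝ) ^ m)))) 0 l ≤ CG * 2 ^ n * (X / Pm) := by
            rw [hPm, hX, hn]
            exact (nz_fin hM T hT0).trans (nz_s2 hp.pos (hW m hmν.le) hW.det)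
          have g2 : (|A.det| * (p : ℝ) ^ (ν - m))⁻¹ + CG ≤ S ^ n + CG * S ^ n := by
            have e1 : (|A.det| * (p : ℝ) ^ (ν - m))⁻¹ = X / Pr := by
              rw [hX, hPr, mul_inv, div_eq_mul_inv]
            rw [e1]
            exact add_le_add hXPr2 (le_mul_of_one_le_right hCG hSn)
          exact mul_le_mul g1 (mul_le_mul_of_nonneg_left g2 (by positivity)) (by positivity) (by positivity)
      _ = (2 * CG * 2 ^ n * (1 + CG)) * p * S ^ n * X := by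
          rw [pow_succ, ← hPm]
          field_simp
      _ ≤ _ := hfin _ (by positivity) (by linarith)
  obtain ⟨s, hs⟩ : ∃ s, ν = 3 * m + s := ⟨ν - 3 * m, by omega⟩
  rcases le_or_gt ((p : ℝ) ^ m) (2 ^ n * X) with hY | hY
  · refine (hmain p hp hp7 ν m s hm (by omega) hs (by omega) χ hχ A σ z S hW hS1 hσ hXq
      (by rw [← hX]; exact hY) T hT).trans ?_
    rw [← hX]
    have : C1 ≤ C1 + 2 * CG * 2 ^ n * (1 + CG) := by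
      have : 0 ≤ 2 * CG * 2 ^ n * (1 + CG) := by positivity
      linarith
    gcongr
  · refine (off_triv2 hp.pos hW hmν.le χ σ z le_rfl (by
      rw [← hX, one_mul]
      have : X ≤ 2 ^ n * X := le_mul_of_one_le_left hX0.le (one_le_pow₀ (by norm_num))
      linarith) T hT0).trans ?_
    rw [← hn, ← hX, mul_one]
    refine le_trans ?_ (hfin (CG * 2 ^ n * (1 + CG)) (by positivity) hsm)
    have : CG * 2 ^ n * (1 + CG) ≤ CG * 2 ^ n * (1 + CG) * p * S ^ n := by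
      calc CG * 2 ^ n * (1 + CG) = CG * 2 ^ n * (1 + CG) * 1 * 1 := by ring
        _ ≤ _ := by gcongr
    exact mul_le_mul_of_nonneg_right this hX0.le

/-- all nonzero `l` -/
theorem off_sum (o : ι) {CG : ℝ} (hCG : 0 ≤ CG) : ∃ C : ℝ, 0 < C ∧ ∀ p : ℕ, p.Prime → 7 ≤ p →
    ∀ (ν m : ℕ), 1 ≤ m → m < ν → 19 * ν ≤ 58 * m →
    ∀ χ : DirichletCharacter ℂ (p ^ ν), χ.IsPrimitive → ∀ (A : Matrix ι ι ℝ) (σ : ι → ℝ) (z : EuclideanSpace ℝ ι) (S : ℝ),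
      WR p o CG ν A → 1 ≤ S → (∀ i, |σ i| ≤ S) →
      |A.det|⁻¹ ^ 2 ≤ S ^ (2 * Fintype.card ι) * (p : ℝ) ^ ν →
    ∀ T : Finset (ι → ℤ), (∀ l ∈ T, l ≠ 0) →
      ∑ l ∈ T, ‖TT χ o A σ z (mo o ((p : ℤ) ^ m) l)‖ ≤
        C * (p : ℝ) ^ (Fintype.card ι + 3) * (1 + ν) ^ 2 * S ^ Fintype.card ι * |A.det|⁻¹ := by
  classical
  obtain ⟨C1, hC1, hall⟩ := off_all o hCG
  obtain ⟨n, hn⟩ : ∃ n, n = Fintype.card ι := ⟨_, rfl⟩
  rw [← hn] at hall ⊢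
  refine ⟨C1 + CG * 2 ^ n * (1 + CG), by positivity, ?_⟩
  intro p hp hp7 ν m hm hmν h19 χ hχ A σ z S hW hS1 hσ hXq T hT
  have hp0 : (0 : ℝ) < p := by exact_mod_cast hp.pos
  have hp1 : (1 : ℝ) ≤ p := by exact_mod_cast hp.one_le
  have hS0 : 0 < S := by linarith
  have hdA : 0 < |A.det| := abs_pos.2 hW.det
  obtain ⟨X, hX⟩ : ∃ X : ℝ, X = |A.det|⁻¹ := ⟨_, rfl⟩
  have hX0 : 0 < X := by rw [hX]; positivity
  have hSn : 1 ≤ S ^ n := one_le_pow₀ hS1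
  have hSn2 : (S ^ n) ^ 2 = S ^ (2 * n) := by rw [← pow_mul]; congr 1; ring
  have hpZ : (p : ℤ) ≠ 0 := by exact_mod_cast hp.ne_zero
  -- reduction to the quotients
  have hq : ∀ (v : ℕ) (T' : Finset (ι → ℤ)), (∀ l ∈ T', (p : ℤ) ^ v ∣ l o) →
      ∑ l ∈ T', ‖TT χ o A σ z (mo o ((p : ℤ) ^ m) l)‖ =
        ∑ l ∈ T'.image (dv o ((p : ℤ) ^ v)), ‖TT χ o A σ z (mo o ((p : ℤ) ^ (m + v)) l)‖ := by
    intro v T' hT'
    have hc : ∀ l ∈ T', mo o ((p : ℤ) ^ v) (dv o ((p : ℤ) ^ v) l) = l := fun l hl => mo_dv o (hT' l hl)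
    rw [sum_image]
    · refine sum_congr rfl fun l hl => ?_
      rw [pow_add, ← mo_mo, hc l hl]
    · intro l hl l' hl' h
      rw [← hc l hl, ← hc l' hl', h]
  rw [split_pow p o _ T (ν - m)]
  have h1 : ∀ v ∈ range (ν - m), ∑ l ∈ T.filter (fun l => (p : ℤ) ^ v ∣ l o ∧ ¬ (p : ℤ) ^ (v + 1) ∣ l o),
      ‖TT χ o A σ z (mo o ((p : ℤ) ^ m) l)‖ ≤ C1 * (p : ℝ) ^ (n + 3) * (1 + ν) * S ^ n * |A.det|⁻¹ := by
    intro v hv
    rw [mem_range] at hv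
    rw [hq v _ (fun l hl => (mem_filter.1 hl).2.1)]
    refine hall p hp hp7 ν (m + v) (by omega) (by omega) (by omega) χ hχ A σ z S hW hS1 hσ hXq _ ?_
    intro l' hl' hd
    rw [mem_image] at hl'
    obtain ⟨l, hl, rfl⟩ := hl'
    rw [mem_filter] at hl
    apply hl.2.2
    have hc := congrFun (mo_dv o hl.2.1) o
    rw [mo_o] at hc
    rw [← hc, pow_succ]
    exact mul_dvd_mul_left _ hd
  have h2 : ∑ l ∈ T.filter (fun l => (p : ℤ) ^ (ν - m) ∣ l o), ‖TT χ o A σ z (mo o ((p : ℤ) ^ m) l)‖ ≤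
      CG * 2 ^ n * (1 + CG) * S ^ n * |A.det|⁻¹ := by
    rw [hq (ν - m) _ (fun l hl => (mem_filter.1 hl).2), hn]
    rw [show m + (ν - m) = ν by omega]
    refine off_triv2 hp.pos hW le_rfl χ σ z (by rw [← hn]; exact hSn) ?_ _ ?_
    · rw [← hn]
      refine le_of_pow_le_pow_left₀ (n := 2) (by norm_num) (by positivity) ?_
      rw [mul_pow, hSn2, ← pow_mul]
      refine hXq.trans ?_
      have : (p : ℝ) ^ ν ≤ (p : ℝ) ^ (ν * 2) := pow_le_pow_right₀ hp1 (by omega)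
      gcongr
    · intro l' hl' h0
      rw [mem_image] at hl'
      obtain ⟨l, hl, rfl⟩ := hl'
      rw [mem_filter] at hl
      have hc := mo_dv o hl.2
      rw [h0] at hc
      apply hT l hl.1
      rw [← hc]
      funext i
      unfold mo cls
      split_ifs <;> simp
  have hp4 : 1 ≤ (p : ℝ) ^ (n + 3) := one_le_pow₀ hp1
  have hν0 : 0 ≤ (ν : ℝ) := Nat.cast_nonneg ν
  have hνm : ((ν - m : ℕ) : ℝ) ≤ ν := by exact_mod_cast Nat.sub_le ν m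
  rw [← hX] at h1 h2 ⊢
  calc _ ≤ ∑ v ∈ range (ν - m), C1 * (p : ℝ) ^ (n + 3) * (1 + ν) * S ^ n * X +
        CG * 2 ^ n * (1 + CG) * S ^ n * X := add_le_add (sum_le_sum h1) h2
    _ = ((ν - m : ℕ) : ℝ) * (C1 * (p : ℝ) ^ (n + 3) * (1 + ν) * S ^ n * X) +
        CG * 2 ^ n * (1 + CG) * S ^ n * X := by rw [sum_const, card_range, nsmul_eq_mul]
    _ ≤ (1 + ν) * (C1 * (p : ℝ) ^ (n + 3) * (1 + ν) * S ^ n * X) +
        CG * 2 ^ n * (1 + CG) * ((p : ℝ) ^ (n + 3) * (1 + ν) ^ 2) * (S ^ n * X) := by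
        have e1 : 1 ≤ (p : ℝ) ^ (n + 3) * (1 + (ν : ℝ)) ^ 2 := by
          have : (1 : ℝ) ≤ (1 + (ν : ℝ)) ^ 2 := one_le_pow₀ (by linarith)
          nlinarith
        have e2 : ((ν - m : ℕ) : ℝ) ≤ 1 + ν := by linarith
        refine add_le_add (mul_le_mul_of_nonneg_right e2 (by positivity)) ?_
        calc CG * 2 ^ n * (1 + CG) * S ^ n * X = CG * 2 ^ n * (1 + CG) * 1 * (S ^ n * X) := by ring
          _ ≤ _ := by gcongr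
    _ = _ := by ring

end Run7.h343.NG
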