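import Pool.Agent.Run7.h343.NF.Bd

/-!
Poisson summation for the correlations of shifted theta series.
-/

set_option autoImplicit false
set_option linter.unusedSectionVars false

namespace Run7.h343.NG

open Complex Finset
open Pool.Agent.Y766.R7
open Pool.Agent.H442R2
open Pool.Agent.Y766
open Pool.Agent.Y766.R3 (eu FF FH)
open Run7.h343.NF

variable {ι : Type} [Fintype ι] [DecidableEq ι]

/-- the correlation weight -/
noncomputable def Wt (A : Matrix ι ι ℝ) (σ : ι → ℝ) (z : EuclideanSpace ℝ ι) (lam β : ι → ℤ) : ℂ :=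
  cexp (∑ i, -Real.pi * ((1 + σ i * I) * ((em A (β + lam) i - z i : ℝ) : ℂ) ^ 2 +
    (1 - σ i * I) * ((em A β i - z i : ℝ) : ℂ) ^ 2))

lemma Wt_norm (A : Matrix ι ι ℝ) (σ : ι → ℝ) (z : EuclideanSpace ℝ ι) (lam β : ι → ℤ) : ‖Wt A σ z lam β‖ =
    Real.exp (-(Real.pi * (‖em A (β + lam) - z‖ ^ 2 + ‖em A β - z‖ ^ 2))) := by
  unfold Wt
  rw [Complex.norm_exp, EuclideanSpace.norm_sq_eq, EuclideanSpace.norm_sq_eq]
  congr 1
  rw [Complex.re_sum, ← sum_add_distrib, mul_sum, ← sum_neg_distrib]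
  refine sum_congr rfl fun i _ => ?_
  rw [Real.norm_eq_abs, Real.norm_eq_abs, sq_abs, sq_abs, PiLp.sub_apply, PiLp.sub_apply]
  have e : (-Real.pi * ((1 + σ i * I) * ((em A (β + lam) i - z i : ℝ) : ℂ) ^ 2 +
      (1 - σ i * I) * ((em A β i - z i : ℝ) : ℂ) ^ 2) : ℂ) =
    ((-(Real.pi * ((em A (β + lam) i - z i) ^ 2 + (em A β i - z i) ^ 2)) : ℝ) : ℂ) +
    ((-(Real.pi * σ i * ((em A (β + lam) i - z i) ^ 2 - (em A β i - z i) ^ 2)) : ℝ) : ℂ) * I := by
    push_cast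
    ring
  rw [e, add_re, ofReal_re, re_ofReal_mul, I_re, mul_zero, add_zero]

lemma Wt_eq (A : Matrix ι ι ℝ) (σ : ι → ℝ) (z : EuclideanSpace ℝ ι) (lam β : ι → ℤ) : ‖Wt A σ z lam β‖ =
    Real.exp (-(Real.pi * ‖em A lam‖ ^ 2 / 2)) *
      ga (em (Real.sqrt 2 • A)) (Real.sqrt 2 • z - (Real.sqrt 2 / 2) • em A lam) β := by
  have e1 : em A (β + lam) - z = (em A β - z) + em A lam := by rw [map_add]; abel
  rw [Wt_norm, e1, par_id]
  unfold ga
  rw [← Real.exp_add, em_smul]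
  congr 1
  have e2 : Real.sqrt 2 • (em A β - z) - (-(Real.sqrt 2 / 2)) • em A lam =
      Real.sqrt 2 • em A β - (Real.sqrt 2 • z - (Real.sqrt 2 / 2) • em A lam) := by
    rw [smul_sub, neg_smul]
    abel
  rw [e2]
  ring

/-- the phase of the shift -/
noncomputable def zph (B : Matrix ι ι ℝ) (z : EuclideanSpace ℝ ι) (h : ι → ℤ) : ℂ :=
  cexp (((-(2 * Real.pi * ∑ i, (h i : ℝ) * (B⁻¹).mulVec z i) : ℝ) : ℂ) * I)

lemma zph_ch (B : Matrix ι ι ℝ) (z : EuclideanSpace ℝ ι) : IsCh (zph B z) := by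
  constructor
  · intro h
    unfold zph
    rw [Complex.norm_exp_ofReal_mul_I]
  · intro h h'
    unfold zph
    rw [← Complex.exp_add, ← add_mul, ← ofReal_add]
    congr 3
    rw [← neg_add, ← mul_add, ← sum_add_distrib]
    congr 2
    refine sum_congr rfl fun i _ => ?_
    rw [Pi.add_apply]
    push_cast
    ring

/-- the phase of a dual vector -/
noncomputable def lpz (A B : Matrix ι ι ℝ) (z : EuclideanSpace ℝ ι) (lam h : ι → ℤ) : ℂ :=
  lph A (dl B) lam h * zph B z h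

lemma lpz_ch (A B : Matrix ι ι ℝ) (z : EuclideanSpace ℝ ι) (lam : ι → ℤ) : IsCh (lpz A B z lam) := by
  constructor
  · intro h
    unfold lpz
    rw [norm_mul, (lph_ch A (dl B) lam).nrm, (zph_ch B z).nrm, one_mul]
  · intro h h'
    unfold lpz
    rw [(lph_ch A (dl B) lam).add, (zph_ch B z).add]
    ring

lemma Wt_gc (A : Matrix ι ι ℝ) (σ : ι → ℝ) (z : EuclideanSpace ℝ ι) (lam β : ι → ℤ) : Wt A σ z lam β =
    cexp (∑ i, -Real.pi * (1 + σ i * I) * (em A lam i : ℂ) ^ 2) *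
      gc (fun _ => 2) (fun i => -(1 + σ i * I) * em A lam i) (fun i => A.mulVec (cst β) i - z i) := by
  unfold Wt gc
  rw [← Complex.exp_add, ← sum_add_distrib]
  congr 1
  refine sum_congr rfl fun i _ => ?_
  rw [map_add, PiLp.add_apply, em_apply A β]
  push_cast
  ring

theorem poisT {A : Matrix ι ι ℝ} (hA : A.det ≠ 0) (o : ι) {P : ℕ} (hP : 0 < P) {F : ℤ → ℂ}
    (hF : ∀ n k : ℤ, F (n + P * k) = F n) (hF1 : ∀ n, ‖F n‖ ≤ 1) (σ : ι → ℝ) (z : EuclideanSpace ℝ ι) (lam : ι → ℤ) :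
    ∑' β, F (β o) * Wt A σ z lam β =
      (((|A.det| * P)⁻¹ * (Real.sqrt 2)⁻¹ ^ Fintype.card ι * Real.exp (-(Real.pi * ‖em A lam‖ ^ 2 / 2)) : ℝ) : ℂ) *
      ∑' h, FH P F (h o) * lpz A (A * Dm o P) z lam h * (ga (em (Mz A o P)) (ctr A σ lam) h : ℂ) := by
  have hP0 : (0 : ℝ) < P := by exact_mod_cast hP
  have hA2 : (Real.sqrt 2 • A).det ≠ 0 := by
    rw [Matrix.det_smul]
    exact mul_ne_zero (pow_ne_zero _ (by positivity)) hA
  have hsum : Summable fun β : ι → ℤ => F (β o) * Wt A σ z lam β := by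
    refine Summable.of_norm_bounded ((ga_summable hA2 (Real.sqrt 2 • z - (Real.sqrt 2 / 2) • em A lam)).mul_left
      (Real.exp (-(Real.pi * ‖em A lam‖ ^ 2 / 2)))) fun β => ?_
    rw [norm_mul, Wt_eq]
    exact mul_le_of_le_one_left (mul_nonneg (Real.exp_pos _).le (ga_nonneg _ _ _)) (hF1 _)
  rw [tsum_dec o hP hsum]
  obtain ⟨B, hB⟩ : ∃ B, B = A * Dm o (P : ℝ) := ⟨_, rfl⟩
  have hBd : B.det ≠ 0 := by
    rw [hB, Matrix.det_mul, Dm_det]
    exact mul_ne_zero hA hP0.ne'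
  have hBabs : |B.det|⁻¹ = (|A.det| * P)⁻¹ := by
    rw [hB, Matrix.det_mul, Dm_det, abs_mul, abs_of_pos hP0]
  have hper : ∀ (a : ℕ) (x : ι → ℤ), F (cls o (a : ℕ) P x o) = F a := by
    intro a x
    rw [cls_o]
    exact hF a (x o)
  obtain ⟨T, hT⟩ : ∃ T : ℝ, T = (|A.det| * P)⁻¹ * (Real.sqrt 2)⁻¹ ^ Fintype.card ι *
      Real.exp (-(Real.pi * ‖em A lam‖ ^ 2 / 2)) := ⟨_, rfl⟩
  obtain ⟨G, hG⟩ : ∃ G : (ι → ℤ) → ℂ, G = fun h => lpz A B z lam h *
    (ga (em (Mz A o P)) (ctr A σ lam) h : ℂ) := ⟨_, rfl⟩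
  obtain ⟨bz, hbz⟩ : ∃ bz : ι → ℝ, bz = (B⁻¹).mulVec z := ⟨_, rfl⟩
  have hBbz : B.mulVec bz = fun i => z i := by
    rw [hbz, Matrix.mulVec_mulVec, Matrix.mul_nonsing_inv _ (isUnit_iff_ne_zero.2 hBd), Matrix.one_mulVec]
  -- one residue class
  have hcls : ∀ a : ℕ, ∑' x, Wt A σ z lam (cls o (a : ℕ) P x) =
      (T : ℂ) * ∑' h, KF.e (((h o : ℤ) : ℝ) * ((a : ℝ) / P)) * G h := by
    intro a
    have e1 : ∀ x : ι → ℤ, Wt A σ z lam (cls o (a : ℕ) P x) =
        cexp (∑ i, -Real.pi * (1 + σ i * I) * (em A lam i : ℂ) ^ 2) *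
        gc (fun _ => 2) (fun i => -(1 + σ i * I) * em A lam i)
          (B.mulVec (((fun i => if i = o then (a : ℝ) / P else 0) - bz) + cst x)) := by
      intro x
      rw [Wt_gc, cls_cst A o hP, hB]
      congr 2
      rw [sub_add_eq_add_sub, Matrix.mulVec_sub, ← hB, hBbz]
      rfl
    simp_rw [e1]
    rw [tsum_mul_left, pois' hBd (by intro i; simp), ← tsum_mul_left, ← tsum_mul_left, ← tsum_mul_left]
    refine tsum_congr fun h => ?_
    have e0 : ∑ i, (h i : ℝ) * ((fun i => if i = o then (a : ℝ) / P else 0) - bz) i =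
        h o * ((a : ℝ) / P) - ∑ i, (h i : ℝ) * bz i := by
      rw [← ph_sum o h, ← sum_sub_distrib]
      refine sum_congr rfl fun i _ => ?_
      rw [Pi.sub_apply]
      ring
    rw [e0]
    have e2 := gh_two σ (fun i => em A lam i) ((dl B).mulVec (cst h))
    have e3 : (∑ i, em A lam i ^ 2) = ‖em A lam‖ ^ 2 := by
      rw [EuclideanSpace.norm_sq_eq]
      refine sum_congr rfl fun i _ => ?_
      rw [Real.norm_eq_abs, sq_abs]
    have e4 : ga (em (Mz A o P)) (ctr A σ lam) h = Real.exp (-(Real.pi * ∑ i, ((Real.sqrt 2)⁻¹ *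
        (dl B).mulVec (cst h) i + (Real.sqrt 2)⁻¹ * (σ i * em A lam i)) ^ 2)) := by
      unfold ga Mz
      rw [em_norm, ← hB]
      congr 3
      refine sum_congr rfl fun i _ => ?_
      rw [Matrix.smul_mulVec, Pi.smul_apply, smul_eq_mul]
      unfold ctr
      ring
    have e5 : lph A (dl B) lam h = cexp (((Real.pi * ∑ i, em A lam i * (dl B).mulVec (cst h) i : ℝ) : ℂ) * I) := rfl
    rw [hT, hG]
    simp only
    unfold lpz zph
    rw [e4, e5, ← e3, ← hbz]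
    have e6 : cexp (2 * Real.pi * I * (((h o * ((a : ℝ) / P) - ∑ i, (h i : ℝ) * bz i : ℝ)) : ℂ)) =
        KF.e (((h o : ℤ) : ℝ) * ((a : ℝ) / P)) *
          cexp (((-(2 * Real.pi * ∑ i, (h i : ℝ) * bz i) : ℝ) : ℂ) * I) := by
      unfold KF.e
      rw [← Complex.exp_add]
      congr 1
      push_cast
      ring
    rw [e6, hBabs]
    have e7 : ∀ (u v v' w x y : ℂ), u * w = x → u * (y * (w * (v * v'))) = v * v' * x * y := by
      intro u v v' w x y h; rw [← h]; ring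
    rw [e7 _ _ _ _ _ _ e2]
    push_cast
    ring
  have e5 : ∀ a ∈ range P, ∑' x, F (cls o (a : ℕ) P x o) * Wt A σ z lam (cls o (a : ℕ) P x) =
      ∑' h, (T : ℂ) * ((F a * KF.e (((h o : ℤ) : ℝ) * ((a : ℝ) / P))) * G h) := by
    intro a _
    simp_rw [hper]
    rw [tsum_mul_left, hcls, ← tsum_mul_left, ← tsum_mul_left]
    refine tsum_congr fun h => ?_
    ring
  rw [sum_congr rfl e5]
  have hMz : (Mz A o P).det ≠ 0 := by
    unfold Mz
    rw [Matrix.det_smul, ← hB, dl_det]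
    exact mul_ne_zero (pow_ne_zero _ (by positivity)) (inv_ne_zero hBd)
  have hGs : Summable fun h => ‖G h‖ := by
    rw [hG]
    refine (ga_summable hMz (ctr A σ lam)).congr fun h => ?_
    rw [norm_mul, (lpz_ch A B z lam).nrm, one_mul, Complex.norm_real, Real.norm_of_nonneg (ga_nonneg _ _ _)]
  have hs : ∀ a ∈ range P, Summable fun h : ι → ℤ =>
      (T : ℂ) * ((F a * KF.e (((h o : ℤ) : ℝ) * ((a : ℝ) / P))) * G h) := by
    intro a _
    refine Summable.mul_left _ ?_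
    refine Summable.of_norm_bounded hGs fun h => ?_
    rw [norm_mul, norm_mul, ← Pool.Agent.Y766.R3.eu_eq, eu_norm, mul_one]
    exact mul_le_of_le_one_left (norm_nonneg _) (hF1 _)
  rw [← Summable.tsum_finsetSum hs, ← hB, ← hT, ← tsum_mul_left]
  refine tsum_congr fun h => ?_
  rw [← mul_sum, ← sum_mul, hG]
  simp only
  unfold FH
  ring

end Run7.h343.NG
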