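import Pool.Agent.Run7.h343.NG.Xs3
import Pool.Agent.Run7.h343.NG.Co

/-!
Theta series with polynomial weights.
-/

set_option autoImplicit false
set_option linter.unusedSectionVars false

namespace Run7.h343.NG

open Complex Finset
open Run7.h343.NF

variable {ι J : Type} [Fintype ι] [DecidableEq ι] [Fintype J]

/-- the linear forms -/
noncomputable def Lf (A : Matrix ι ι ℝ) (l : J → ι → ℂ) (j : J) (α : ι → ℤ) : ℂ := ∑ i, l j i * (em A α i : ℂ)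

/-- one term -/
noncomputable def sp (Ξ : (ι → ℤ) → ℂ) (A : Matrix ι ι ℝ) (σ : ι → ℝ)
    (l : J → ι → ℂ) (m : J → ℕ) (α : ι → ℤ) : ℂ :=
  (Ξ α * gb A σ 0 α) * ∏ j, (Lf A l j α) ^ (m j)

/-- the weighted series -/
noncomputable def SP (Ξ : (ι → ℤ) → ℂ) (A : Matrix ι ι ℝ) (σ : ι → ℝ)
    (l : J → ι → ℂ) (m : J → ℕ) : ℂ := ∑' α : ι → ℤ, sp Ξ A σ l m α

/-- admissible forms -/
def Adm (l : J → ι → ℂ) : Prop := ∀ b : J → ℂ, (∀ j, ‖b j‖ ≤ 1) → ∀ i, ‖∑ j, b j * l j i‖ ≤ 1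

lemma Adm.le {l : J → ι → ℂ} (h : Adm l) (j : J) (i : ι) : ‖l j i‖ ≤ 1 := by
  classical
  have h1 := h (fun k => if k = j then 1 else 0) (fun k => by split_ifs <;> simp) i
  simpa using h1

lemma gb_zero_norm (A : Matrix ι ι ℝ) (σ : ι → ℝ) (α : ι → ℤ) : ‖gb A σ 0 α‖ = ga (em A) 0 α := by
  have hz : zB (0 : ι → ℂ) = 0 := by
    ext i
    rfl
  have hk : kB σ (0 : ι → ℂ) = 1 := by
    unfold kB
    simp
  rw [gb_eq, hk, one_mul, gz_norm, hz]

lemma coord_le (x : EuclideanSpace ℝ ι) (i : ι) : |x i| ≤ ‖x‖ := by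
  rw [← Real.norm_eq_abs]
  exact PiLp.norm_apply_le x i

lemma Lf_le {A : Matrix ι ι ℝ} {l : J → ι → ℂ} (h : Adm l) (j : J) (α : ι → ℤ) :
    ‖Lf A l j α‖ ≤ Fintype.card ι * ‖em A α‖ := by
  unfold Lf
  refine (norm_sum_le _ _).trans ?_
  calc ∑ i, ‖l j i * (em A α i : ℂ)‖ ≤ ∑ _i : ι, ‖em A α‖ := by
        refine sum_le_sum fun i _ => ?_
        rw [norm_mul, Complex.norm_real, Real.norm_eq_abs]
        calc _ ≤ 1 * ‖em A α‖ := mul_le_mul (h.le j i) (coord_le _ i) (abs_nonneg _) zero_le_one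
          _ = _ := one_mul _
    _ = _ := by rw [sum_const, card_univ, nsmul_eq_mul]

lemma exp_ga_half (R : ℝ) (A : Matrix ι ι ℝ) (α : ι → ℤ) :
    Real.exp (R * ‖em A α‖) * ga (em A) 0 α ≤
      Real.exp (R ^ 2 / (2 * Real.pi)) * ga (em ((Real.sqrt 2)⁻¹ • A)) 0 α := by
  unfold ga
  rw [← Real.exp_add, ← Real.exp_add, em_smul, sub_zero, sub_zero]
  apply Real.exp_le_exp.2
  rw [norm_smul, mul_pow, norm_inv, inv_pow, Real.norm_of_nonneg (Real.sqrt_nonneg 2), Real.sq_sqrt (by norm_num)]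
  obtain ⟨x, hx⟩ : ∃ x, x = ‖em A α‖ := ⟨_, rfl⟩
  rw [← hx]
  have hπ := Real.pi_pos
  have h1 : 0 ≤ (R - Real.pi * x) ^ 2 / (2 * Real.pi) := by positivity
  have h2 : (R - Real.pi * x) ^ 2 / (2 * Real.pi) = R ^ 2 / (2 * Real.pi) - R * x + Real.pi * x ^ 2 / 2 := by
    field_simp
    ring
  rw [h2] at h1
  linarith

lemma sum_Lf {A : Matrix ι ι ℝ} {l : J → ι → ℂ} (h : Adm l) (α : ι → ℤ) :
    ∑ j, ‖Lf A l j α‖ ≤ (Fintype.card J * Fintype.card ι : ℝ) * ‖em A α‖ := by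
  calc ∑ j, ‖Lf A l j α‖ ≤ ∑ _j : J, Fintype.card ι * ‖em A α‖ := sum_le_sum fun j _ => Lf_le h j α
    _ = _ := by rw [sum_const, card_univ, nsmul_eq_mul]; ring

lemma c_le {Ξ : (ι → ℤ) → ℂ} (hX : ∀ α, ‖Ξ α‖ ≤ 1) (A : Matrix ι ι ℝ) (σ : ι → ℝ) (α : ι → ℤ) :
    ‖Ξ α * gb A σ 0 α‖ ≤ ga (em A) 0 α := by
  rw [norm_mul, gb_zero_norm]
  have h3 := ga_nonneg (em A) 0 α
  calc _ ≤ 1 * ga (em A) 0 α := by
        gcongr
        exact hX α
    _ = _ := by ring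

/-- the constant of the terms -/
noncomputable def Km (ι : Type) [Fintype ι] {J : Type} [Fintype J] (m : J → ℕ) : ℝ :=
  (∏ j, ((m j).factorial : ℝ)) * Real.exp ((Fintype.card J * Fintype.card ι : ℝ) ^ 2 / (2 * Real.pi))

lemma Km_pos (m : J → ℕ) : 0 < Km ι m := by
  unfold Km
  have : 0 < ∏ j, ((m j).factorial : ℝ) := prod_pos fun j _ => by exact_mod_cast Nat.factorial_pos _
  positivity

lemma sp_le {Ξ : (ι → ℤ) → ℂ} (hX : ∀ α, ‖Ξ α‖ ≤ 1)
    (A : Matrix ι ι ℝ) (σ : ι → ℝ) {l : J → ι → ℂ} (hl : Adm l) (m : J → ℕ) (α : ι → ℤ) :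
    ‖sp Ξ A σ l m α‖ ≤ Km ι m * ga (em ((Real.sqrt 2)⁻¹ • A)) 0 α := by
  unfold sp Km
  rw [norm_mul, norm_prod]
  have h1 : ∏ j, ‖Lf A l j α ^ m j‖ ≤ (∏ j, ((m j).factorial : ℝ)) * Real.exp (∑ j, ‖Lf A l j α‖) := by
    rw [Real.exp_sum, ← prod_mul_distrib]
    refine prod_le_prod (fun j _ => norm_nonneg _) fun j _ => ?_
    rw [norm_pow]
    exact pow_le_exp (m j) (norm_nonneg _)
  have hF : 0 ≤ ∏ j, ((m j).factorial : ℝ) := prod_nonneg fun j _ => Nat.cast_nonneg _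
  have h2 := Real.exp_le_exp.2 (sum_Lf (A := A) hl α)
  have h3 := exp_ga_half (Fintype.card J * Fintype.card ι : ℝ) A α
  have h4 := c_le hX A σ α
  have h5 := ga_nonneg (em A) 0 α
  calc _ ≤ ga (em A) 0 α * ((∏ j, ((m j).factorial : ℝ)) *
        Real.exp ((Fintype.card J * Fintype.card ι : ℝ) * ‖em A α‖)) := by
        refine mul_le_mul h4 (h1.trans (mul_le_mul_of_nonneg_left h2 hF)) (by positivity) h5
    _ = (∏ j, ((m j).factorial : ℝ)) * (Real.exp ((Fintype.card J * Fintype.card ι : ℝ) * ‖em A α‖) *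
        ga (em A) 0 α) := by ring
    _ ≤ (∏ j, ((m j).factorial : ℝ)) * (Real.exp ((Fintype.card J * Fintype.card ι : ℝ) ^ 2 / (2 * Real.pi)) *
        ga (em ((Real.sqrt 2)⁻¹ • A)) 0 α) := mul_le_mul_of_nonneg_left h3 hF
    _ = _ := by ring

/-- the constant of the reduction -/
noncomputable def Kf (m : J → ℕ) : ℝ := ∏ j, ((m j).factorial / (2 * Real.pi) ^ (m j) : ℝ)

lemma Kf_pos (m : J → ℕ) : 0 < Kf m := by
  unfold Kf
  refine prod_pos fun j _ => ?_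
  have : (0 : ℝ) < (m j).factorial := by exact_mod_cast Nat.factorial_pos _
  positivity

/-- reduction to exponential weights -/
theorem SP_le {Ξ : (ι → ℤ) → ℂ} (hX : ∀ α, ‖Ξ α‖ ≤ 1)
    {A : Matrix ι ι ℝ} (hA : A.det ≠ 0) (σ : ι → ℝ) {l : J → ι → ℂ} (hl : Adm l) (m : J → ℕ) {M : ℝ}
    (hM : ∀ B : ι → ℂ, (∀ i, ‖B i‖ ≤ 1) → ‖SX Ξ A σ B‖ ≤ M) : ‖SP Ξ A σ l m‖ ≤ Kf m * M := by
  classical
  unfold SP sp Kf
  refine coef_bound univ (fun j α => Lf A l j α) m _ M ?_ fun b hb => ?_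
  · refine Summable.of_nonneg_of_le (fun α => by positivity) (fun α => ?_)
      ((ga_summable (s2i_det hA) 0).mul_left (Real.exp (((2 * Real.pi + 1) *
        (Fintype.card J * Fintype.card ι : ℝ)) ^ 2 / (2 * Real.pi))))
    refine le_trans ?_ (exp_ga_half ((2 * Real.pi + 1) * (Fintype.card J * Fintype.card ι : ℝ)) A α)
    rw [mul_comm]
    refine mul_le_mul ?_ (c_le hX A σ α) (norm_nonneg _) (Real.exp_pos _).le
    apply Real.exp_le_exp.2
    have hπ := Real.pi_pos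
    have := mul_le_mul_of_nonneg_left (sum_Lf (A := A) hl α) (by positivity : 0 ≤ 2 * Real.pi + 1)
    linarith
  · refine le_trans (le_of_eq ?_) (hM (fun i => ∑ j, b j * l j i) (hl b hb))
    unfold SX
    congr 1
    refine tsum_congr fun α => ?_
    rw [mul_assoc]
    congr 1
    unfold gb Lf
    rw [← Complex.exp_add]
    congr 1
    have e1 : ∑ j, b j * ∑ i, l j i * (em A α i : ℂ) = ∑ i, (∑ j, b j * l j i) * (em A α i : ℂ) := by
      simp_rw [mul_sum, sum_mul]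
      rw [sum_comm]
      refine sum_congr rfl fun i _ => sum_congr rfl fun j _ => by ring
    rw [e1, mul_sum, ← sum_add_distrib]
    refine sum_congr rfl fun i _ => ?_
    rw [Pi.zero_apply]
    ring

end Run7.h343.NG
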