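import Pool.Agent.Run7.h343.NF.Un3

/-!
Unfolding with complex weights and polynomial factors (adapted from the files `Unf2`, `Unf3` of helper773 and
helper784).
-/

set_option autoImplicit false
set_option linter.unusedSectionVars false

open NumberField Complex Filter Topology MeasureTheory Set
open NumberField.Units NumberField.Units.dirichletUnitTheorem

namespace Run7.h343.NG

open Run7.h343.NF
open Pool.Agent.Y773 (Idx el PP S0 PIdl gen gen_ne_zero span_gen xE unE toP unfold_P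
  isHaar_PP exists_vol_gen integral_exp_sub integrable_exp_sub integrableOn_cpow_exp place_unE)
open Pool.Agent.Y773.G (elE elE_apply av av_pos sqrt_mult_pos sum_el prod_av xE_apply toP_xE coE summable_PIdl
  norm_absNorm_cpow)

/-! ### the local integral -/

/-- the local factor of the integrand -/
noncomputable def lz (m : ℕ) (σ τ b v : ℝ) : ℂ :=
  ((Real.exp (v / 2) * b : ℝ) : ℂ) ^ m * NF.lz σ τ b v

lemma lz_norm (m : ℕ) (σ τ : ℝ) {b : ℝ} (hb : 0 ≤ b) (v : ℝ) : (‖lz m σ τ b v‖ : ℂ) = lz m 0 0 b v := by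
  unfold lz
  rw [norm_mul, ofReal_mul, NF.lz_norm, norm_pow, Complex.norm_real, Real.norm_of_nonneg (by positivity),
    ofReal_pow]

lemma lz_cont (m : ℕ) (σ τ b : ℝ) : Continuous (lz m σ τ b) := by
  unfold lz
  exact Continuous.mul (by fun_prop) (NF.lz_cont σ τ b)

/-- the local integral -/
lemma local_zm (m : ℕ) {z : ℂ} (hz : 0 < z.re) (σ : ℝ) {b : ℝ} (hb : 0 < b) :
    Integrable (fun v : ℝ => ((Real.exp (v / 2) * b : ℝ) : ℂ) ^ m *
      cexp (-(Real.pi * (1 + σ * I) * ((Real.exp (v / 2) * b : ℝ) : ℂ) ^ 2)) * cexp (z * v)) ∧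
    ∫ v : ℝ, ((Real.exp (v / 2) * b : ℝ) : ℂ) ^ m *
      cexp (-(Real.pi * (1 + σ * I) * ((Real.exp (v / 2) * b : ℝ) : ℂ) ^ 2)) * cexp (z * v) =
      (b : ℂ) ^ (-(2 * z)) * ((1 + σ * I) ^ (-(z + m / 2)) * Complex.Gammaℝ (2 * z + m)) := by
  have hz' : 0 < (z + m / 2 : ℂ).re := by
    have : (z + m / 2 : ℂ).re = z.re + m / 2 := by simp
    rw [this]
    positivity
  obtain ⟨h1, h2⟩ := local_z hz' σ hb
  have hbc : (b : ℂ) ≠ 0 := by exact_mod_cast hb.ne'
  have hkey : ∀ v : ℝ, ((Real.exp (v / 2) * b : ℝ) : ℂ) ^ m *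
      cexp (-(Real.pi * (1 + σ * I) * ((Real.exp (v / 2) * b : ℝ) : ℂ) ^ 2)) * cexp (z * v) =
      (b : ℂ) ^ m * (cexp (-(Real.pi * (1 + σ * I) * ((Real.exp (v / 2) * b : ℝ) : ℂ) ^ 2)) *
        cexp ((z + m / 2) * v)) := by
    intro v
    have e1 : ((Real.exp (v / 2) : ℝ) : ℂ) ^ m = cexp (m / 2 * v) := by
      rw [← ofReal_pow, ← Real.exp_nat_mul, ofReal_exp]
      congr 1
      push_cast
      ring
    have e2 : cexp ((z + m / 2) * v) = cexp (z * v) * cexp (m / 2 * v) := by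
      rw [← Complex.exp_add]
      congr 1
      ring
    rw [ofReal_mul, mul_pow, e1, e2]
    ring
  simp_rw [hkey]
  refine ⟨h1.const_mul _, ?_⟩
  rw [integral_const_mul, h2]
  have e3 : 2 * (z + m / 2) = 2 * z + m := by ring
  rw [e3, ← mul_assoc]
  congr 1
  rw [← Complex.cpow_natCast, ← Complex.cpow_add _ _ hbc]
  congr 1
  ring

/-! ### the integrand -/

variable {K : Type} [Field K] [NumberField K]

/-- the integrand -/
noncomputable def Fz (m : InfinitePlace K → ℕ) (σ τ : InfinitePlace K → ℝ) (s : ℂ) (b : InfinitePlace K → ℝ)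
    (p : PP K) : ℂ :=
  (∏ w, lz (m w) (σ w) (τ w) (b w) (el K p w)) * cexp (Module.finrank ℚ K * s * p.1 / 2)

lemma norm_Fz (m : InfinitePlace K → ℕ) (σ τ : InfinitePlace K → ℝ) (s : ℂ) {b : InfinitePlace K → ℝ}
    (hb : ∀ w, 0 ≤ b w) (p : PP K) :
    (‖Fz m σ τ s b p‖ : ℂ) = Fz m (fun _ => 0) (fun _ => 0) (s.re : ℂ) b p := by
  unfold Fz
  rw [norm_mul, norm_prod, ofReal_mul, ofReal_prod]
  have e0 : ∀ w, ((‖lz (m w) (σ w) (τ w) (b w) (el K p w)‖ : ℝ) : ℂ) = lz (m w) 0 0 (b w) (el K p w) :=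
    fun w => lz_norm _ _ _ (hb w) _
  simp_rw [e0]
  congr 1
  rw [Complex.norm_exp]
  have : (Module.finrank ℚ K * s * p.1 / 2 : ℂ).re = Module.finrank ℚ K * s.re * p.1 / 2 := by
    simp
  rw [this]
  push_cast
  rfl

/-- the archimedean factor -/
noncomputable def Gz (m : InfinitePlace K → ℕ) (σ τ : InfinitePlace K → ℝ) (s : ℂ) : ℂ :=
  ∏ w : InfinitePlace K, (((Real.sqrt (w.mult : ℝ) : ℝ) : ℂ) ^ (-((w.mult : ℂ) * s)) *
    ((1 + σ w * I) ^ (-(((w.mult : ℂ) * s - I * τ w + m w) / 2)) * Complex.Gammaℝ ((w.mult : ℂ) * s - I * τ w + m w)))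

/-- the total integral -/
lemma int_Fz (K : Type) [Field K] [NumberField K] : ∃ c : ℝ, 0 < c ∧
    ∀ (m : InfinitePlace K → ℕ) (σ τ : InfinitePlace K → ℝ) (s : ℂ), 0 < s.re → ∀ x : 𝓞 K, x ≠ 0 →
      Integrable (Fz m σ τ s (av x)) ∧
      ∫ p, Fz m σ τ s (av x) p = c * (((Ideal.absNorm (Ideal.span {x}) : ℕ) : ℂ) ^ (-s) * Gz m σ τ s) := by
  have := isHaar_PP K
  obtain ⟨c, hc, h1, -, h3⟩ := exists_vol_gen (volume : Measure (PP K))
    (volume : Measure (InfinitePlace K → ℝ)) (elE K)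
  refine ⟨c, hc, fun m σ τ s hs x hx => ?_⟩
  obtain ⟨b, hbd⟩ : ∃ b, b = av x := ⟨_, rfl⟩
  have hb : ∀ w, 0 < b w := by rw [hbd]; exact av_pos hx
  have hs' : ∀ w : InfinitePlace K, 0 < (((w.mult : ℂ) * s - I * τ w) / 2).re := by
    intro w
    have h4 : (((w.mult : ℂ) * s - I * τ w) / 2).re = (w.mult : ℝ) * s.re / 2 := by
      have : (((w.mult : ℂ) * s - I * τ w) / 2) = (((w.mult : ℝ) / 2 : ℝ) : ℂ) * s - (((τ w) / 2 : ℝ) : ℂ) * I := by
        push_cast
        ring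
      rw [this, sub_re, re_ofReal_mul, re_ofReal_mul, I_re, mul_zero, sub_zero]
      ring
    rw [h4]
    have : (0 : ℝ) < w.mult := by exact_mod_cast w.mult_pos
    positivity
  obtain ⟨g, hg⟩ : ∃ g : InfinitePlace K → ℝ → ℂ, g = fun w v =>
      cexp (-(I * ((τ w * Real.log (b w) : ℝ) : ℂ))) *
      (((Real.exp (v / 2) * b w : ℝ) : ℂ) ^ (m w) *
        cexp (-(Real.pi * (1 + σ w * I) * ((Real.exp (v / 2) * b w : ℝ) : ℂ) ^ 2)) *
        cexp ((((w.mult : ℂ) * s - I * τ w) / 2) * v)) := ⟨_, rfl⟩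
  obtain ⟨f, hf⟩ : ∃ f : (InfinitePlace K → ℝ) → ℂ, f = fun y => ∏ w, g w (y w) := ⟨_, rfl⟩
  have hF : Fz m σ τ s b = fun p => f (elE K p) := by
    funext p
    rw [hf, hg, elE_apply]
    unfold Fz lz NF.lz
    have h4 := sum_el K p
    have h5 : cexp (Module.finrank ℚ K * s * p.1 / 2) =
        ∏ w : InfinitePlace K, cexp ((w.mult : ℂ) * s * (el K p w : ℂ) / 2) := by
      rw [← Complex.exp_sum]
      congr 1
      have h6 : (∑ w : InfinitePlace K, (w.mult : ℂ) * s * (el K p w : ℂ) / 2) =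
          s / 2 * ((Module.finrank ℚ K * p.1 : ℝ) : ℂ) := by
        rw [← h4]
        push_cast
        rw [Finset.mul_sum]
        exact Finset.sum_congr rfl fun w _ => by ring
      rw [h6]
      push_cast
      ring
    rw [h5, ← Finset.prod_mul_distrib]
    refine Finset.prod_congr rfl fun w _ => ?_
    simp only
    obtain ⟨P, hP⟩ : ∃ P : ℂ, P = ((Real.exp (el K p w / 2) * b w : ℝ) : ℂ) ^ (m w) := ⟨_, rfl⟩
    rw [← hP]
    have hcore : cexp (-(Real.pi * (1 + σ w * I) * ((Real.exp (el K p w / 2) * b w : ℝ) : ℂ) ^ 2)) *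
        cexp (-(I * ((τ w * (el K p w / 2 + Real.log (b w)) : ℝ) : ℂ))) *
        cexp ((w.mult : ℂ) * s * (el K p w : ℂ) / 2) =
        cexp (-(I * ((τ w * Real.log (b w) : ℝ) : ℂ))) *
        (cexp (-(Real.pi * (1 + σ w * I) * ((Real.exp (el K p w / 2) * b w : ℝ) : ℂ) ^ 2)) *
        cexp ((((w.mult : ℂ) * s - I * τ w) / 2) * (el K p w : ℂ))) := by
      rw [← Complex.exp_add, ← Complex.exp_add, ← Complex.exp_add, ← Complex.exp_add]
      congr 1
      push_cast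
      ring
    linear_combination P * hcore
  have hgi : ∀ w, Integrable (g w) ∧ ∫ v, g w v = cexp (-(I * ((τ w * Real.log (b w) : ℝ) : ℂ))) *
      ((b w : ℂ) ^ (-(2 * (((w.mult : ℂ) * s - I * τ w) / 2))) *
        ((1 + σ w * I) ^ (-(((w.mult : ℂ) * s - I * τ w) / 2 + m w / 2)) *
          Complex.Gammaℝ (2 * (((w.mult : ℂ) * s - I * τ w) / 2) + m w))) := by
    intro w
    obtain ⟨e1, e2⟩ := local_zm (m w) (hs' w) (σ w) (hb w)
    rw [hg]
    refine ⟨e1.const_mul _, ?_⟩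
    simp only
    rw [integral_const_mul, e2]
  have hint : Integrable f := by
    rw [hf]
    exact Integrable.fintype_prod (f := g) fun w => (hgi w).1
  rw [← hbd, hF]
  refine ⟨h3 f hint, ?_⟩
  rw [h1 f, hf, integral_fintype_prod_volume_eq_prod g]
  congr 1
  unfold Gz
  rw [Finset.prod_mul_distrib, ← mul_assoc, mul_comm (((Ideal.absNorm (Ideal.span {x}) : ℕ) : ℂ) ^ (-s)),
    ← prod_av hx, ← hbd, ← Finset.prod_mul_distrib]
  refine Finset.prod_congr rfl fun w _ => ?_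
  rw [(hgi w).2]
  have hbc : (b w : ℂ) ≠ 0 := by exact_mod_cast (hb w).ne'
  have e1 : 2 * (((w.mult : ℂ) * s - I * τ w) / 2) = (w.mult : ℂ) * s - I * τ w := by ring
  have e2 : ((w.mult : ℂ) * s - I * τ w) / 2 + m w / 2 = ((w.mult : ℂ) * s - I * τ w + m w) / 2 := by ring
  rw [e1, e2, ← mul_assoc]
  congr 1
  rw [Complex.cpow_def_of_ne_zero hbc, Complex.cpow_def_of_ne_zero hbc, ← Complex.ofReal_log (hb w).le,
    ← Complex.exp_add]
  congr 1
  push_cast
  ring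

lemma Fz_unit (m' : InfinitePlace K → ℕ) (σ τ : InfinitePlace K → ℝ) (s : ℂ) (J : PIdl K) (ζ : torsion K)
    (m : Fin (rank K) → ℤ) (p : PP K) :
    Fz m' σ τ s (av (xE K (J, (ζ, m))).1) p = Fz m' σ τ s (av (gen J)) (p.1, p.2 + Pool.Agent.Y773.lp m) := by
  have h0 : ∀ w, av (xE K (J, (ζ, m))).1 w =
      Real.exp (∑ i, (m i : ℝ) * Real.log (w ((fundSystem K i : (𝓞 K)ˣ) : K))) * av (gen J) w := by
    intro w
    unfold av
    rw [xE_apply]
    have : (((unE K (ζ, m) : (𝓞 K)ˣ) * gen J : 𝓞 K) : K) =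
      ((unE K (ζ, m) : (𝓞 K)ˣ) : K) * (gen J : K) := map_mul (algebraMap (𝓞 K) K) _ _
    rw [this, map_mul, place_unE]
    ring
  have h2 : ∀ w, el K (p.1, p.2 + Pool.Agent.Y773.lp m) w = el K p w +
      2 * ∑ i, (m i : ℝ) * Real.log (w ((fundSystem K i : (𝓞 K)ˣ) : K)) := by
    intro w
    simp only [el, LinearMap.coe_mk, AddHom.coe_mk, Pi.add_apply, Pool.Agent.Y773.lp, add_mul,
      Finset.sum_add_distrib]
    have h2 : ∑ i, (m i : ℝ) * (2 * Real.log (w ((fundSystem K i : (𝓞 K)ˣ) : K))) =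
        2 * ∑ i, (m i : ℝ) * Real.log (w ((fundSystem K i : (𝓞 K)ˣ) : K)) := by
      rw [Finset.mul_sum]
      exact Finset.sum_congr rfl fun i _ => by ring
    rw [h2]
    ring
  unfold Fz
  congr 1
  refine Finset.prod_congr rfl fun w _ => ?_
  unfold lz NF.lz
  have h3 : Real.exp (el K p w / 2) * av (xE K (J, (ζ, m))).1 w =
      Real.exp (el K (p.1, p.2 + Pool.Agent.Y773.lp m) w / 2) * av (gen J) w := by
    rw [h0, h2, ← mul_assoc, ← Real.exp_add]
    congr 2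
    ring
  have h4 : el K p w / 2 + Real.log (av (xE K (J, (ζ, m))).1 w) =
      el K (p.1, p.2 + Pool.Agent.Y773.lp m) w / 2 + Real.log (av (gen J) w) := by
    rw [h0, h2, Real.log_mul (Real.exp_pos _).ne' (av_pos (gen_ne_zero J) w).ne', Real.log_exp]
    ring
  rw [h3, h4]

end Run7.h343.NG
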