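import Pool.Agent.Run7.h343.NG.Bd

/-!
Theta series with a linear term and a periodic weight (an auxiliary conductor).
-/

set_option autoImplicit false
set_option linter.unusedSectionVars false

namespace Run7.h343.NG

open Complex Finset
open Run7.h343.NF

variable {ι : Type} [Fintype ι] [DecidableEq ι]

/-- the Gaussian with a linear term -/
noncomputable def gb (A : Matrix ι ι ℝ) (σ : ι → ℝ) (B : ι → ℂ) (α : ι → ℤ) : ℂ :=
  cexp (∑ i, (-Real.pi * (1 + σ i * I) * (em A α i : ℂ) ^ 2 + 2 * Real.pi * B i * (em A α i : ℂ)))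

/-- the centre -/
noncomputable def zB (B : ι → ℂ) : EuclideanSpace ℝ ι := WithLp.toLp 2 fun i => (B i).re

/-- the twist -/
noncomputable def eB (σ : ι → ℝ) (B : ι → ℂ) : ι → ℝ := fun i => (B i).im - σ i * (B i).re

/-- the constant -/
noncomputable def kB (σ : ι → ℝ) (B : ι → ℂ) : ℂ := cexp (∑ i, Real.pi * (1 + σ i * I) * ((B i).re : ℂ) ^ 2)

lemma gb_eq (A : Matrix ι ι ℝ) (σ : ι → ℝ) (B : ι → ℂ) (α : ι → ℤ) :
    gb A σ B α = kB σ B * gz A σ (zB B) (eB σ B) α := by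
  unfold gb kB gz
  rw [← Complex.exp_add, ← sum_add_distrib]
  congr 1
  refine sum_congr rfl fun i _ => ?_
  have hz : (zB B) i = (B i).re := rfl
  have he : eB σ B i = (B i).im - σ i * (B i).re := rfl
  rw [hz, he]
  obtain ⟨x, hx⟩ : ∃ x : ℝ, x = (B i).re := ⟨_, rfl⟩
  obtain ⟨y, hy⟩ : ∃ y : ℝ, y = (B i).im := ⟨_, rfl⟩
  have hB : B i = x + y * I := by rw [hx, hy]; exact (Complex.re_add_im _).symm
  rw [← hx, ← hy, hB]
  push_cast
  ring

lemma zB_norm {B : ι → ℂ} (hB : ∀ i, ‖B i‖ ≤ 1) : ‖zB B‖ ^ 2 ≤ Fintype.card ι := by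
  rw [EuclideanSpace.norm_sq_eq]
  calc ∑ i, ‖(zB B) i‖ ^ 2 ≤ ∑ _i : ι, (1 : ℝ) := by
        refine sum_le_sum fun i _ => ?_
        have h1 : |(B i).re| ≤ 1 := (Complex.abs_re_le_norm _).trans (hB i)
        have hz : (zB B) i = (B i).re := rfl
        rw [hz, Real.norm_eq_abs]
        exact pow_le_one₀ (abs_nonneg _) h1
    _ = _ := by simp

lemma kB_norm (σ : ι → ℝ) {B : ι → ℂ} (hB : ∀ i, ‖B i‖ ≤ 1) : ‖kB σ B‖ ≤ Real.exp (Real.pi * Fintype.card ι) := by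
  unfold kB
  rw [Complex.norm_exp]
  apply Real.exp_le_exp.2
  refine le_trans (le_of_eq ?_) (mul_le_mul_of_nonneg_left (zB_norm hB) Real.pi_pos.le)
  rw [EuclideanSpace.norm_sq_eq, Complex.re_sum, mul_sum]
  refine sum_congr rfl fun i _ => ?_
  have hz : (zB B) i = (B i).re := rfl
  rw [hz, Real.norm_eq_abs, sq_abs]
  have e : (Real.pi * (1 + σ i * I) * ((B i).re : ℂ) ^ 2 : ℂ) =
      ((Real.pi * (B i).re ^ 2 : ℝ) : ℂ) + ((Real.pi * σ i * (B i).re ^ 2 : ℝ) : ℂ) * I := by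
    push_cast; ring
  rw [e, add_re, ofReal_re, re_ofReal_mul, I_re, mul_zero, add_zero]

lemma dz_norm (σ : ι → ℝ) {B : ι → ℂ} (hB : ∀ i, ‖B i‖ ≤ 1) : ‖dz σ (eB σ B)‖ ^ 2 ≤ 4 * Fintype.card ι := by
  rw [EuclideanSpace.norm_sq_eq]
  calc ∑ i, ‖(dz σ (eB σ B)) i‖ ^ 2 ≤ ∑ _i : ι, (4 : ℝ) := by
        refine sum_le_sum fun i _ => ?_
        have h1 : |(B i).re| ≤ 1 := (Complex.abs_re_le_norm _).trans (hB i)
        have h2 : |(B i).im| ≤ 1 := (Complex.abs_im_le_norm _).trans (hB i)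
        have hz : (dz σ (eB σ B)) i = (Real.sqrt (1 + σ i ^ 2))⁻¹ * ((B i).im - σ i * (B i).re) := rfl
        rw [hz, Real.norm_eq_abs, sq_abs, mul_pow, inv_pow, Real.sq_sqrt (by positivity)]
        have h3 : (B i).re ^ 2 ≤ 1 := by rw [← sq_abs]; exact pow_le_one₀ (abs_nonneg _) h1
        have h4 : (B i).im ^ 2 ≤ 1 := by rw [← sq_abs]; exact pow_le_one₀ (abs_nonneg _) h2
        rw [inv_mul_le_iff₀ (by positivity)]
        have h5 : ((B i).im - σ i * (B i).re) ^ 2 ≤ 2 * (B i).im ^ 2 + 2 * (σ i ^ 2 * (B i).re ^ 2) := by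
          nlinarith [sq_nonneg ((B i).im + σ i * (B i).re)]
        have h6 : σ i ^ 2 * (B i).re ^ 2 ≤ σ i ^ 2 := mul_le_of_le_one_right (sq_nonneg _) h3
        nlinarith [sq_nonneg (σ i)]
    _ = _ := by rw [sum_const, card_univ, nsmul_eq_mul, mul_comm]

lemma ga_half (A : Matrix ι ι ℝ) (z : EuclideanSpace ℝ ι) (α : ι → ℤ) :
    ga (em A) z α ≤ Real.exp (Real.pi * ‖z‖ ^ 2) * ga (em ((Real.sqrt 2)⁻¹ • A)) 0 α := by
  unfold ga
  rw [← Real.exp_add, em_smul, sub_zero]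
  apply Real.exp_le_exp.2
  rw [norm_smul, mul_pow, norm_inv, inv_pow, Real.norm_of_nonneg (Real.sqrt_nonneg 2), Real.sq_sqrt (by norm_num)]
  have h1 : ‖em A α‖ ≤ ‖em A α - z‖ + ‖z‖ := by
    have := norm_add_le (em A α - z) z
    rwa [sub_add_cancel] at this
  have h2 : ‖em A α‖ ^ 2 ≤ 2 * ‖em A α - z‖ ^ 2 + 2 * ‖z‖ ^ 2 := by
    have := pow_le_pow_left₀ (norm_nonneg _) h1 2
    nlinarith [sq_nonneg (‖em A α - z‖ - ‖z‖)]
  have := mul_le_mul_of_nonneg_left h2 Real.pi_pos.le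
  linarith

lemma s2i_det {A : Matrix ι ι ℝ} (hA : A.det ≠ 0) : ((Real.sqrt 2)⁻¹ • A).det ≠ 0 :=
  smul_det_ne hA (inv_ne_zero s2_pos.ne')

lemma nz_nonneg (A : Matrix ι ι ℝ) : 0 ≤ nz A := by
  unfold nz
  refine tsum_nonneg fun x => ?_
  split_ifs
  · exact le_rfl
  · exact ga_nonneg _ _ _

lemma nz_half {CG : ℝ} {A : Matrix ι ι ℝ} (hL : Lb CG A) :
    nz ((Real.sqrt 2)⁻¹ • A) ≤ CG * 2 ^ Fintype.card ι * |A.det|⁻¹ := by
  have hdA : 0 < |A.det| := abs_pos.2 hL.det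
  have hCG := hL.CG_nonneg
  have hs2 := s2_pos
  refine (hL.prim (Real.sqrt 2)⁻¹ (by positivity)).trans ?_
  rw [inv_pow]
  have h1 : Real.sqrt 2 ^ Fintype.card ι ≤ 2 ^ Fintype.card ι := by
    apply pow_le_pow_left₀ (by positivity)
    rw [Real.sqrt_le_left (by norm_num)]
    norm_num
  calc CG / ((Real.sqrt 2 ^ Fintype.card ι)⁻¹ * |A.det|) = CG * Real.sqrt 2 ^ Fintype.card ι * |A.det|⁻¹ := by
        field_simp
    _ ≤ _ := by gcongr

/-- sums over non-zero vectors along an injection -/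
lemma tsum_inj_le {A : Matrix ι ι ℝ} (hA : A.det ≠ 0) (z : EuclideanSpace ℝ ι) {g : (ι → ℤ) → (ι → ℤ)}
    (hg : Function.Injective g) {F : (ι → ℤ) → ℂ} (hF : ∀ β, ‖F β‖ ≤ if g β = 0 then 0 else ga (em A) z (g β)) :
    ‖∑' β, F β‖ ≤ Real.exp (Real.pi * ‖z‖ ^ 2) * nz ((Real.sqrt 2)⁻¹ • A) := by
  have hs := (nz_summable (s2i_det hA)).mul_left (Real.exp (Real.pi * ‖z‖ ^ 2))
  have h1 : ∀ β, ‖F β‖ ≤ (fun x : ι → ℤ => Real.exp (Real.pi * ‖z‖ ^ 2) *
      (if x = 0 then 0 else ga (em ((Real.sqrt 2)⁻¹ • A)) 0 x)) (g β) := by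
    intro β
    refine (hF β).trans ?_
    simp only
    split_ifs
    · rw [mul_zero]
    · exact ga_half A z _
  refine (tsum_of_norm_bounded (hs.comp_injective hg).hasSum h1).trans ?_
  unfold nz
  rw [← tsum_mul_left]
  refine _root_.tsum_comp_le_tsum_of_inj hs (fun x => ?_) hg
  refine mul_nonneg (Real.exp_pos _).le ?_
  split_ifs
  · exact le_rfl
  · exact ga_nonneg _ _ _

/-- the trivial bound -/
lemma Th_triv {q : ℕ} (χ : DirichletCharacter ℂ q) (o : ι) {A : Matrix ι ι ℝ} (hA : A.det ≠ 0) (σ : ι → ℝ)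
    (z : EuclideanSpace ℝ ι) (η : ι → ℝ) (hχ : χ 0 = 0) :
    ‖Th χ o A σ z η‖ ≤ Real.exp (Real.pi * ‖z‖ ^ 2) * nz ((Real.sqrt 2)⁻¹ • A) := by
  unfold Th
  refine tsum_inj_le hA z (g := fun x => x) Function.injective_id fun α => ?_
  split_ifs with h
  · rw [h]
    simp [hχ]
  · exact chi_le χ o A σ z η α

/-- the sublattice -/
noncomputable def AE (A : Matrix ι ι ℝ) (E : Matrix ι ι ℤ) : Matrix ι ι ℝ := A * E.map (Int.castRingHom ℝ)

lemma em_AE (A : Matrix ι ι ℝ) (E : Matrix ι ι ℤ) (β : ι → ℤ) : em (AE A E) β = em A (E.mulVec β) := by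
  ext i
  rw [em_apply, em_apply]
  unfold AE
  rw [← Matrix.mulVec_mulVec]
  congr 2
  funext j
  simp only [Matrix.mulVec, dotProduct, cst, Matrix.map_apply, Int.coe_castRingHom]
  push_cast
  rfl

lemma gz_shift (A : Matrix ι ι ℝ) (σ : ι → ℝ) (z : EuclideanSpace ℝ ι) (η : ι → ℝ) (E : Matrix ι ι ℤ) (α β : ι → ℤ) :
    gz A σ z η (α + E.mulVec β) = uph A η α * gz (AE A E) σ (z - em A α) η β := by
  unfold gz uph
  rw [← Complex.exp_add, ofReal_mul, ofReal_sum, mul_sum, sum_mul, ← sum_add_distrib]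
  congr 1
  refine sum_congr rfl fun i _ => ?_
  have e1 : em A (α + E.mulVec β) i = em A α i + em (AE A E) β i := by
    rw [map_add, PiLp.add_apply, em_AE]
  rw [e1, PiLp.sub_apply]
  push_cast
  ring

/-- the trivial bound for a class -/
lemma Th_piece {q : ℕ} (χ : DirichletCharacter ℂ q) (o : ι)
    {A : Matrix ι ι ℝ} (hA : A.det ≠ 0) (σ : ι → ℝ) (z : EuclideanSpace ℝ ι) (η : ι → ℝ) {E : Matrix ι ι ℤ}
    (hE : Function.Injective E.mulVec) {α : ι → ℤ}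
    (hα : ∀ β : ι → ℤ, α + E.mulVec β = 0 → χ ((β o : ℤ) : ZMod q) = 0) :
    ‖Th χ o (AE A E) σ (z - em A α) η‖ ≤ Real.exp (Real.pi * ‖z‖ ^ 2) * nz ((Real.sqrt 2)⁻¹ • A) := by
  unfold Th
  refine tsum_inj_le hA z (g := fun β => α + E.mulVec β) ?_ fun β => ?_
  · intro β β' h
    simp only [add_right_inj] at h
    exact hE h
  · by_cases h0 : α + E.mulVec β = 0
    · rw [if_pos h0, hα β h0, zero_mul, norm_zero]
    · rw [if_neg h0, norm_mul]
      have h1 := gz_shift A σ z η E α β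
      have h2 : ‖gz (AE A E) σ (z - em A α) η β‖ = ga (em A) z (α + E.mulVec β) := by
        rw [← gz_norm A σ z η, h1, norm_mul, uph_norm, one_mul]
      rw [h2]
      exact mul_le_of_le_one_left (ga_nonneg _ _ _) (χ.norm_le_one _)

end Run7.h343.NG
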