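import Pool.Agent.Run7.h343.NG.Xs

/-!
Splitting into classes of a sublattice and the bounds for the weighted theta series.
-/

set_option autoImplicit false
set_option linter.unusedSectionVars false

namespace Run7.h343.NG

open Complex Finset
open Run7.h343.NF

variable {ι : Type} [Fintype ι] [DecidableEq ι]

/-- the weight `Ξ` is a multiple of `χ` on the classes of a sublattice -/
structure Spl {q : ℕ} (Ξ : (ι → ℤ) → ℂ) (χ : DirichletCharacter ℂ q) (o : ι) (T : Type) (r : T → ι → ℤ)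
    (E : Matrix ι ι ℤ) (u : T → ℂ) : Prop where
  bij : Function.Bijective fun t : T × (ι → ℤ) => r t.1 + E.mulVec t.2
  val : ∀ a β, Ξ (r a + E.mulVec β) = u a * χ ((β o : ℤ) : ZMod q)
  le : ∀ a, ‖u a‖ ≤ 1
  bd : ∀ α, ‖Ξ α‖ ≤ 1
  zero : Ξ 0 = 0

/-- splitting into classes -/
lemma tsum_classes {T : Type} [Fintype T] {r : T → ι → ℤ} {E : Matrix ι ι ℤ}
    (hbij : Function.Bijective fun t : T × (ι → ℤ) => r t.1 + E.mulVec t.2)
    {h : (ι → ℤ) → ℂ} (hs : Summable h) :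
    ∑' α, h α = ∑ a : T, ∑' β : ι → ℤ, h (r a + E.mulVec β) := by
  have h1 : ∑' α, h α = ∑' t : T × (ι → ℤ), h (r t.1 + E.mulVec t.2) :=
    ((Equiv.ofBijective _ hbij).tsum_eq h).symm
  rw [h1]
  have hs2 : Summable fun t : T × (ι → ℤ) => h (r t.1 + E.mulVec t.2) := (Equiv.ofBijective _ hbij).summable_iff.2 hs
  rw [hs2.tsum_prod, tsum_fintype]

/-- the weighted series -/
noncomputable def SX (Ξ : (ι → ℤ) → ℂ) (A : Matrix ι ι ℝ) (σ : ι → ℝ) (B : ι → ℂ) : ℂ :=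
  ∑' α : ι → ℤ, Ξ α * gb A σ B α

lemma SX_term {Ξ : (ι → ℤ) → ℂ} (hX : ∀ α, ‖Ξ α‖ ≤ 1)
    (A : Matrix ι ι ℝ) (σ : ι → ℝ) {B : ι → ℂ} (hB : ∀ i, ‖B i‖ ≤ 1) (α : ι → ℤ) :
    ‖Ξ α * gb A σ B α‖ ≤ Real.exp (Real.pi * Fintype.card ι) * ga (em A) (zB B) α := by
  rw [norm_mul, gb_eq, norm_mul, gz_norm]
  have h1 := kB_norm σ hB
  have h3 := ga_nonneg (em A) (zB B) α
  calc _ ≤ 1 * (Real.exp (Real.pi * Fintype.card ι) * ga (em A) (zB B) α) := by
        gcongr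
        exact hX α
    _ = _ := by ring

lemma SX_summable {Ξ : (ι → ℤ) → ℂ} (hX : ∀ α, ‖Ξ α‖ ≤ 1)
    {A : Matrix ι ι ℝ} (hA : A.det ≠ 0) (σ : ι → ℝ) {B : ι → ℂ} (hB : ∀ i, ‖B i‖ ≤ 1) :
    Summable fun α : ι → ℤ => Ξ α * gb A σ B α :=
  Summable.of_norm_bounded ((ga_summable hA (zB B)).mul_left _) fun α => SX_term hX A σ hB α

/-- the direct trivial bound -/
lemma SX_triv {Ξ : (ι → ℤ) → ℂ} (hX : ∀ α, ‖Ξ α‖ ≤ 1) (h0 : Ξ 0 = 0)
    {A : Matrix ι ι ℝ} (hA : A.det ≠ 0) (σ : ι → ℝ) {B : ι → ℂ} (hB : ∀ i, ‖B i‖ ≤ 1) :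
    ‖SX Ξ A σ B‖ ≤ Real.exp (2 * Real.pi * Fintype.card ι) * nz ((Real.sqrt 2)⁻¹ • A) := by
  obtain ⟨e, he⟩ : ∃ e, e = Real.exp (Real.pi * Fintype.card ι) := ⟨_, rfl⟩
  have he0 : 0 < e := by rw [he]; exact Real.exp_pos _
  have he2 : Real.exp (2 * Real.pi * Fintype.card ι) = e * e := by
    rw [he, ← Real.exp_add]
    congr 1
    ring
  have h1 : ∀ α : ι → ℤ, ‖((e⁻¹ : ℝ) : ℂ) * (Ξ α * gb A σ B α)‖ ≤
      if α = 0 then 0 else ga (em A) (zB B) α := by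
    intro α
    split_ifs with h
    · rw [h]
      simp [h0]
    · rw [norm_mul, Complex.norm_real, Real.norm_of_nonneg (by positivity), inv_mul_le_iff₀ he0]
      rw [he]
      exact SX_term hX A σ hB α
  have h2 := tsum_inj_le hA (zB B) (g := fun x => x) Function.injective_id h1
  rw [tsum_mul_left, norm_mul, Complex.norm_real, Real.norm_of_nonneg (by positivity), inv_mul_le_iff₀ he0] at h2
  have h3 : Real.exp (Real.pi * ‖zB B‖ ^ 2) ≤ e := by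
    rw [he]
    exact Real.exp_le_exp.2 (mul_le_mul_of_nonneg_left (zB_norm hB) Real.pi_pos.le)
  unfold SX
  rw [he2]
  refine h2.trans ?_
  rw [mul_assoc]
  refine mul_le_mul_of_nonneg_left (mul_le_mul_of_nonneg_right h3 (nz_nonneg _)) he0.le

/-- the pieces -/
lemma SX_le_pieces {q : ℕ} {Ξ : (ι → ℤ) → ℂ} {χ : DirichletCharacter ℂ q} {o : ι} {T : Type} [Fintype T]
    {r : T → ι → ℤ} {E : Matrix ι ι ℤ} {u : T → ℂ} (h : Spl Ξ χ o T r E u)
    {A : Matrix ι ι ℝ} (hA : A.det ≠ 0) (σ : ι → ℝ)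
    {B : ι → ℂ} (hB : ∀ i, ‖B i‖ ≤ 1) {M : ℝ} (hM0 : 0 ≤ M)
    (hM : ∀ a : T, u a ≠ 0 → ‖Th χ o (AE A E) σ (zB B - em A (r a)) (eB σ B)‖ ≤ M) :
    ‖SX Ξ A σ B‖ ≤ Real.exp (Real.pi * Fintype.card ι) * Fintype.card T * M := by
  have hs := SX_summable h.bd hA σ hB
  unfold SX
  rw [tsum_classes h.bij hs]
  have hone : ∀ a : T, ‖∑' β : ι → ℤ, Ξ (r a + E.mulVec β) * gb A σ B (r a + E.mulVec β)‖ ≤
      Real.exp (Real.pi * Fintype.card ι) * M := by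
    intro a
    have e1 : ∀ β : ι → ℤ, Ξ (r a + E.mulVec β) * gb A σ B (r a + E.mulVec β) =
      (u a * (kB σ B * uph A (eB σ B) (r a))) *
        (χ ((β o : ℤ) : ZMod q) * gz (AE A E) σ (zB B - em A (r a)) (eB σ B) β) := by
      intro β
      rw [h.val, gb_eq, gz_shift]
      ring
    simp_rw [e1]
    rw [tsum_mul_left, norm_mul, norm_mul, norm_mul, uph_norm, mul_one]
    by_cases h0 : u a = 0
    · rw [h0, norm_zero, zero_mul, zero_mul]
      positivity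
    have h1 := hM a h0
    have h3 := kB_norm σ hB
    unfold Th at h1
    calc _ ≤ (1 * Real.exp (Real.pi * Fintype.card ι)) * M := by
          gcongr
          exact h.le a
      _ = _ := by ring
  refine (norm_sum_le _ _).trans ((sum_le_sum fun a _ => hone a).trans (le_of_eq ?_))
  rw [sum_const, nsmul_eq_mul, card_univ]
  ring

end Run7.h343.NG
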