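import Pool.Agent.Run7.h343.NG.Xs2

/-!
The bound for the weighted theta series in all ranges.
-/

set_option autoImplicit false
set_option linter.unusedSectionVars false

namespace Run7.h343.NG

open Complex Finset
open Run7.h343.NF

variable {ι : Type} [Fintype ι] [DecidableEq ι]

lemma chi_zero {p ν : ℕ} (hp : p.Prime) (hν : 1 ≤ ν) (ψ : DirichletCharacter ℂ (p ^ ν)) : ψ 0 = 0 := by
  apply MulChar.map_nonunit
  have h1 := Pool.Agent.Y779.R3.not_unit_pi hp (r := ν) (by omega) 0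
  simpa using h1

/-- the dual piece, trivial bound -/
lemma dual_piece {p ν : ℕ} (hp : p.Prime) (hν : 1 ≤ ν) (χ : DirichletCharacter ℂ (p ^ ν)) (o : ι)
    {A : Matrix ι ι ℝ} (hA : A.det ≠ 0) (σ : ι → ℝ) {B : ι → ℂ} (hB : ∀ i, ‖B i‖ ≤ 1) (e : ι → ℝ) :
    ‖Th χ⁻¹ o (Aq A σ o ((p : ℝ) ^ ν)) (-σ) (dz σ (eB σ B)) e‖ ≤
      Real.exp (4 * Real.pi * Fintype.card ι) * nz ((Real.sqrt 2)⁻¹ • Aq A σ o ((p : ℝ) ^ ν)) := by
  have hp0 : (0 : ℝ) < p := by exact_mod_cast hp.pos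
  have hAq := Aq_det_ne hA σ o (P := (p : ℝ) ^ ν) (by positivity)
  have h0 : χ⁻¹ 0 = 0 := chi_zero hp hν _
  refine (Th_triv χ⁻¹ o hAq (-σ) (dz σ (eB σ B)) e h0).trans ?_
  refine mul_le_mul_of_nonneg_right ?_ (nz_nonneg _)
  apply Real.exp_le_exp.2
  have := mul_le_mul_of_nonneg_left (dz_norm σ hB) Real.pi_pos.le
  linarith

lemma Spl.Einj {q : ℕ} {Ξ : (ι → ℤ) → ℂ} {χ : DirichletCharacter ℂ q} {o : ι} {T : Type}
    {r : T → ι → ℤ} {E : Matrix ι ι ℤ} {u : T → ℂ} (h : Spl Ξ χ o T r E u) (a : T) : Function.Injective E.mulVec := by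
  intro β β' hb
  have h1 := h.bij.1 (a₁ := (a, β)) (a₂ := (a, β')) (by simp only [hb])
  exact (Prod.mk.inj h1).2

lemma Spl.ne {q : ℕ} {Ξ : (ι → ℤ) → ℂ} {χ : DirichletCharacter ℂ q} {o : ι} {T : Type}
    {r : T → ι → ℤ} {E : Matrix ι ι ℤ} {u : T → ℂ} (h : Spl Ξ χ o T r E u) {a : T} (ha : u a ≠ 0) (β : ι → ℤ)
    (hb : r a + E.mulVec β = 0) : χ ((β o : ℤ) : ZMod q) = 0 := by
  have h1 := h.val a β
  rw [hb, h.zero] at h1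
  exact (mul_eq_zero.1 h1.symm).resolve_left ha

theorem SX_bound (o : ι) {CG : ℝ} (hCG : 0 ≤ CG) : ∃ C : ℝ, 0 < C ∧ ∀ p : ℕ, p.Prime → 7 ≤ p →
    ∀ ν : ℕ, 1 ≤ ν → ∀ χ : DirichletCharacter ℂ (p ^ ν), χ.IsPrimitive →
    ∀ (A : Matrix ι ι ℝ) (E : Matrix ι ι ℤ) (σ : ι → ℝ) (S : ℝ), Lb CG A → WR p o CG ν (AE A E) →
      WR p o CG ν (Aq (AE A E) σ o ((p : ℝ) ^ ν)) → (∀ i, Real.sqrt (1 + σ i ^ 2) ≤ S) →
      ∀ (Ξ : (ι → ℤ) → ℂ) (T : Type) [Fintype T] (r : T → ι → ℤ) (u : T → ℂ), Spl Ξ χ o T r E u →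
      1 ≤ Fintype.card T → |(AE A E).det| = Fintype.card T * |A.det| →
      ∀ B : ι → ℂ, (∀ i, ‖B i‖ ≤ 1) →
      ‖SX Ξ A σ B‖ ^ 2 * |A.det| ≤ C * (Fintype.card T : ℝ) ^ 4 *
        (p : ℝ) ^ (Fintype.card ι + 4) * (1 + ν) ^ 2 * S ^ Fintype.card ι *
        ((p : ℝ) ^ ν) ^ (19 / 58 : ℝ) * min |A.det|⁻¹ (min 1 |(Aq A σ o ((p : ℝ) ^ ν)).det|⁻¹) := by
  obtain ⟨C1, hC1, hall⟩ := NT_all o hCG
  obtain ⟨n, hn⟩ : ∃ n, n = Fintype.card ι := ⟨_, rfl⟩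
  rw [← hn] at hall ⊢
  obtain ⟨e1, he1⟩ : ∃ e1, e1 = Real.exp (Real.pi * n) := ⟨_, rfl⟩
  obtain ⟨e4, he4⟩ : ∃ e4, e4 = Real.exp (4 * Real.pi * n) := ⟨_, rfl⟩
  have he10 : 0 < e1 := by rw [he1]; exact Real.exp_pos _
  have he40 : 0 < e4 := by rw [he4]; exact Real.exp_pos _
  refine ⟨e1 ^ 2 * (C1 + (e4 * (CG * 2 ^ n)) ^ 2), by positivity, ?_⟩
  intro p hp hp7 ν hν χ hχ A E σ S hL hW hW' hσ Ξ T _ r u hS hT1 hdE B hB
  obtain ⟨F, hF⟩ : ∃ F : ℝ, F = (Fintype.card T : ℝ) := ⟨_, rfl⟩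
  have hF1 : 1 ≤ F := by rw [hF]; exact_mod_cast hT1
  have hF0 : 0 < F := by linarith
  rw [← hF] at hdE ⊢
  have hp0 : (0 : ℝ) < p := by exact_mod_cast hp.pos
  have hA := hL.det
  have hAE := hW.det
  obtain ⟨D, hD⟩ : ∃ D, D = |A.det| := ⟨_, rfl⟩
  have hD0 : 0 < D := by rw [hD]; exact abs_pos.2 hA
  rw [← hD] at hdE
  have hAq := Aq_det_ne hA σ o (P := (p : ℝ) ^ ν) (by positivity)
  obtain ⟨D', hD'⟩ : ∃ D', D' = |(Aq A σ o ((p : ℝ) ^ ν)).det| := ⟨_, rfl⟩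
  have hD0' : 0 < D' := by rw [hD']; exact abs_pos.2 hAq
  have hdE' : |(Aq (AE A E) σ o ((p : ℝ) ^ ν)).det| = F⁻¹ * D' := by
    rw [hD', Aq_det _ σ o (by positivity), Aq_det _ σ o (by positivity), hdE, ← hD]
    rw [mul_assoc F, mul_inv F]
    ring
  have hS1 : 1 ≤ S := by
    refine le_trans ?_ (hσ o)
    rw [Real.one_le_sqrt]
    nlinarith [sq_nonneg (σ o)]
  obtain ⟨M0, hM0⟩ : ∃ M0 : ℝ, M0 = (p : ℝ) ^ (n + 4) * (1 + ν) ^ 2 * S ^ n * ((p : ℝ) ^ ν) ^ (19 / 58 : ℝ) := ⟨_, rfl⟩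
  have hM00 : 0 ≤ M0 := by rw [hM0]; positivity
  obtain ⟨mn, hmn⟩ : ∃ mn : ℝ, mn = min D⁻¹ (min 1 D'⁻¹) := ⟨_, rfl⟩
  have hmn0 : 0 ≤ mn := by rw [hmn]; exact le_min (by positivity) (le_min zero_le_one (by positivity))
  obtain ⟨CH, hCH⟩ : ∃ CH : ℝ, CH = e4 * (CG * 2 ^ n) * F := ⟨_, rfl⟩
  have hCH0 : 0 ≤ CH := by rw [hCH]; positivity
  obtain ⟨M, hM⟩ : ∃ M : ℝ, M = Real.sqrt ((C1 + CH ^ 2) * M0 * mn / D) := ⟨_, rfl⟩
  have hM0' : 0 ≤ M := by rw [hM]; exact Real.sqrt_nonneg _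
  have hpiece : ∀ a : T, u a ≠ 0 → ‖Th χ o (AE A E) σ (zB B - em A (r a)) (eB σ B)‖ ≤ M := by
    intro a ha
    have h1 : ‖Th χ o (AE A E) σ (zB B - em A (r a)) (eB σ B)‖ ≤ CH * |(AE A E).det|⁻¹ := by
      refine (Th_piece χ o hA σ (zB B) (eB σ B) (hS.Einj a) (hS.ne ha)).trans ?_
      rw [hdE]
      have g1 : Real.exp (Real.pi * ‖zB B‖ ^ 2) ≤ e4 := by
        rw [he4]
        apply Real.exp_le_exp.2
        have h3 := mul_le_mul_of_nonneg_left (zB_norm hB) Real.pi_pos.le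
        have h4 : (0 : ℝ) ≤ Real.pi * n := by positivity
        rw [← hn] at h3
        linarith
      have g2 := nz_half hL
      rw [← hn, ← hD] at g2
      calc _ ≤ e4 * (CG * 2 ^ n * D⁻¹) := mul_le_mul g1 g2 (nz_nonneg _) he40.le
        _ = CH * (F * D)⁻¹ := by
            rw [hCH]
            field_simp
    have h2 : ‖Th χ⁻¹ o (Aq (AE A E) σ o ((p : ℝ) ^ ν)) (-σ) (dz σ (eB σ B)) (de σ (zB B - em A (r a)))‖ ≤
        CH * |(Aq (AE A E) σ o ((p : ℝ) ^ ν)).det|⁻¹ := by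
      refine (dual_piece hp hν χ o hAE σ hB _).trans ?_
      have g2 := nz_half hW'.lb
      rw [← hn] at g2 ⊢
      rw [← he4]
      calc _ ≤ e4 * (CG * 2 ^ n * |(Aq (AE A E) σ o ((p : ℝ) ^ ν)).det|⁻¹) :=
            mul_le_mul_of_nonneg_left g2 he40.le
        _ ≤ e4 * (CG * 2 ^ n) * F * |(Aq (AE A E) σ o ((p : ℝ) ^ ν)).det|⁻¹ := by
            have : e4 * (CG * 2 ^ n) ≤ e4 * (CG * 2 ^ n) * F := le_mul_of_one_le_right (by positivity) hF1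
            have h5 : 0 ≤ |(Aq (AE A E) σ o ((p : ℝ) ^ ν)).det|⁻¹ := by positivity
            nlinarith [mul_le_mul_of_nonneg_right this h5]
        _ = _ := by rw [hCH]
    have h3 := hall p hp hp7 ν hν χ hχ (AE A E) σ (zB B - em A (r a)) (eB σ B) S CH hW hW' hσ hCH0 h1 h2
    unfold NT at h3
    rw [hdE, hdE'] at h3
    have h4 : min (F * D)⁻¹ (min 1 (F⁻¹ * D')⁻¹) ≤ F * mn := by
      rw [hmn, mul_min_of_nonneg _ _ hF0.le, mul_min_of_nonneg _ _ hF0.le]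
      refine min_le_min ?_ (min_le_min ?_ ?_)
      · rw [mul_inv]
        have : F⁻¹ ≤ F := (inv_le_one_of_one_le₀ hF1).trans hF1
        exact mul_le_mul_of_nonneg_right this (by positivity)
      · rw [mul_one]; exact hF1
      · rw [mul_inv, inv_inv]
    have h5 : (C1 + CH ^ 2) * (p : ℝ) ^ (n + 4) * (1 + ν) ^ 2 * S ^ n * ((p : ℝ) ^ ν) ^ (19 / 58 : ℝ) =
        (C1 + CH ^ 2) * M0 := by rw [hM0]; ring
    rw [h5] at h3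
    have h6 : 0 ≤ (C1 + CH ^ 2) * M0 := by positivity
    have h7 := h3.trans (mul_le_mul_of_nonneg_left h4 h6)
    rw [hM]
    apply Real.le_sqrt_of_sq_le
    rw [le_div_iff₀ hD0]
    have h8 : F * (‖Th χ o (AE A E) σ (zB B - em A (r a)) (eB σ B)‖ ^ 2 * D) ≤ F * ((C1 + CH ^ 2) * M0 * mn) := by
      linarith
    exact le_of_mul_le_mul_left h8 hF0
  have h1 := SX_le_pieces hS hA σ hB hM0' hpiece
  rw [← hn, ← he1, ← hF] at h1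
  have h2 := pow_le_pow_left₀ (norm_nonneg _) h1 2
  have h3 : M ^ 2 = (C1 + CH ^ 2) * M0 * mn / D := by rw [hM]; exact Real.sq_sqrt (by positivity)
  rw [← hD, ← hD', ← hmn]
  calc ‖SX Ξ A σ B‖ ^ 2 * D ≤ (e1 * F * M) ^ 2 * D := mul_le_mul_of_nonneg_right h2 hD0.le
    _ = e1 ^ 2 * F ^ 2 * (C1 + CH ^ 2) * M0 * mn := by
        rw [mul_pow, mul_pow, h3]
        field_simp
    _ ≤ e1 ^ 2 * F ^ 2 * ((C1 + (e4 * (CG * 2 ^ n)) ^ 2) * F ^ 2) * M0 * mn := by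
        have h5 : C1 + CH ^ 2 ≤ (C1 + (e4 * (CG * 2 ^ n)) ^ 2) * F ^ 2 := by
          rw [hCH, mul_pow _ F 2]
          have : C1 ≤ C1 * F ^ 2 := le_mul_of_one_le_right hC1.le (one_le_pow₀ hF1)
          linarith
        gcongr
    _ = _ := by
        rw [hM0]
        ring

/-- the dual trivial bound -/
theorem SX_dual {p ν : ℕ} (hp : p.Prime) (hν : 1 ≤ ν) {χ : DirichletCharacter ℂ (p ^ ν)}
    (hχ : χ.IsPrimitive) (o : ι) {A : Matrix ι ι ℝ} (hA : A.det ≠ 0) {E : Matrix ι ι ℤ} (σ : ι → ℝ)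
    {Ξ : (ι → ℤ) → ℂ} {T : Type} [Fintype T] {r : T → ι → ℤ} {u : T → ℂ} (hS : Spl Ξ χ o T r E u)
    (hT1 : 1 ≤ Fintype.card T) (hdE : |(AE A E).det| = Fintype.card T * |A.det|)
    {B : ι → ℂ} (hB : ∀ i, ‖B i‖ ≤ 1) :
    ‖SX Ξ A σ B‖ ^ 2 * |A.det| ≤ (Real.exp (5 * Real.pi * Fintype.card ι) * (Fintype.card T : ℝ) *
      nz ((Real.sqrt 2)⁻¹ • Aq (AE A E) σ o ((p : ℝ) ^ ν))) ^ 2 * |(Aq (AE A E) σ o ((p : ℝ) ^ ν)).det| := by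
  obtain ⟨n, hn⟩ : ∃ n, n = Fintype.card ι := ⟨_, rfl⟩
  obtain ⟨e1, he1⟩ : ∃ e1, e1 = Real.exp (Real.pi * n) := ⟨_, rfl⟩
  obtain ⟨e4, he4⟩ : ∃ e4, e4 = Real.exp (4 * Real.pi * n) := ⟨_, rfl⟩
  have he5 : Real.exp (5 * Real.pi * n) = e1 * e4 := by
    rw [he1, he4, ← Real.exp_add]
    congr 1
    ring
  have he10 : 0 < e1 := by rw [he1]; exact Real.exp_pos _
  have he40 : 0 < e4 := by rw [he4]; exact Real.exp_pos _
  obtain ⟨F, hF⟩ : ∃ F : ℝ, F = (Fintype.card T : ℝ) := ⟨_, rfl⟩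
  have hF1 : 1 ≤ F := by rw [hF]; exact_mod_cast hT1
  have hF0 : 0 < F := by linarith
  rw [← hF] at hdE
  have hp0 : (0 : ℝ) < p := by exact_mod_cast hp.pos
  obtain ⟨D, hD⟩ : ∃ D, D = |A.det| := ⟨_, rfl⟩
  have hD0 : 0 < D := by rw [hD]; exact abs_pos.2 hA
  rw [← hD] at hdE
  have hAE : (AE A E).det ≠ 0 := by
    rw [← abs_pos, hdE]
    positivity
  obtain ⟨D', hD'⟩ : ∃ D', D' = |(Aq (AE A E) σ o ((p : ℝ) ^ ν)).det| := ⟨_, rfl⟩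
  have hD0' : 0 ≤ D' := by rw [hD']; exact abs_nonneg _
  obtain ⟨N, hN⟩ : ∃ N : ℝ, N = nz ((Real.sqrt 2)⁻¹ • Aq (AE A E) σ o ((p : ℝ) ^ ν)) := ⟨_, rfl⟩
  have hN0 : 0 ≤ N := by rw [hN]; exact nz_nonneg _
  obtain ⟨M, hM⟩ : ∃ M : ℝ, M = Real.sqrt ((e4 * N) ^ 2 * D' / (F * D)) := ⟨_, rfl⟩
  have hM0' : 0 ≤ M := by rw [hM]; exact Real.sqrt_nonneg _
  have hpiece : ∀ a : T, u a ≠ 0 → ‖Th χ o (AE A E) σ (zB B - em A (r a)) (eB σ B)‖ ≤ M := by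
    intro a _
    have h2 := dual_piece hp hν χ o hAE σ hB (de σ (zB B - em A (r a)))
    have h3 := Th_fe hp hχ o hAE σ (zB B - em A (r a)) (eB σ B)
    rw [← hn, ← he4, ← hN] at h2
    rw [hdE, ← hD'] at h3
    rw [hM]
    apply Real.le_sqrt_of_sq_le
    rw [le_div_iff₀ (by positivity), h3]
    exact mul_le_mul_of_nonneg_right (pow_le_pow_left₀ (norm_nonneg _) h2 2) hD0'
  have h1 := SX_le_pieces hS hA σ hB hM0' hpiece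
  rw [← hn] at h1 ⊢
  rw [← he1, ← hF] at h1
  rw [← hN, ← hD, ← hD', ← hF, he5]
  have h2 := pow_le_pow_left₀ (norm_nonneg _) h1 2
  have h3 : M ^ 2 = (e4 * N) ^ 2 * D' / (F * D) := by rw [hM]; exact Real.sq_sqrt (by positivity)
  calc ‖SX Ξ A σ B‖ ^ 2 * D ≤ (e1 * F * M) ^ 2 * D := mul_le_mul_of_nonneg_right h2 hD0.le
    _ = (e1 * e4 * N) ^ 2 * D' * F := by
        rw [mul_pow, mul_pow, h3]
        field_simp
    _ ≤ (e1 * e4 * N) ^ 2 * D' * F ^ 2 := by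
        have : F ≤ F ^ 2 := le_self_pow₀ hF1 (by norm_num)
        gcongr
    _ = _ := by ring

end Run7.h343.NG
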